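import Pool.Agent.Y990.PL.Explo

set_option autoImplicit false

open MeasureTheory Set

/-!
The bound for `E |M| min (1 / N) (1 / |K|)`.
-/

namespace Pool.Agent.Y990.PL

open Pool.Agent.W783.PC
open H974 (ind ind_of ind_not_of ind_nonneg ind_le_one ind_congr Ok Ex)

noncomputable section

variable {n : ℕ}

/-- `∑_{t ≤ T} t^(-κ) ≤ 2 T^(1-κ)` for `0 < κ ≤ 1/2`. -/
lemma sum_rpow_le (κ : ℝ) (h0 : 0 ≤ κ) (h1 : κ ≤ 1 / 2) (T : ℕ) :
    ∑ t ∈ Finset.Icc 1 T, (t : ℝ) ^ (-κ) ≤ 2 * (T : ℝ) ^ (1 - κ) := by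
  induction T with
  | zero =>
    simp only [Finset.Icc_eq_empty_of_lt (Nat.lt_succ_self 0), Finset.sum_empty]
    positivity
  | succ T ih =>
    rw [Finset.sum_Icc_succ_top (by omega)]
    refine (add_le_add_left ih _).trans ?_
    -- `2 T^(1-κ) + (T+1)^(-κ) ≤ 2 (T+1)^(1-κ)`
    have hT1 : (0 : ℝ) < ((T + 1 : ℕ) : ℝ) := by positivity
    have hx : ((T + 1 : ℕ) : ℝ) ^ (1 - κ) = ((T + 1 : ℕ) : ℝ) * ((T + 1 : ℕ) : ℝ) ^ (-κ) := by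
      rw [sub_eq_add_neg, Real.rpow_add hT1, Real.rpow_one]
    -- Bernoulli: `(T/(T+1))^(1-κ) ≤ 1 - (1-κ)/(T+1)`
    have hb : ((T : ℝ) / ((T + 1 : ℕ) : ℝ)) ^ (1 - κ) ≤ 1 - (1 - κ) / ((T + 1 : ℕ) : ℝ) := by
      have h2 : (T : ℝ) / ((T + 1 : ℕ) : ℝ) = 1 + (-(1 / ((T + 1 : ℕ) : ℝ))) := by
        push_cast
        field_simp
        ring
      rw [h2]
      have h3 := rpow_one_add_le_one_add_mul_self (s := -(1 / ((T + 1 : ℕ) : ℝ)))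
        (by
          have : 1 / ((T + 1 : ℕ) : ℝ) ≤ 1 := by
            rw [div_le_one hT1]
            push_cast
            have : (0 : ℝ) ≤ T := Nat.cast_nonneg T
            linarith
          linarith) (p := 1 - κ) (by linarith) (by linarith)
      refine h3.trans (le_of_eq ?_)
      ring
    have h4 : (T : ℝ) ^ (1 - κ) ≤ ((T + 1 : ℕ) : ℝ) ^ (1 - κ) * (1 - (1 - κ) / ((T + 1 : ℕ) : ℝ)) := by
      have h5 : (T : ℝ) ^ (1 - κ) = ((T + 1 : ℕ) : ℝ) ^ (1 - κ) *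
          ((T : ℝ) / ((T + 1 : ℕ) : ℝ)) ^ (1 - κ) := by
        rw [← Real.mul_rpow hT1.le (by positivity)]
        congr 1
        field_simp
      rw [h5]
      exact mul_le_mul_of_nonneg_left hb (by positivity)
    have h6 : ((T + 1 : ℕ) : ℝ) ^ (1 - κ) * ((1 - κ) / ((T + 1 : ℕ) : ℝ)) =
        (1 - κ) * ((T + 1 : ℕ) : ℝ) ^ (-κ) := by
      rw [hx]
      field_simp
    have h7 : (0 : ℝ) ≤ ((T + 1 : ℕ) : ℝ) ^ (-κ) := by positivity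
    have h8 : ((T + 1 : ℕ) : ℝ) ^ (1 - κ) * (1 - (1 - κ) / ((T + 1 : ℕ) : ℝ)) =
        ((T + 1 : ℕ) : ℝ) ^ (1 - κ) - (1 - κ) * ((T + 1 : ℕ) : ℝ) ^ (-κ) := by
      rw [mul_sub, mul_one, h6]
    rw [h8] at h4
    nlinarith

/-- The weight of a cluster. -/
def gN (N : ℕ) (X : Set (V n)) : ℝ := min ((N : ℝ)⁻¹) ((X.ncard : ℝ)⁻¹)

lemma gN_nonneg (N : ℕ) (X : Set (V n)) : 0 ≤ gN N X := by
  unfold gN; positivity

lemma gN_le (N : ℕ) (X : Set (V n)) : gN N X ≤ (N : ℝ)⁻¹ := min_le_left _ _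

lemma gN_le' {N k : ℕ} (hk : 0 < k) {X : Set (V n)} (h : (k : ℕ∞) ≤ X.encard) :
    gN N X ≤ (k : ℝ)⁻¹ := by
  refine (min_le_right _ _).trans ?_
  by_cases hfin : X.Finite
  · rw [← hfin.cast_ncard_eq] at h
    have h' : k ≤ X.ncard := by exact_mod_cast h
    exact inv_anti₀ (by exact_mod_cast hk) (by exact_mod_cast h')
  · have hinf : X.Infinite := hfin
    rw [hinf.ncard]
    simp

/-- The dyadic constant. -/
def Cd (κ : ℝ) : ℝ :=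
  3 * ((2 : ℝ) ^ (1 / 2 - κ) / ((2 : ℝ) ^ (1 / 2 - κ) - 1) +
    1 / (1 - (2 : ℝ) ^ (-(1 / 2 + κ))))

lemma dyad_sum (κ : ℝ) (h0 : 0 < κ) (h1 : κ < 1 / 2) (N : ℕ) (hN : 1 ≤ N) (J : ℕ) :
    ∑ j ∈ Finset.range J, min ((N : ℝ)⁻¹) (((2 ^ j : ℕ) : ℝ)⁻¹) *
      (3 * ((2 : ℝ) ^ (1 / 2 - κ)) ^ j) ≤ Cd κ * (N : ℝ) ^ (-(1 / 2 + κ)) := by
  set a : ℝ := (2 : ℝ) ^ (1 / 2 - κ) with ha
  set b : ℝ := (2 : ℝ) ^ (-(1 / 2 + κ)) with hb
  have ha1 : 1 < a := Real.one_lt_rpow (by norm_num) (by linarith)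
  have hb0 : 0 < b := Real.rpow_pos_of_pos (by norm_num) _
  have hb1 : b < 1 := Real.rpow_lt_one_of_one_lt_of_neg (by norm_num) (by linarith)
  have hab : a * (2 : ℝ)⁻¹ = b := by
    rw [ha, hb, ← Real.rpow_neg_one, ← Real.rpow_add (by norm_num)]
    congr 1; ring
  have hN0 : (0 : ℝ) < N := by exact_mod_cast hN
  set j0 := Nat.log 2 N with hj0
  have hlo : 2 ^ j0 ≤ N := Nat.pow_log_le_self 2 (by omega)
  have hhi : N < 2 ^ (j0 + 1) := Nat.lt_pow_succ_log_self (by norm_num) N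
  -- powers
  have haj : ∀ j : ℕ, a ^ j = ((2 ^ j : ℕ) : ℝ) ^ (1 / 2 - κ) := by
    intro j
    rw [ha, ← Real.rpow_natCast, ← Real.rpow_mul (by norm_num)]
    push_cast
    rw [← Real.rpow_natCast 2 j, ← Real.rpow_mul (by norm_num)]
    congr 1; ring
  have hbj : ∀ j : ℕ, b ^ j = ((2 ^ j : ℕ) : ℝ) ^ (-(1 / 2 + κ)) := by
    intro j
    rw [hb, ← Real.rpow_natCast, ← Real.rpow_mul (by norm_num)]
    push_cast
    rw [← Real.rpow_natCast 2 j, ← Real.rpow_mul (by norm_num)]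
    congr 1; ring
  set X : ℝ := (N : ℝ) ^ (-(1 / 2 + κ)) with hX
  have hXpos : 0 < X := Real.rpow_pos_of_pos hN0 _
  -- first part
  have p1 : ∑ j ∈ Finset.range (j0 + 1), (N : ℝ)⁻¹ * a ^ j ≤ a / (a - 1) * X := by
    rw [← Finset.mul_sum, geom_sum_eq (by linarith : a ≠ 1)]
    have h2 : a ^ j0 ≤ (N : ℝ) ^ (1 / 2 - κ) := by
      rw [haj]
      exact Real.rpow_le_rpow (by positivity) (by exact_mod_cast hlo) (by linarith)
    have h3 : (N : ℝ)⁻¹ * (N : ℝ) ^ (1 / 2 - κ) = X := by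
      rw [hX, ← Real.rpow_neg_one, ← Real.rpow_add hN0]
      congr 1; ring
    have h4 : (a ^ (j0 + 1) - 1) / (a - 1) ≤ a / (a - 1) * (N : ℝ) ^ (1 / 2 - κ) := by
      rw [div_mul_eq_mul_div]
      apply div_le_div_of_nonneg_right _ (by linarith)
      rw [pow_succ]
      nlinarith
    calc (N : ℝ)⁻¹ * ((a ^ (j0 + 1) - 1) / (a - 1))
        ≤ (N : ℝ)⁻¹ * (a / (a - 1) * (N : ℝ) ^ (1 / 2 - κ)) :=
          mul_le_mul_of_nonneg_left h4 (by positivity)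
      _ = a / (a - 1) * ((N : ℝ)⁻¹ * (N : ℝ) ^ (1 / 2 - κ)) := by ring
      _ = _ := by rw [h3]
  -- second part
  have p2 : ∀ k : ℕ, ∑ j ∈ Finset.range k, b ^ (j0 + 1 + j) ≤ 1 / (1 - b) * X := by
    intro k
    have h2 : ∑ j ∈ Finset.range k, b ^ (j0 + 1 + j) = b ^ (j0 + 1) * ∑ j ∈ Finset.range k, b ^ j := by
      rw [Finset.mul_sum]
      exact Finset.sum_congr rfl fun j _ => by rw [pow_add]
    have h3 : ∑ j ∈ Finset.range k, b ^ j ≤ 1 / (1 - b) := by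
      rw [geom_sum_eq (by linarith : b ≠ 1), ← neg_div_neg_eq, neg_sub, neg_sub]
      apply div_le_div_of_nonneg_right _ (by linarith)
      have : 0 ≤ b ^ k := by positivity
      linarith
    have h4 : b ^ (j0 + 1) ≤ X := by
      rw [hbj, hX]
      apply Real.rpow_le_rpow_of_nonpos hN0 _ (by linarith)
      exact_mod_cast hhi.le
    rw [h2, mul_comm (1 / (1 - b))]
    exact mul_le_mul h4 h3 (Finset.sum_nonneg fun j _ => by positivity) hXpos.le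
  -- pointwise bounds
  have q1 : ∀ j : ℕ, min ((N : ℝ)⁻¹) (((2 ^ j : ℕ) : ℝ)⁻¹) * (3 * a ^ j) ≤ 3 * ((N : ℝ)⁻¹ * a ^ j) := by
    intro j
    have : min ((N : ℝ)⁻¹) (((2 ^ j : ℕ) : ℝ)⁻¹) ≤ (N : ℝ)⁻¹ := min_le_left _ _
    have h2 : 0 ≤ a ^ j := by positivity
    nlinarith
  have q2 : ∀ j : ℕ, min ((N : ℝ)⁻¹) (((2 ^ j : ℕ) : ℝ)⁻¹) * (3 * a ^ j) ≤ 3 * b ^ j := by
    intro j
    have h1 : min ((N : ℝ)⁻¹) (((2 ^ j : ℕ) : ℝ)⁻¹) ≤ ((2 ^ j : ℕ) : ℝ)⁻¹ := min_le_right _ _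
    have h2 : 0 ≤ a ^ j := by positivity
    have h3 : ((2 ^ j : ℕ) : ℝ)⁻¹ * a ^ j = b ^ j := by
      rw [← hab, mul_pow]
      push_cast
      rw [inv_pow]
      ring
    calc min ((N : ℝ)⁻¹) (((2 ^ j : ℕ) : ℝ)⁻¹) * (3 * a ^ j)
        ≤ ((2 ^ j : ℕ) : ℝ)⁻¹ * (3 * a ^ j) := mul_le_mul_of_nonneg_right h1 (by positivity)
      _ = 3 * (((2 ^ j : ℕ) : ℝ)⁻¹ * a ^ j) := by ring
      _ = _ := by rw [h3]
  have tot : ∑ j ∈ Finset.range J, min ((N : ℝ)⁻¹) (((2 ^ j : ℕ) : ℝ)⁻¹) * (3 * a ^ j) ≤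
      ∑ j ∈ Finset.range (j0 + 1 + J), min ((N : ℝ)⁻¹) (((2 ^ j : ℕ) : ℝ)⁻¹) * (3 * a ^ j) := by
    apply Finset.sum_le_sum_of_subset_of_nonneg
    · intro j hj
      rw [Finset.mem_range] at hj ⊢
      omega
    · intro j _ _
      positivity
  rw [Finset.sum_range_add] at tot
  refine tot.trans ?_
  have s1 := Finset.sum_le_sum (fun j (_ : j ∈ Finset.range (j0 + 1)) => q1 j)
  have s2 := Finset.sum_le_sum (fun j (_ : j ∈ Finset.range J) => q2 (j0 + 1 + j))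
  rw [← Finset.mul_sum] at s1 s2
  have t1 := p1
  have t2 := p2 J
  have e : Cd κ * X = 3 * (a / (a - 1) * X) + 3 * (1 / (1 - b) * X) := by
    unfold Cd
    rw [← ha, ← hb]
    ring
  rw [e]
  linarith

end

end Pool.Agent.Y990.PL
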