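import Pool.Agent.H974R2.Basic

set_option autoImplicit false

/-!
Second moment bound for an exploration: with `C A` the cluster when the open edges are `A`, the sum
`M` of the centred edges touching the cluster satisfies
`E (M ^ 2; |C| < T) ≤ v * E (min |C| T)`, where `v |X|` bounds the weight of the edges touching `X`.
-/

namespace Pool.Agent.Y990.PL

open Finset H974

variable {E W : Type} [DecidableEq E]

/-- `min |X| T`. -/
noncomputable def sz (T : ℕ) (X : Set W) : ℕ := (min X.encard (T : ℕ∞)).toNat

omit [DecidableEq E] in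
lemma sz_ge {T : ℕ} {X : Set W} (h : (T : ℕ∞) ≤ X.encard) : sz T X = T := by
  unfold sz
  rw [min_eq_right h]
  rfl

omit [DecidableEq E] in
lemma sz_lt {T : ℕ} {X : Set W} (h : X.encard < (T : ℕ∞)) : sz T X = X.ncard := by
  unfold sz
  rw [min_eq_left h.le]
  rfl

omit [DecidableEq E] in
lemma sz_le (T : ℕ) (X : Set W) : sz T X ≤ T := by
  unfold sz
  have h : min X.encard (T : ℕ∞) ≤ (T : ℕ∞) := min_le_right _ _
  exact ENat.toNat_le_of_le_coe h

/-- The structure used by the exploration. -/
structure Expl (S : Finset E) (p : E → ℝ) (v : ℝ) (C : Finset E → Set W)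
    (t : E → Set W → Prop) : Prop where
  mono : ∀ A B, A ⊆ B → C A ⊆ C B
  tmono : ∀ e X Y, X ⊆ Y → t e X → t e Y
  stop : ∀ A B, A ⊆ B → B ⊆ S → (∀ e ∈ B, e ∉ A → ¬ t e (C A)) → C B = C A
  bd : ∀ A, A ⊆ S → (C A).Finite → ∀ R : Finset E, R ⊆ S → (∀ e ∈ R, t e (C A)) →
    ∑ e ∈ R, p e ≤ v * (C A).ncard

open scoped Classical in
/-- The sum of the centred edges of `F` touching the cluster. -/
noncomputable def mart (p : E → ℝ) (C : Finset E → Set W) (t : E → Set W → Prop)
    (F O A : Finset E) : ℝ :=
  ∑ e ∈ F.filter (fun e => t e (C (O ∪ A))), (p e - (if e ∈ A then 1 else 0))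

lemma mart_eq (p : E → ℝ) (C : Finset E → Set W) (t : E → Set W → Prop) (F O A : Finset E) :
    mart p C t F O A = ∑ e ∈ F, ind (t e (C (O ∪ A))) * (p e - ind (e ∈ A)) := by
  classical
  unfold mart
  rw [Finset.sum_filter]
  refine Finset.sum_congr rfl fun e _ => ?_
  by_cases h : t e (C (O ∪ A))
  · rw [if_pos h, ind_of h]
    by_cases h' : e ∈ A
    · rw [if_pos h', ind_of h']; ring
    · rw [if_neg h', ind_not_of h']; ring
  · rw [if_neg h, ind_not_of h]; ring

theorem secmom_aux {S : Finset E} {p : E → ℝ} {v : ℝ} {C : Finset E → Set W}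
    {t : E → Set W → Prop} (hp : Ok p) (hX : Expl S p v C t) (hv : 0 ≤ v) (T : ℕ) :
    ∀ (k : ℕ) (F R O : Finset E) (c : ℝ), F.card = k → Disjoint F R → F ∪ R = S → O ⊆ R →
      (∀ e ∈ R, t e (C O)) → ∑ e ∈ R, p e ≤ v * T →
      Ex p F (fun A => ind ((C (O ∪ A)).encard < T) *
        (c + ∑ e ∈ F, ind (t e (C (O ∪ A))) * (p e - ind (e ∈ A))) ^ 2) ≤
      c ^ 2 + v * Ex p F (fun A => (sz T (C (O ∪ A)) : ℝ)) - ∑ e ∈ R, p e := by
  intro k
  induction k with
  | zero =>
    intro F R O c hF hd hFR hO hR hb
    rw [Finset.card_eq_zero] at hF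
    subst hF
    rw [Ex_empty, Ex_empty]
    simp only [Finset.union_empty, Finset.sum_empty, add_zero]
    have hRS : R = S := by rw [← hFR, Finset.empty_union]
    by_cases hT : (C O).encard < T
    · rw [ind_of hT, one_mul, sz_lt hT]
      have hfin : (C O).Finite := Set.finite_of_encard_le_coe hT.le
      have := hX.bd O (hO.trans hRS.le) hfin R hRS.le hR
      linarith
    · rw [ind_not_of hT, zero_mul]
      push Not at hT
      rw [sz_ge hT]
      nlinarith [sq_nonneg c]
  | succ k ih =>
    intro F R O c hF hd hFR hO hR hb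
    have hRS : R ⊆ S := by rw [← hFR]; exact Finset.subset_union_right
    have hFS : F ⊆ S := by rw [← hFR]; exact Finset.subset_union_left
    by_cases hT : (C O).encard < T
    swap
    · -- the cluster is already large
      push Not at hT
      have hbig : ∀ A, (T : ℕ∞) ≤ (C (O ∪ A)).encard := fun A =>
        hT.trans (Set.encard_le_encard (hX.mono _ _ Finset.subset_union_left))
      have h1 : Ex p F (fun A => ind ((C (O ∪ A)).encard < T) *
          (c + ∑ e ∈ F, ind (t e (C (O ∪ A))) * (p e - ind (e ∈ A))) ^ 2) = 0 := by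
        have : ∀ A, A ⊆ F → ind ((C (O ∪ A)).encard < T) *
          (c + ∑ e ∈ F, ind (t e (C (O ∪ A))) * (p e - ind (e ∈ A))) ^ 2 = 0 := by
          intro A _
          rw [ind_not_of (not_lt.mpr (hbig A)), zero_mul]
        rw [Ex_congr this, Ex_const]
      have h2 : Ex p F (fun A => (sz T (C (O ∪ A)) : ℝ)) = T := by
        have : ∀ A, A ⊆ F → (sz T (C (O ∪ A)) : ℝ) = T := by
          intro A _
          rw [sz_ge (hbig A)]
        rw [Ex_congr this, Ex_const]
      rw [h1, h2]
      nlinarith [sq_nonneg c]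
    have hfin : (C O).Finite := Set.finite_of_encard_le_coe hT.le
    have hOS : O ⊆ S := hO.trans hRS
    by_cases hex : ∃ e ∈ F, t e (C O)
    swap
    · -- nothing more to explore
      push Not at hex
      have hCA : ∀ A, A ⊆ F → C (O ∪ A) = C O := by
        intro A hA
        apply hX.stop _ _ Finset.subset_union_left
          (Finset.union_subset hOS (hA.trans hFS))
        intro e he heO
        rcases Finset.mem_union.mp he with h | h
        · exact absurd h heO
        · exact hex e (hA h)
      have h1 : Ex p F (fun A => ind ((C (O ∪ A)).encard < T) *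
          (c + ∑ e ∈ F, ind (t e (C (O ∪ A))) * (p e - ind (e ∈ A))) ^ 2) = c ^ 2 := by
        have : ∀ A, A ⊆ F → ind ((C (O ∪ A)).encard < T) *
          (c + ∑ e ∈ F, ind (t e (C (O ∪ A))) * (p e - ind (e ∈ A))) ^ 2 = c ^ 2 := by
          intro A hA
          rw [hCA A hA, ind_of hT, one_mul]
          have : ∑ e ∈ F, ind (t e (C O)) * (p e - ind (e ∈ A)) = 0 := by
            apply Finset.sum_eq_zero
            intro e he
            rw [ind_not_of (hex e he), zero_mul]
          rw [this, add_zero]
        rw [Ex_congr this, Ex_const]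
      have h2 : Ex p F (fun A => (sz T (C (O ∪ A)) : ℝ)) = (C O).ncard := by
        have : ∀ A, A ⊆ F → (sz T (C (O ∪ A)) : ℝ) = (C O).ncard := by
          intro A hA
          rw [hCA A hA, sz_lt hT]
        rw [Ex_congr this, Ex_const]
      rw [h1, h2]
      have := hX.bd O hOS hfin R hRS hR
      linarith
    obtain ⟨e, heF, hte⟩ := hex
    -- explore `e`
    set F' := F.erase e with hF'
    have heF' : e ∉ F' := Finset.notMem_erase e F
    have hFe : F = insert e F' := (Finset.insert_erase heF).symm
    have heR : e ∉ R := Finset.disjoint_left.mp hd heF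
    have heO : e ∉ O := fun h => heR (hO h)
    have hcard : F'.card = k := by
      rw [hF', Finset.card_erase_of_mem heF, hF]; rfl
    have hd' : Disjoint F' (insert e R) := by
      rw [Finset.disjoint_insert_right]
      exact ⟨heF', Finset.disjoint_of_subset_left (Finset.erase_subset _ _) hd⟩
    have hFR' : F' ∪ insert e R = S := by
      rw [← hFR, hFe]
      ext x
      simp only [Finset.mem_union, Finset.mem_insert]
      tauto
    have hR' : ∀ e' ∈ insert e R, t e' (C O) := by
      intro e' he'
      rcases Finset.mem_insert.mp he' with h | h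
      · rw [h]; exact hte
      · exact hR e' h
    have hR'S : insert e R ⊆ S := Finset.insert_subset (hFS heF) hRS
    have hb' : ∑ e' ∈ insert e R, p e' ≤ v * T := by
      have h1 := hX.bd O hOS hfin (insert e R) hR'S hR'
      have h2 : ((C O).ncard : ℝ) ≤ T := by
        have h3 : ((C O).ncard : ℕ∞) ≤ T := by
          rw [hfin.cast_ncard_eq]; exact hT.le
        exact_mod_cast h3
      nlinarith
    have hsumR : ∑ e' ∈ insert e R, p e' = p e + ∑ e' ∈ R, p e' := Finset.sum_insert heR
    have hR'' : ∀ e' ∈ insert e R, t e' (C (insert e O)) := fun e' he' =>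
      hX.tmono _ _ _ (hX.mono _ _ (Finset.subset_insert _ _)) (hR' e' he')
    have i1 := ih F' (insert e R) (insert e O) (c + (p e - 1)) hcard hd' hFR'
      (Finset.insert_subset_insert _ hO) hR'' hb'
    have i0 := ih F' (insert e R) O (c + p e) hcard hd' hFR'
      (hO.trans (Finset.subset_insert _ _)) hR' hb'
    rw [hsumR] at i1 i0
    rw [hFe, Ex_insert p heF', Ex_insert p heF']
    have e1 : Ex p F' (fun A => ind ((C (O ∪ insert e A)).encard < T) *
        (c + ∑ e' ∈ insert e F', ind (t e' (C (O ∪ insert e A))) *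
          (p e' - ind (e' ∈ insert e A))) ^ 2) =
        Ex p F' (fun A => ind ((C (insert e O ∪ A)).encard < T) *
        (c + (p e - 1) + ∑ e' ∈ F', ind (t e' (C (insert e O ∪ A))) *
          (p e' - ind (e' ∈ A))) ^ 2) := by
      apply Ex_congr
      intro A hA
      have hu : O ∪ insert e A = insert e O ∪ A := by
        ext x
        simp only [Finset.mem_union, Finset.mem_insert]
        tauto
      rw [hu, Finset.sum_insert heF']
      have h1 : ind (t e (C (insert e O ∪ A))) = 1 := by
        apply ind_of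
        apply hX.tmono _ _ _ _ hte
        apply hX.mono
        exact (Finset.subset_insert _ _).trans Finset.subset_union_left
      have h2 : ind (e ∈ insert e A) = 1 := ind_of (Finset.mem_insert_self _ _)
      have h3 : ∑ e' ∈ F', ind (t e' (C (insert e O ∪ A))) * (p e' - ind (e' ∈ insert e A)) =
          ∑ e' ∈ F', ind (t e' (C (insert e O ∪ A))) * (p e' - ind (e' ∈ A)) := by
        apply Finset.sum_congr rfl
        intro e' he'
        have hne : e' ≠ e := fun h => heF' (h ▸ he')
        have : ind (e' ∈ insert e A) = ind (e' ∈ A) := ind_congr (by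
          rw [Finset.mem_insert]
          exact ⟨fun h => h.resolve_left hne, Or.inr⟩)
        rw [this]
      rw [h1, h2, h3]
      ring
    have e0 : Ex p F' (fun A => ind ((C (O ∪ A)).encard < T) *
        (c + ∑ e' ∈ insert e F', ind (t e' (C (O ∪ A))) *
          (p e' - ind (e' ∈ A))) ^ 2) =
        Ex p F' (fun A => ind ((C (O ∪ A)).encard < T) *
        (c + p e + ∑ e' ∈ F', ind (t e' (C (O ∪ A))) *
          (p e' - ind (e' ∈ A))) ^ 2) := by
      apply Ex_congr
      intro A hA
      rw [Finset.sum_insert heF']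
      have h1 : ind (t e (C (O ∪ A))) = 1 := by
        apply ind_of
        apply hX.tmono _ _ _ _ hte
        apply hX.mono
        exact Finset.subset_union_left
      have h2 : ind (e ∈ A) = 0 := ind_not_of (fun h => heF' (hA h))
      rw [h1, h2]
      ring
    have m1 : Ex p F' (fun A => (sz T (C (O ∪ insert e A)) : ℝ)) =
        Ex p F' (fun A => (sz T (C (insert e O ∪ A)) : ℝ)) := by
      apply Ex_congr
      intro A hA
      have hu : O ∪ insert e A = insert e O ∪ A := by
        ext x
        simp only [Finset.mem_union, Finset.mem_insert]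
        tauto
      rw [hu]
    rw [e1, e0, m1]
    obtain ⟨q0, q1⟩ := hp e
    set q := p e
    set X1 := Ex p F' (fun A => ind ((C (insert e O ∪ A)).encard < T) *
        (c + (q - 1) + ∑ e' ∈ F', ind (t e' (C (insert e O ∪ A))) *
          (p e' - ind (e' ∈ A))) ^ 2)
    set X0 := Ex p F' (fun A => ind ((C (O ∪ A)).encard < T) *
        (c + q + ∑ e' ∈ F', ind (t e' (C (O ∪ A))) *
          (p e' - ind (e' ∈ A))) ^ 2)
    set Y1 := Ex p F' (fun A => (sz T (C (insert e O ∪ A)) : ℝ))
    set Y0 := Ex p F' (fun A => (sz T (C (O ∪ A)) : ℝ))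
    set sR := ∑ e' ∈ R, p e'
    have k1 := mul_le_mul_of_nonneg_left i1 q0
    have k0 := mul_le_mul_of_nonneg_left i0 (by linarith : (0:ℝ) ≤ 1 - q)
    nlinarith [k1, k0, mul_nonneg q0 q0]

/-- Second moment bound. -/
theorem secmom {S : Finset E} {p : E → ℝ} {v : ℝ} {C : Finset E → Set W}
    {t : E → Set W → Prop} (hp : Ok p) (hX : Expl S p v C t) (hv : 0 ≤ v) (T : ℕ) :
    Ex p S (fun A => ind ((C A).encard < T) *
      (∑ e ∈ S, ind (t e (C A)) * (p e - ind (e ∈ A))) ^ 2) ≤
    v * Ex p S (fun A => (sz T (C A) : ℝ)) := by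
  have h := secmom_aux hp hX hv T S.card S ∅ ∅ 0 rfl (Finset.disjoint_empty_right _)
    (Finset.union_empty _) (Finset.empty_subset _) (by simp) (by
      rw [Finset.sum_empty]; positivity)
  simpa using h

end Pool.Agent.Y990.PL
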