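import Pool.Agent.W424.PC.Russo
import Pool.Agent.W975.PC.GR1
import Pool.Agent.W45.PC.PT1
import Pool.Agent.W402.PC.Simon
import Pool.Agent.Y990.PL.SecMom

set_option autoImplicit false

open MeasureTheory Set

/-!
Resampling finitely many coordinates; clusters and their sizes.
-/

namespace Pool.Agent.Y990.PL

open Pool.Agent.W783.PC
open Pool.Agent.W424.PC (upd upd_self upd_ne upd_of measurable_upd)

noncomputable section

/-! ### Resampling -/

section resample

variable {ι : Type}

theorem pm_mix (r : ι → unitInterval) (c : ι) :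
    pm r = ENNReal.ofReal (r c : ℝ) • (pm r).map (upd c true) +
      ENNReal.ofReal (1 - (r c : ℝ)) • (pm r).map (upd c false) := by
  have h0 : (0 : ℝ) ≤ r c := (r c).2.1
  have h1 : (0 : ℝ) ≤ 1 - r c := by linarith [(r c).2.2]
  ext A hA
  have h := Pool.Agent.W424.PC.pm_split Pool.Agent.W45.PC.s_indep r hA c
  simp only [Measure.coe_add, Measure.coe_smul, Pi.add_apply, Pi.smul_apply, smul_eq_mul]
  rw [Measure.map_apply (measurable_upd c true) hA, Measure.map_apply (measurable_upd c false) hA]
  have e1 : ∀ B : Set (ι → Bool), pm r B = ENNReal.ofReal ((pm r).real B) := fun B => by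
    rw [Measure.real, ENNReal.ofReal_toReal (measure_ne_top _ _)]
  rw [e1 A, e1 (upd c true ⁻¹' A), e1 (upd c false ⁻¹' A), ← ENNReal.ofReal_mul h0,
    ← ENNReal.ofReal_mul h1, ← ENNReal.ofReal_add (mul_nonneg h0 measureReal_nonneg)
      (mul_nonneg h1 measureReal_nonneg), h]
  rfl

theorem lint_split (r : ι → unitInterval) (c : ι) {f : (ι → Bool) → ENNReal}
    (hf : Measurable f) : ∫⁻ ω, f ω ∂(pm r) =
      ENNReal.ofReal (r c : ℝ) * ∫⁻ ω, f (upd c true ω) ∂(pm r) +
      ENNReal.ofReal (1 - (r c : ℝ)) * ∫⁻ ω, f (upd c false ω) ∂(pm r) := by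
  conv_lhs => rw [pm_mix r c]
  rw [lintegral_add_measure, lintegral_smul_measure, lintegral_smul_measure,
    lintegral_map hf (measurable_upd c true), lintegral_map hf (measurable_upd c false)]
  rfl

theorem int_bdd (r : ι → unitInterval) {f : (ι → Bool) → ℝ} (hf : Measurable f) (B : ℝ)
    (hb : ∀ ω, |f ω| ≤ B) : Integrable f (pm r) := by
  refine ⟨hf.aestronglyMeasurable, ?_⟩
  refine HasFiniteIntegral.of_bounded (C := B) ?_
  exact Filter.Eventually.of_forall fun ω => by simpa using hb ω

theorem int_split (r : ι → unitInterval) (c : ι) {f : (ι → Bool) → ℝ}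
    (hf : Measurable f) (B : ℝ) (hb : ∀ ω, |f ω| ≤ B) : ∫ ω, f ω ∂(pm r) =
      (r c : ℝ) * ∫ ω, f (upd c true ω) ∂(pm r) +
      (1 - (r c : ℝ)) * ∫ ω, f (upd c false ω) ∂(pm r) := by
  have h0 : (0 : ℝ) ≤ r c := (r c).2.1
  have h1 : (0 : ℝ) ≤ 1 - r c := by linarith [(r c).2.2]
  have i : ∀ b : Bool, Integrable f ((pm r).map (upd c b)) := by
    intro b
    rw [integrable_map_measure hf.aestronglyMeasurable (measurable_upd c b).aemeasurable]
    exact int_bdd r (hf.comp (measurable_upd c b)) B (fun ω => hb _)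
  conv_lhs => rw [pm_mix r c]
  rw [integral_add_measure ((i true).smul_measure ENNReal.ofReal_ne_top)
    ((i false).smul_measure ENNReal.ofReal_ne_top), integral_smul_measure, integral_smul_measure,
    integral_map (measurable_upd c true).aemeasurable hf.aestronglyMeasurable,
    integral_map (measurable_upd c false).aemeasurable hf.aestronglyMeasurable,
    ENNReal.toReal_ofReal h0, ENNReal.toReal_ofReal h1]
  rfl

open scoped Classical in
/-- Replace the coordinates in `S`: those in `A` are open, the others closed. -/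
def put (S A : Finset ι) (ω : ι → Bool) : ι → Bool :=
  fun c => if c ∈ S then decide (c ∈ A) else ω c

lemma put_mem {S A : Finset ι} {ω : ι → Bool} {c : ι} (h : c ∈ S) :
    put S A ω c = true ↔ c ∈ A := by
  classical
  unfold put
  rw [if_pos h]
  simp

lemma put_not {S A : Finset ι} {ω : ι → Bool} {c : ι} (h : c ∉ S) : put S A ω c = ω c := by
  unfold put
  rw [if_neg h]

lemma measurable_put (S A : Finset ι) : Measurable (put S A : (ι → Bool) → ι → Bool) := by
  rw [measurable_pi_iff]
  intro c
  by_cases h : c ∈ S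
  · have : (fun ω : ι → Bool => put S A ω c) = fun _ => put S A (fun _ => true) c := by
      funext ω
      unfold put
      rw [if_pos h, if_pos h]
    rw [this]
    exact measurable_const
  · have : (fun ω : ι → Bool => put S A ω c) = fun ω => ω c := by
      funext ω
      exact put_not h
    rw [this]
    exact measurable_pi_apply c

lemma put_empty (ω : ι → Bool) : put ∅ ∅ ω = ω := by
  funext c
  exact put_not (by simp)

lemma put_insert [DecidableEq ι] {S A : Finset ι} {c : ι} (hc : c ∉ S) (hA : A ⊆ S)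
    (ω : ι → Bool) : put (insert c S) (insert c A) ω = put S A (upd c true ω) := by
  funext i
  by_cases hi : i ∈ S
  · have hne : i ≠ c := fun h => hc (h ▸ hi)
    rw [Bool.eq_iff_iff, put_mem (Finset.mem_insert_of_mem hi), put_mem hi, Finset.mem_insert]
    exact ⟨fun h => h.resolve_left hne, Or.inr⟩
  · by_cases hic : i = c
    · subst hic
      rw [put_not hi, upd_self]
      exact (put_mem (Finset.mem_insert_self _ _)).2 (Finset.mem_insert_self _ _)
    · rw [put_not hi, upd_ne hic, put_not]
      rw [Finset.mem_insert]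
      push Not
      exact ⟨hic, hi⟩

lemma put_insert' [DecidableEq ι] {S A : Finset ι} {c : ι} (hc : c ∉ S) (hA : A ⊆ S)
    (ω : ι → Bool) : put (insert c S) A ω = put S A (upd c false ω) := by
  funext i
  by_cases hi : i ∈ S
  · rw [Bool.eq_iff_iff, put_mem (Finset.mem_insert_of_mem hi), put_mem hi]
  · by_cases hic : i = c
    · subst hic
      rw [put_not hi, upd_self]
      rw [← Bool.not_eq_true, put_mem (Finset.mem_insert_self _ _)]
      exact fun h => hi (hA h)
    · rw [put_not hi, upd_ne hic, put_not]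
      rw [Finset.mem_insert]
      push Not
      exact ⟨hic, hi⟩

lemma measurable_Ex [DecidableEq ι] {S : Finset ι} (p : ι → ℝ) {f : (ι → Bool) → ℝ}
    (hf : Measurable f) (T : Finset ι) :
    Measurable (fun ω => H974.Ex p S (fun A => f (put T A ω))) := by
  unfold H974.Ex
  refine Finset.measurable_sum _ fun A _ => ?_
  exact (hf.comp (measurable_put T A)).const_mul _

lemma Ex_bdd [DecidableEq ι] {S : Finset ι} {p : ι → ℝ} (hp : H974.Ok p)
    {g : Finset ι → ℝ} {B : ℝ} (hg : ∀ A, |g A| ≤ B) : |H974.Ex p S g| ≤ B := by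
  rw [abs_le]
  constructor
  · have := H974.Ex_mono hp (S := S) (f := fun _ => -B) (g := g)
      (fun A _ => (abs_le.1 (hg A)).1)
    rwa [H974.Ex_const] at this
  · exact H974.Ex_le_of_le hp fun A _ => (abs_le.1 (hg A)).2

/-- Resampling the coordinates of `S`. -/
theorem int_resample [DecidableEq ι] (r : ι → unitInterval) (S : Finset ι)
    {f : (ι → Bool) → ℝ} (hf : Measurable f) (B : ℝ) (hb : ∀ ω, |f ω| ≤ B) :
    ∫ ω, f ω ∂(pm r) =
      ∫ ω, H974.Ex (fun c => (r c : ℝ)) S (fun A => f (put S A ω)) ∂(pm r) := by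
  have hok : H974.Ok (fun c => (r c : ℝ)) := fun c => ⟨(r c).2.1, (r c).2.2⟩
  induction S using Finset.induction_on with
  | empty =>
    simp only [H974.Ex_empty, put_empty]
  | insert c S hc ih =>
    rw [ih]
    set g : (ι → Bool) → ℝ := fun ω => H974.Ex (fun c => (r c : ℝ)) S (fun A => f (put S A ω))
      with hg
    have hgm : Measurable g := measurable_Ex _ hf S
    have hgb : ∀ ω, |g ω| ≤ B := fun ω => Ex_bdd hok fun A => hb _
    rw [int_split r c hgm B hgb, ← integral_const_mul, ← integral_const_mul, ← integral_add]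
    · congr 1
      funext ω
      rw [H974.Ex_insert _ hc]
      congr 1
      · congr 1
        exact H974.Ex_congr fun A hA => by rw [put_insert hc hA]
      · congr 1
        exact H974.Ex_congr fun A hA => by rw [put_insert' hc hA]
    · exact (int_bdd r (hgm.comp (measurable_upd c true)) B fun ω => hgb _).const_mul _
    · exact (int_bdd r (hgm.comp (measurable_upd c false)) B fun ω => hgb _).const_mul _

end resample

/-! ### Clusters -/

variable {n : ℕ}

/-- The open cluster of `x`. -/
def Kc (E : Set (Sym2 (V n))) (ω : Cfg n) (x : V n) : Set (V n) := cl E ω univ x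

lemma mem_Kc {E : Set (Sym2 (V n))} {ω : Cfg n} {x y : V n} :
    y ∈ Kc E ω x ↔ (G E ω univ).Reachable x y := Iff.rfl

lemma self_mem_Kc (E : Set (Sym2 (V n))) (ω : Cfg n) (x : V n) : x ∈ Kc E ω x :=
  SimpleGraph.Reachable.refl x

lemma Kc_mono {E : Set (Sym2 (V n))} {ω ω' : Cfg n} (h : ∀ c, ω c = true → ω' c = true)
    (x : V n) : Kc E ω x ⊆ Kc E ω' x := by
  intro y hy
  refine SimpleGraph.Reachable.mono ?_ hy
  rintro a b ⟨h1, h2, h3, h4, h5, h6, h7⟩
  exact ⟨h1, h2, h3, h4, h _ h5, h _ h6, h _ h7⟩

lemma meas_mem_Kc (E : Set (Sym2 (V n))) (x y : V n) :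
    MeasurableSet {ω : Cfg n | y ∈ Kc E ω x} :=
  Pool.Agent.W975.PC.s_reach_meas n E univ x y

/-- The cluster of `x` has at least `t` vertices. -/
def Big (E : Set (Sym2 (V n))) (t : ℕ) (x : V n) : Set (Cfg n) :=
  {ω | (t : ℕ∞) ≤ (Kc E ω x).encard}

lemma meas_le_encard {Ω : Type} [MeasurableSpace Ω] {f : Ω → Set (V n)}
    (hf : ∀ y, MeasurableSet {ω | y ∈ f ω}) (t : ℕ) :
    MeasurableSet {ω | (t : ℕ∞) ≤ (f ω).encard} := by
  have h : {ω | (t : ℕ∞) ≤ (f ω).encard} =
      ⋃ Y : Finset (V n), ⋃ (_ : Y.card = t), ⋂ y ∈ Y, {ω | y ∈ f ω} := by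
    ext ω
    simp only [mem_setOf_eq, mem_iUnion, mem_iInter, exists_prop]
    constructor
    · intro h
      obtain ⟨X, hX, hXt⟩ := Set.exists_subset_encard_eq h
      have hfin : X.Finite := Set.finite_of_encard_eq_coe hXt
      refine ⟨hfin.toFinset, ?_, fun y hy => hX (hfin.mem_toFinset.1 hy)⟩
      have := hfin.encard_eq_coe_toFinset_card
      rw [hXt] at this
      exact_mod_cast this.symm
    · rintro ⟨Y, hY, hYf⟩
      have : (Y : Set (V n)) ⊆ f ω := fun y hy => hYf y hy
      have h2 := Set.encard_le_encard this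
      rw [Set.encard_coe_eq_coe_finsetCard, hY] at h2
      exact h2
  rw [h]
  refine MeasurableSet.iUnion fun Y => MeasurableSet.iUnion fun _ => ?_
  exact Finset.measurableSet_biInter _ fun y _ => hf y

lemma meas_Big (E : Set (Sym2 (V n))) (t : ℕ) (x : V n) : MeasurableSet (Big E t x) :=
  meas_le_encard (fun y => meas_mem_Kc E x y) t

lemma meas_ncard {Ω : Type} [MeasurableSpace Ω] {f : Ω → Set (V n)}
    (hf : ∀ y, MeasurableSet {ω | y ∈ f ω}) : Measurable (fun ω => (f ω).ncard) := by
  refine measurable_to_countable' fun k => ?_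
  have hcases : (fun ω => (f ω).ncard) ⁻¹' {k} =
      ({ω | (k : ℕ∞) ≤ (f ω).encard} \ {ω | ((k + 1 : ℕ) : ℕ∞) ≤ (f ω).encard}) ∪
      (if k = 0 then ⋂ t : ℕ, {ω | (t : ℕ∞) ≤ (f ω).encard} else ∅) := by
    ext ω
    simp only [mem_preimage, mem_singleton_iff, mem_union, mem_sdiff, mem_setOf_eq, not_le]
    by_cases hfin : (f ω).Finite
    · have hc := hfin.cast_ncard_eq
      constructor
      · intro h
        left
        rw [← hc, h]
        refine ⟨le_rfl, ?_⟩
        exact_mod_cast Nat.lt_succ_self k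
      · rintro (⟨h1, h2⟩ | h)
        · rw [← hc] at h1 h2
          have h1' : k ≤ (f ω).ncard := by exact_mod_cast h1
          have h2' : (f ω).ncard < k + 1 := by exact_mod_cast h2
          omega
        · exfalso
          split_ifs at h with hk
          · rw [mem_iInter] at h
            have h3 : (((f ω).ncard + 1 : ℕ) : ℕ∞) ≤ (f ω).encard := h _
            rw [← hc] at h3
            have : (f ω).ncard + 1 ≤ (f ω).ncard := by exact_mod_cast h3
            omega
          · exact h
    · have hinf : (f ω).Infinite := hfin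
      rw [hinf.ncard, hinf.encard_eq]
      constructor
      · intro h
        right
        rw [if_pos h.symm, mem_iInter]
        intro t
        show (t : ℕ∞) ≤ (f ω).encard
        rw [hinf.encard_eq]; exact le_top
      · rintro (⟨_, h2⟩ | h)
        · exact absurd h2 (by simp)
        · split_ifs at h with hk
          · exact hk.symm
          · exact absurd h (by simp)
  rw [hcases]
  refine ((meas_le_encard hf k).diff (meas_le_encard hf (k + 1))).union ?_
  split_ifs
  · exact MeasurableSet.iInter fun t => meas_le_encard hf t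
  · exact MeasurableSet.empty

lemma meas_sz {Ω : Type} [MeasurableSpace Ω] {f : Ω → Set (V n)}
    (hf : ∀ y, MeasurableSet {ω | y ∈ f ω}) (T : ℕ) : Measurable (fun ω => sz T (f ω)) := by
  classical
  have h : (fun ω => sz T (f ω)) =
      fun ω => if (T : ℕ∞) ≤ (f ω).encard then T else (f ω).ncard := by
    funext ω
    split_ifs with h
    · exact sz_ge h
    · exact sz_lt (not_le.1 h)
  rw [h]
  exact Measurable.ite (meas_le_encard hf T) measurable_const (meas_ncard hf)

/-- Layer cake formula for `min |X| T`. -/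
lemma sz_eq_sum (T : ℕ) (X : Set (V n)) :
    (sz T X : ℝ) = ∑ t ∈ Finset.Icc 1 T, H974.ind ((t : ℕ∞) ≤ X.encard) := by
  classical
  have hi : ∀ t : ℕ, H974.ind ((t : ℕ∞) ≤ X.encard) =
      if (t : ℕ∞) ≤ X.encard then (1 : ℝ) else 0 := by
    intro t
    by_cases h : (t : ℕ∞) ≤ X.encard
    · rw [if_pos h, H974.ind_of h]
    · rw [if_neg h, H974.ind_not_of h]
  simp_rw [hi]
  rw [Finset.sum_ite, Finset.sum_const, Finset.sum_const_zero, add_zero, nsmul_eq_mul, mul_one]
  congr 1
  by_cases h : (T : ℕ∞) ≤ X.encard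
  · rw [sz_ge h, Finset.filter_true_of_mem, Nat.card_Icc]
    · simp
    · intro t ht
      rw [Finset.mem_Icc] at ht
      exact le_trans (by exact_mod_cast ht.2) h
  · push Not at h
    rw [sz_lt h]
    have hfin : X.Finite := Set.finite_of_encard_le_coe h.le
    have hc := hfin.cast_ncard_eq
    have hlt : X.ncard < T := by
      rw [← hc] at h
      exact_mod_cast h
    have : (Finset.Icc 1 T).filter (fun t : ℕ => (t : ℕ∞) ≤ X.encard) =
        Finset.Icc 1 X.ncard := by
      ext t
      rw [Finset.mem_filter, Finset.mem_Icc, Finset.mem_Icc, ← hc]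
      constructor
      · rintro ⟨⟨h1, h2⟩, h3⟩
        exact ⟨h1, by exact_mod_cast h3⟩
      · rintro ⟨h1, h2⟩
        exact ⟨⟨h1, by omega⟩, by exact_mod_cast h2⟩
    rw [this, Nat.card_Icc]
    simp

end

end Pool.Agent.Y990.PL
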