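import Pool.Agent.Y990.PL.Stm
import Pool.Agent.Y990.PL.Base

set_option autoImplicit false

open MeasureTheory Set

/-!
Statements of further parts of the project PL.
-/

namespace Pool.Agent.Y990.PL

open Pool.Agent.W783.PC Pool.Agent.W424.PC

noncomputable section

/-! ### Tightness of the largest cluster in a finite set -/

open scoped Classical in
/-- The number of points of `L` in the cluster of `x`. -/
def ct {n : ℕ} (E : Set (Sym2 (V n))) (L : Finset (V n)) (ω : Cfg n) (x : V n) : ℕ :=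
  (L.filter (fun y => y ∈ Kc E ω x)).card

/-- The cluster of `x` has at least `l` points in `L`. -/
def CT {n : ℕ} (E : Set (Sym2 (V n))) (L : Finset (V n)) (l : ℕ) (x : V n) : Set (Cfg n) :=
  {ω | l ≤ ct E L ω x}

/-- Some cluster has at least `l` points in `L`. -/
def MX {n : ℕ} (E : Set (Sym2 (V n))) (L : Finset (V n)) (l : ℕ) : Set (Cfg n) :=
  {ω | ∃ x ∈ L, l ≤ ct E L ω x}

/-- TIGHT: from `S_bks` and `S_split`. -/
def S_tight : Prop := ∀ (n : ℕ) (r : Ix n → unitInterval) (E : Set (Sym2 (V n)))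
  (L : Finset (V n)) (a : ℝ) (l : ℕ) (u : V n), 0 < a → a ≤ 1 →
  (∀ x : V n, a ≤ (r (Sum.inl x) : ℝ)) → 1 ≤ l →
  (pm r).real (CT E L (3 * l) u) ≤
    4 / a * ((pm r).real (CT E L l u) * (pm r).real (MX E L l)) ∧
  (pm r).real (MX E L (3 * l)) ≤ 4 / a * ((pm r).real (MX E L l)) ^ 2

/-- LINE: a power-law bound for the tail of the cluster size gives a bound for the mean number of
points of a finite set `L` in the cluster of a point of `L`. -/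
def S_line : Prop := ∀ (a κ : ℝ), 0 < a → a ≤ 1 → 0 < κ → κ < 1 / 2 → ∃ C : ℝ, 0 < C ∧
  ∀ (n : ℕ) (r : Ix n → unitInterval) (E : Set (Sym2 (V n))) (L : Finset (V n)) (A : ℝ),
  (∀ x : V n, a ≤ (r (Sum.inl x) : ℝ)) → 1 ≤ A →
  (∀ x ∈ L, ∀ t : ℕ, 1 ≤ t → (pm r).real (Big E t x) ≤ A * (t : ℝ) ^ (-κ)) →
  ∀ u ∈ L, ∑ y ∈ L, (pm r).real {ω | y ∈ Kc E ω u} ≤
    C * A * (A * L.card) ^ ((1 - κ) / (1 + κ))

/-! ### Sharpness -/

/-- SHARPS: sharpness for site percolation with long bonds. -/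
def S_sharpS : Prop := ∀ (n m : ℕ) (s : ℝ) (β : NNReal) (a1 a2 : unitInterval) (x0 : V n),
  a1 < a2 → (pm (prob (n := n) a2 1 β s m)).real (Perc (EdI m) x0) = 0 →
  ∃ (S : Finset (V n)) (ρ : ℝ), x0 ∈ S ∧ 0 ≤ ρ ∧ ρ < 1 ∧ ∀ T : Finset (V n),
    ∑ y ∈ T \ S, (pm (prob (n := n) a1 1 β s m)).real (Adj1 (EdI m) (S : Set (V n)) x0 y) ≤ ρ

/-- The probability `1 - exp (-x)`. -/
def pe (x : NNReal) : unitInterval :=
  ⟨1 - Real.exp (-(x : ℝ)), by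
    have h : (0 : ℝ) ≤ x := x.2
    constructor
    · rw [sub_nonneg]
      exact Real.exp_le_one_iff.mpr (by linarith)
    · linarith [Real.exp_pos (-(x : ℝ))]⟩

/-- SHARPB: sharpness for bond percolation where nearest-neighbour bonds are open with probability
`1 - exp (-x)` and long bonds of length `k` with probability `1 - exp (-x b k^(-s))`. -/
def S_sharpB : Prop := ∀ (n m : ℕ) (s : ℝ) (b x1 x2 : NNReal) (x0 : V n),
  x1 < x2 → (pm (prob (n := n) 1 (pe x2) (x2 * b) s m)).real (Perc (EdI m) x0) = 0 →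
  ∃ (S : Finset (V n)) (ρ : ℝ), x0 ∈ S ∧ 0 ≤ ρ ∧ ρ < 1 ∧ ∀ T : Finset (V n),
    ∑ y ∈ T \ S, (pm (prob (n := n) 1 (pe x1) (x1 * b) s m)).real
      (Adj1 (EdI m) (S : Set (V n)) x0 y) ≤ ρ

/-! ### The recursion -/

/-- BOOT: the recursive inequality improves a large constant by a factor `2`. -/
def S_boot : Prop := ∀ (α κ C3 C4 r0 : ℝ), 0 < α → α < 1 → κ = (1 - α) / (2 + α) → 0 < C3 →
  0 < C4 → 1 ≤ r0 → ∃ Cs : ℝ, 1 ≤ Cs ∧ ∀ (th : ℕ → ℝ) (A : ℝ), Cs ≤ A →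
  (∀ N : ℕ, 0 ≤ th N ∧ th N ≤ 1) →
  (∀ N r : ℕ, 1 ≤ N → r0 ≤ (r : ℝ) → (th N) ^ 2 ≤
    C4 * A ^ (2 / (1 + κ)) * (r : ℝ) ^ (-(2 * κ / (1 + κ))) +
      C3 * A * (r : ℝ) ^ (α / 2) * (N : ℝ) ^ (-(1 / 2 + κ))) →
  ∀ N : ℕ, 1 ≤ N → th N ≤ A / 2 * (N : ℝ) ^ (-κ)

end

end Pool.Agent.Y990.PL
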