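import Pool.Agent.Y990.PL.Harr
import Pool.Agent.Y990.PL.Stm2

set_option autoImplicit false

open MeasureTheory Set Filter
open scoped Topology

/-!
The recursive inequality.
-/

namespace Pool.Agent.Y990.PL

open Pool.Agent.W783.PC
open H974 (ind ind_of ind_not_of ind_nonneg ind_le_one ind_congr Ok Ex)

noncomputable section

variable {n : ℕ}

/-! ### The probabilities of the long bonds -/

lemma lrp_eq (β : NNReal) (s : ℝ) (k : ℕ) :
    (lrp β s k : ℝ) = 1 - Real.exp (-((β : ℝ) * (k : ℝ) ^ (-s))) := rfl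

lemma lrp_le (β : NNReal) (s : ℝ) (k : ℕ) : (lrp β s k : ℝ) ≤ β * (k : ℝ) ^ (-s) := by
  rw [lrp_eq]
  have := Real.add_one_le_exp (-((β : ℝ) * (k : ℝ) ^ (-s)))
  linarith

lemma lrp_lo {β : NNReal} {s β0 β1 : ℝ} (hs : 0 < s) (h0 : 0 ≤ β0) (h1 : β0 ≤ β)
    (h2 : (β : ℝ) ≤ β1) {l k : ℕ} (hl : 1 ≤ l) (hk : k ∈ Finset.Ico l (2 * l)) :
    β0 * Real.exp (-(2 * β1)) * (2 : ℝ) ^ (-s) * (l : ℝ) ^ (-s) ≤
      (lrp β s k : ℝ) * (1 - lrp β s k) := by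
  rw [Finset.mem_Ico] at hk
  have hk0 : (0 : ℝ) < k := by exact_mod_cast (by omega : 0 < k)
  have hl0 : (0 : ℝ) < l := by exact_mod_cast (by omega : 0 < l)
  set x : ℝ := (β : ℝ) * (k : ℝ) ^ (-s) with hx
  have hβ : (0 : ℝ) ≤ β := β.2
  have hks : (k : ℝ) ^ (-s) ≤ 1 :=
    Real.rpow_le_one_of_one_le_of_nonpos (by exact_mod_cast (by omega : 1 ≤ k)) (by linarith)
  have hks0 : 0 < (k : ℝ) ^ (-s) := Real.rpow_pos_of_pos hk0 _
  have hx0 : 0 ≤ x := by positivity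
  have hx1 : x ≤ β1 := by
    calc x ≤ β * 1 := mul_le_mul_of_nonneg_left hks hβ
      _ ≤ β1 := by linarith
  have hkl : (2 : ℝ) ^ (-s) * (l : ℝ) ^ (-s) ≤ (k : ℝ) ^ (-s) := by
    rw [← Real.mul_rpow (by norm_num) hl0.le]
    exact Real.rpow_le_rpow_of_nonpos hk0 (by exact_mod_cast (by omega : k ≤ 2 * l)) (by linarith)
  have hx2 : β0 * ((2 : ℝ) ^ (-s) * (l : ℝ) ^ (-s)) ≤ x := by
    calc β0 * ((2 : ℝ) ^ (-s) * (l : ℝ) ^ (-s)) ≤ β0 * (k : ℝ) ^ (-s) :=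
          mul_le_mul_of_nonneg_left hkl h0
      _ ≤ x := mul_le_mul_of_nonneg_right h1 hks0.le
  have h3 : (lrp β s k : ℝ) = 1 - Real.exp (-x) := lrp_eq β s k
  have h4 : x * Real.exp (-x) ≤ 1 - Real.exp (-x) := by
    have h5 := Real.add_one_le_exp x
    have h6 : Real.exp (-x) * Real.exp x = 1 := by rw [← Real.exp_add]; simp
    have h7 := Real.exp_pos (-x)
    nlinarith
  have h8 : Real.exp (-(2 * β1)) ≤ Real.exp (-x) * Real.exp (-x) := by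
    rw [← Real.exp_add]
    exact Real.exp_le_exp.2 (by linarith)
  have h9 := Real.exp_pos (-x)
  rw [h3]
  calc β0 * Real.exp (-(2 * β1)) * (2 : ℝ) ^ (-s) * (l : ℝ) ^ (-s)
      = (β0 * ((2 : ℝ) ^ (-s) * (l : ℝ) ^ (-s))) * Real.exp (-(2 * β1)) := by ring
    _ ≤ x * (Real.exp (-x) * Real.exp (-x)) := by
        refine mul_le_mul hx2 h8 (Real.exp_pos _).le hx0
    _ = (x * Real.exp (-x)) * Real.exp (-x) := by ring
    _ ≤ (1 - Real.exp (-x)) * (1 - (1 - Real.exp (-x))) := by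
        rw [sub_sub_cancel]
        exact mul_le_mul_of_nonneg_right h4 h9.le

lemma wt_le {β : NNReal} {s : ℝ} (hs : 0 < s) {l : ℕ} (hl : 1 ≤ l) :
    wt β s l ≤ 2 * β * (l : ℝ) ^ (1 - s) := by
  have hl0 : (0 : ℝ) < l := by exact_mod_cast (by omega : 0 < l)
  have h1 : ∀ k ∈ Finset.Ico l (2 * l), (lrp β s k : ℝ) ≤ β * (l : ℝ) ^ (-s) := by
    intro k hk
    rw [Finset.mem_Ico] at hk
    refine (lrp_le β s k).trans (mul_le_mul_of_nonneg_left ?_ β.2)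
    exact Real.rpow_le_rpow_of_nonpos hl0 (by exact_mod_cast hk.1) (by linarith)
  have h2 := Finset.sum_le_sum h1
  rw [Finset.sum_const, Nat.card_Ico, nsmul_eq_mul] at h2
  have h3 : ((2 * l - l : ℕ) : ℝ) = l := by
    congr 1; omega
  rw [h3] at h2
  have h4 : (l : ℝ) ^ (1 - s) = l * (l : ℝ) ^ (-s) := by
    rw [sub_eq_add_neg, Real.rpow_add hl0, Real.rpow_one]
  unfold wt
  rw [h4]
  nlinarith

lemma wt_pos {β : NNReal} (hβ : 0 < β) {s : ℝ} {l : ℕ} (hl : 1 ≤ l) : 0 < wt β s l := by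
  unfold wt
  have h1 : ∀ k ∈ Finset.Ico l (2 * l), (0 : ℝ) < (lrp β s k : ℝ) := by
    intro k hk
    rw [Finset.mem_Ico] at hk
    have hk0 : (0 : ℝ) < k := by exact_mod_cast (by omega : 0 < k)
    rw [lrp_eq]
    have h2 : (0 : ℝ) < β * (k : ℝ) ^ (-s) := mul_pos hβ (Real.rpow_pos_of_pos hk0 _)
    have := Real.exp_lt_one_iff.2 (show -((β : ℝ) * (k : ℝ) ^ (-s)) < 0 by linarith)
    linarith
  have h2 := Finset.sum_pos h1 ⟨l, by rw [Finset.mem_Ico]; omega⟩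
  linarith

/-! ### The two-ghost inequality -/

lemma pt_ne {k : ℕ} (hk : 1 ≤ k) : (0 : V n) ≠ pt n k := by
  intro h
  have := congrArg Prod.fst h
  simp only [pt, Prod.fst_zero] at this
  omega

theorem two_ghost {a p : unitInterval} {β : NNReal} {s : ℝ} {m : ℕ} (hm : 1 ≤ m)
    (hβ : 0 < β) {l N : ℕ} (hl : 2 ≤ l) (hN : 1 ≤ N) {κ B : ℝ} (h0 : 0 < κ) (h1 : κ < 1 / 2)
    (hB0 : 0 ≤ B)
    (hfin : ∀ᵐ ω ∂(pm (prob (n := n) a p β s m)), ∀ z, (Kc (EdI m) ω z).Finite)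
    (hB : ∀ (u : V n) (t : ℕ), 1 ≤ t → (pm (prob (n := n) a p β s m)).real (Big (EdI m) t u) ≤
      B * (t : ℝ) ^ (-κ)) :
    ∑ k ∈ Finset.Ico l (2 * l), (lrp β s k : ℝ) * (1 - lrp β s k) *
      (pm (prob (n := n) a p β s m)).real (DD (EdI m) N 0 (pt n k)) ≤
      (m : ℝ) ^ n * (Cd κ * B * √(wt β s l) * (N : ℝ) ^ (-(1 / 2 + κ))) := by
  refine le_trans (Finset.sum_le_sum fun k hk => ?_) (mtp hm hl hfin (fun u W =>
    Qbound _ (EdI m) (wgh_SW hl W) (wt_pos hβ (by omega)) u h0 h1 hB0 (hB u) N hN))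
  rw [Finset.mem_Ico] at hk
  have hk2 : 2 ≤ k := by omega
  have h2 := edge_lower (prob (n := n) a p β s m) hN (pt_ne (n := n) (by omega : 1 ≤ k))
    (E := EdI m) (by
      have := bd_EdI (m := m) hk2 (0 : V n)
      rwa [gam_zero, zero_add] at this) hfin
  rw [← bd_zero m k, prob_bd hk2] at h2
  rw [prob_bd hk2]
  exact h2

/-! ### The recursion -/

lemma pt_inj : Function.Injective (pt n) := by
  intro k l h
  have := congrArg Prod.fst h
  simp only [pt] at this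
  exact_mod_cast this

lemma pt_dvd (m k : ℕ) : ∀ i, (m : ℤ) ∣ (pt n k).2 i := fun i => by
  simp [pt]

lemma Big_pt {a p : unitInterval} {β : NNReal} {s : ℝ} {m : ℕ} (t k : ℕ) :
    (pm (prob (n := n) a p β s m)).real (Big (EdI m) t (pt n k)) =
      (pm (prob (n := n) a p β s m)).real (Big (EdI m) t 0) := by
  have := Big_shift (n := n) (a := a) (p := p) (β := β) (s := s) (pt_dvd m k) t 0
  rwa [zero_add] at this

theorem recur (hline : S_line) {m : ℕ} (hm : 1 ≤ m) {s : ℝ} (hs : 1 < s) {κ : ℝ} (h0 : 0 < κ)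
    (h1 : κ < 1 / 2) {c0 β0 β1 : ℝ} (hc0 : 0 < c0) (hc1 : c0 ≤ 1) (hβ0 : 0 < β0)
    (hβ1 : β0 ≤ β1) : ∃ C3 C4 : ℝ, 0 < C3 ∧ 0 < C4 ∧
    ∀ (a p : unitInterval) (β : NNReal), c0 ≤ (a : ℝ) → c0 ≤ (p : ℝ) → β0 ≤ β → (β : ℝ) ≤ β1 →
    (∀ᵐ ω ∂(pm (prob (n := n) a p β s m)), ∀ z, (Kc (EdI m) ω z).Finite) →
    ∀ A : ℝ, 1 ≤ A → (∀ t : ℕ, 1 ≤ t → (pm (prob (n := n) a p β s m)).real (Big (EdI m) t 0) ≤
      A * (t : ℝ) ^ (-κ)) →
    ∀ N l : ℕ, 2 ≤ N → 2 ≤ l → ((pm (prob (n := n) a p β s m)).real (Big (EdI m) N 0)) ^ 2 ≤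
      C4 * A ^ (2 / (1 + κ)) * (l : ℝ) ^ (-(2 * κ / (1 + κ))) +
      C3 * A * (l : ℝ) ^ ((s - 1) / 2) * (N : ℝ) ^ (-(1 / 2 + κ)) := by
  classical
  obtain ⟨C, hC, hL⟩ := hline c0 κ hc0 hc1 h0 h1
  obtain ⟨c1, hc1p, hc1l, hcmp⟩ := compare_all (n := n) hm hc0
  set c2 : ℝ := β0 * Real.exp (-(2 * β1)) * (2 : ℝ) ^ (-s) with hc2
  have hc2p : 0 < c2 := by positivity
  have hCd : 0 < Cd κ := by
    unfold Cd
    have g1 : (1 : ℝ) < (2 : ℝ) ^ (1 / 2 - κ) := Real.one_lt_rpow (by norm_num) (by linarith)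
    have g2 : (2 : ℝ) ^ (-(1 / 2 + κ)) < 1 :=
      Real.rpow_lt_one_of_one_lt_of_neg (by norm_num) (by linarith)
    have g3 : 0 < (2 : ℝ) ^ (1 / 2 - κ) / ((2 : ℝ) ^ (1 / 2 - κ) - 1) :=
      div_pos (by linarith) (by linarith)
    have g4 : 0 < 1 / (1 - (2 : ℝ) ^ (-(1 / 2 + κ))) := div_pos one_pos (by linarith)
    linarith
  set e : ℝ := (1 - κ) / (1 + κ) with he
  have hκ1 : (1 + κ) ≠ 0 := by linarith
  have e1 : 1 + e = 2 / (1 + κ) := by rw [he]; field_simp; ring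
  have e2 : e - 1 = -(2 * κ / (1 + κ)) := by rw [he]; field_simp; ring
  have hmn : (0 : ℝ) < (m : ℝ) ^ n := by
    have : (0 : ℝ) < m := by exact_mod_cast (by omega : 0 < m)
    positivity
  have hβ1p : 0 < β1 := by linarith
  refine ⟨(m : ℝ) ^ n * (Cd κ * c1⁻¹ * √(2 * β1)) * c2⁻¹, C * (2 : ℝ) ^ e, by positivity,
    by positivity, ?_⟩
  intro a p β ha hp hb0 hb1 hfin A hA hbig N l hN hl
  set P := pm (prob (n := n) a p β s m) with hP
  set θ := P.real (Big (EdI m) N 0) with hθ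
  have hl0 : (0 : ℝ) < l := by exact_mod_cast (by omega : 0 < l)
  have hN0 : (0 : ℝ) < N := by exact_mod_cast (by omega : 0 < N)
  have hA0 : 0 < A := by linarith
  have hβ : 0 < β := by
    have : (0 : ℝ) < β := by linarith
    exact_mod_cast this
  -- the two-ghost inequality
  have hB : ∀ (u : V n) (t : ℕ), 1 ≤ t → P.real (Big (EdI m) t u) ≤
      (A * c1⁻¹) * (t : ℝ) ^ (-κ) := by
    intro u t ht
    have g1 := hcmp a p β s ha hp u t
    have g2 := hbig t ht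
    have g3 : P.real (Big (EdI m) t u) ≤ c1⁻¹ * (A * (t : ℝ) ^ (-κ)) := by
      rw [le_inv_mul_iff₀ hc1p]
      linarith
    linarith [g3]
  have hG := two_ghost (n := n) (s := s) hm hβ hl (by omega : 1 ≤ N) h0 h1
    (B := A * c1⁻¹) (by positivity) hfin hB
  set D : ℝ := ∑ k ∈ Finset.Ico l (2 * l), P.real (DD (EdI m) N 0 (pt n k)) with hD
  have hG1 : c2 * (l : ℝ) ^ (-s) * D ≤ (m : ℝ) ^ n *
      (Cd κ * (A * c1⁻¹) * √(wt β s l) * (N : ℝ) ^ (-(1 / 2 + κ))) := by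
    refine le_trans ?_ hG
    rw [hD, Finset.mul_sum]
    refine Finset.sum_le_sum fun k hk => ?_
    exact mul_le_mul_of_nonneg_right (lrp_lo (by linarith) hβ0.le hb0 hb1 (by omega) hk)
      measureReal_nonneg
  have hw : √(wt β s l) ≤ √(2 * β1) * (l : ℝ) ^ ((1 - s) / 2) := by
    have g1 : wt β s l ≤ (2 * β1) * (l : ℝ) ^ (1 - s) := by
      refine (wt_le (by linarith) (by omega)).trans ?_
      exact mul_le_mul_of_nonneg_right (by linarith) (by positivity)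
    refine (Real.sqrt_le_sqrt g1).trans ?_
    rw [Real.sqrt_mul (by positivity)]
    refine mul_le_mul_of_nonneg_left ?_ (Real.sqrt_nonneg _)
    rw [Real.sqrt_eq_rpow, ← Real.rpow_mul hl0.le]
    apply le_of_eq
    congr 1
    ring
  have hD2 : D ≤ (m : ℝ) ^ n * (Cd κ * c1⁻¹ * √(2 * β1)) * c2⁻¹ * A *
      ((l : ℝ) ^ s * (l : ℝ) ^ ((1 - s) / 2)) * (N : ℝ) ^ (-(1 / 2 + κ)) := by
    have g1 : (m : ℝ) ^ n * (Cd κ * (A * c1⁻¹) * √(wt β s l) * (N : ℝ) ^ (-(1 / 2 + κ))) ≤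
        (m : ℝ) ^ n * (Cd κ * (A * c1⁻¹) * (√(2 * β1) * (l : ℝ) ^ ((1 - s) / 2)) *
          (N : ℝ) ^ (-(1 / 2 + κ))) := by gcongr
    have g2 := hG1.trans g1
    have g3 : (l : ℝ) ^ (-s) * (l : ℝ) ^ s = 1 := by
      rw [← Real.rpow_add hl0, neg_add_cancel, Real.rpow_zero]
    have g4 : D = (c2 * (l : ℝ) ^ (-s) * D) * (c2⁻¹ * (l : ℝ) ^ s) := by
      calc D = (c2 * c2⁻¹) * ((l : ℝ) ^ (-s) * (l : ℝ) ^ s) * D := by
            rw [g3, mul_inv_cancel₀ hc2p.ne', one_mul, one_mul]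
        _ = _ := by ring
    rw [g4]
    refine (mul_le_mul_of_nonneg_right g2 (by positivity)).trans (le_of_eq ?_)
    ring
  -- the line
  set L : Finset (V n) := (Finset.range (2 * l)).image (pt n) with hLdef
  have hLc : (L.card : ℝ) = 2 * l := by
    rw [hLdef, Finset.card_image_of_injective _ pt_inj, Finset.card_range]
    push_cast; ring
  have h0L : (0 : V n) ∈ L := by
    rw [hLdef, Finset.mem_image]
    refine ⟨0, by rw [Finset.mem_range]; omega, ?_⟩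
    simp [pt]
  have hT := hL n (prob (n := n) a p β s m) (EdI m) L A (fun x => ha) hA (by
    intro x hx t ht
    rw [hLdef, Finset.mem_image] at hx
    obtain ⟨k, _, rfl⟩ := hx
    rw [Big_pt]
    exact hbig t ht) 0 h0L
  rw [hLc, hLdef, Finset.sum_image (fun x _ y _ h => pt_inj h)] at hT
  have hT2 : ∑ k ∈ Finset.Ico l (2 * l), P.real {ω | pt n k ∈ Kc (EdI m) ω 0} ≤
      C * A * (A * (2 * l)) ^ e := by
    refine le_trans (Finset.sum_le_sum_of_subset_of_nonneg ?_ fun _ _ _ => measureReal_nonneg) hT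
    intro k hk
    rw [Finset.mem_Ico] at hk
    rw [Finset.mem_range]
    exact hk.2
  -- the dichotomy
  have hdi : (l : ℝ) * θ ^ 2 ≤ C * A * (A * (2 * l)) ^ e + D := by
    have g1 : ∀ k ∈ Finset.Ico l (2 * l), θ ^ 2 ≤ P.real {ω | pt n k ∈ Kc (EdI m) ω 0} +
        P.real (DD (EdI m) N 0 (pt n k)) := by
      intro k _
      have := dicho (prob (n := n) a p β s m) (EdI m) hN 0 (pt n k)
      rw [Big_pt] at this
      rw [sq]
      exact this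
    have g2 := Finset.sum_le_sum g1
    rw [Finset.sum_const, Nat.card_Ico, nsmul_eq_mul, Finset.sum_add_distrib] at g2
    have g3 : ((2 * l - l : ℕ) : ℝ) = l := by
      congr 1; omega
    rw [g3] at g2
    linarith
  -- final computation
  have f1 : C * A * (A * (2 * l)) ^ e = l * (C * (2 : ℝ) ^ e * A ^ (2 / (1 + κ)) *
      (l : ℝ) ^ (-(2 * κ / (1 + κ)))) := by
    rw [← e1, ← e2, Real.mul_rpow hA0.le (by positivity), Real.mul_rpow (by norm_num) hl0.le,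
      Real.rpow_add hA0, Real.rpow_one, Real.rpow_sub hl0, Real.rpow_one]
    field_simp
  have f2 : (l : ℝ) ^ s * (l : ℝ) ^ ((1 - s) / 2) = l * (l : ℝ) ^ ((s - 1) / 2) := by
    rw [← Real.rpow_add hl0]
    nth_rewrite 2 [← Real.rpow_one (l : ℝ)]
    rw [← Real.rpow_add hl0]
    congr 1; ring
  rw [f1] at hdi
  rw [f2] at hD2
  have f3 : (l : ℝ) * θ ^ 2 ≤ l * (C * (2 : ℝ) ^ e * A ^ (2 / (1 + κ)) *
      (l : ℝ) ^ (-(2 * κ / (1 + κ))) + (m : ℝ) ^ n * (Cd κ * c1⁻¹ * √(2 * β1)) * c2⁻¹ * A *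
      (l : ℝ) ^ ((s - 1) / 2) * (N : ℝ) ^ (-(1 / 2 + κ))) := by
    refine hdi.trans ?_
    rw [mul_add]
    refine add_le_add le_rfl (hD2.trans (le_of_eq ?_))
    ring
  exact le_of_mul_le_mul_left f3 hl0

end

end Pool.Agent.Y990.PL
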