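import Pool.Agent.Y990.PL.Qb

set_option autoImplicit false

open MeasureTheory Set

/-!
The contribution of one bond.
-/

namespace Pool.Agent.Y990.PL

open Pool.Agent.W783.PC
open Pool.Agent.W424.PC (upd upd_self upd_ne upd_of measurable_upd)
open H974 (ind ind_of ind_not_of ind_nonneg ind_le_one ind_congr Ok Ex)

noncomputable section

variable {n : ℕ}

/-- `min (|X| / N) 1`. -/
def fN (N : ℕ) (X : Set (V n)) : ℝ := (X.ncard : ℝ) * gN N X

lemma fN_nonneg (N : ℕ) (X : Set (V n)) : 0 ≤ fN N X :=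
  mul_nonneg (Nat.cast_nonneg _) (gN_nonneg N X)

lemma fN_le (N : ℕ) (X : Set (V n)) : fN N X ≤ 1 := by
  unfold fN gN
  by_cases h : X.ncard = 0
  · rw [h]; simp
  · have hp : (0 : ℝ) < X.ncard := by exact_mod_cast Nat.pos_of_ne_zero h
    calc (X.ncard : ℝ) * min ((N : ℝ)⁻¹) ((X.ncard : ℝ)⁻¹)
        ≤ (X.ncard : ℝ) * (X.ncard : ℝ)⁻¹ := mul_le_mul_of_nonneg_left (min_le_right _ _) hp.le
      _ = 1 := mul_inv_cancel₀ hp.ne'

lemma fN_eq (N : ℕ) (X : Set (V n)) (h : X.ncard ≠ 0) :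
    fN N X = min ((X.ncard : ℝ) / N) 1 := by
  have hp : (0 : ℝ) < X.ncard := by exact_mod_cast Nat.pos_of_ne_zero h
  unfold fN gN
  rw [mul_min_of_nonneg _ _ hp.le, mul_inv_cancel₀ hp.ne', div_eq_mul_inv]

lemma Kc_trans {E : Set (Sym2 (V n))} {ω : Cfg n} {x y : V n} (h : y ∈ Kc E ω x) :
    Kc E ω y = Kc E ω x := by
  ext z
  rw [mem_Kc, mem_Kc]
  rw [mem_Kc] at h
  exact ⟨fun h' => h.trans h', fun h' => h.symm.trans h'⟩

lemma Kc_symm {E : Set (Sym2 (V n))} {ω : Cfg n} {x y : V n} (h : y ∈ Kc E ω x) :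
    x ∈ Kc E ω y := by
  rw [mem_Kc] at h ⊢
  exact h.symm

lemma upd_mono (c : Ix n) (ω : Cfg n) : ∀ i, upd c false ω i = true → upd c true ω i = true := by
  intro i hi
  by_cases h : i = c
  · subst h; exact upd_self _ _ _
  · rw [upd_ne h] at hi ⊢; exact hi

lemma upd_false_le (c : Ix n) (ω : Cfg n) : ∀ i, upd c false ω i = true → ω i = true := by
  intro i hi
  by_cases h : i = c
  · subst h; rw [upd_self] at hi; exact absurd hi (by simp)
  · rw [upd_ne h] at hi; exact hi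

/-- The cluster after opening the bond `s(x, y)`. -/
lemma Kc_open {E : Set (Sym2 (V n))} {ω : Cfg n} {x y : V n} (hxy : x ≠ y) (hE : s(x, y) ∈ E)
    (hx : ω (Sum.inl x) = true) (hy : ω (Sum.inl y) = true) :
    Kc E (upd (Sum.inr s(x, y)) true ω) x =
      Kc E (upd (Sum.inr s(x, y)) false ω) x ∪ Kc E (upd (Sum.inr s(x, y)) false ω) y := by
  set c : Ix n := Sum.inr s(x, y) with hc
  have hne : ∀ z : V n, (Sum.inl z : Ix n) ≠ c := fun z => by rw [hc]; exact Sum.inl_ne_inr
  have hadj : (G E (upd c true ω) univ).Adj x y := by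
    refine ⟨hxy, mem_univ _, mem_univ _, hE, ?_, ?_, upd_self _ _ _⟩
    · rw [upd_ne (hne x)]; exact hx
    · rw [upd_ne (hne y)]; exact hy
  apply Set.Subset.antisymm
  · intro z hz
    rw [mem_Kc, SimpleGraph.reachable_iff_reflTransGen] at hz
    induction hz with
    | refl => exact Or.inl (self_mem_Kc _ _ _)
    | tail _ hab ih =>
      rename_i a b _
      obtain ⟨h1, h2, h3, h4, h5, h6, h7⟩ := hab
      rw [upd_ne (hne a)] at h5
      rw [upd_ne (hne b)] at h6
      by_cases hs : (Sum.inr s(a, b) : Ix n) = c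
      · rw [hc] at hs
        have hs' : s(a, b) = s(x, y) := Sum.inr.inj hs
        rw [Sym2.eq_iff] at hs'
        rcases hs' with ⟨_, rfl⟩ | ⟨_, rfl⟩
        · exact Or.inr (self_mem_Kc _ _ _)
        · exact Or.inl (self_mem_Kc _ _ _)
      · have hadj' : (G E (upd c false ω) univ).Adj a b := by
          refine ⟨h1, h2, h3, h4, ?_, ?_, ?_⟩
          · rw [upd_ne (hne a)]; exact h5
          · rw [upd_ne (hne b)]; exact h6
          · rw [upd_ne hs] at h7 ⊢; exact h7
        rcases ih with ih | ih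
        · exact Or.inl (SimpleGraph.Reachable.trans ih hadj'.reachable)
        · exact Or.inr (SimpleGraph.Reachable.trans ih hadj'.reachable)
  · rintro z (hz | hz)
    · exact Kc_mono (upd_mono c ω) x hz
    · exact hadj.reachable.trans (Kc_mono (upd_mono c ω) y hz)

/-- The contribution of the bond between `x` and `y`. -/
def Psi (E : Set (Sym2 (V n))) (N : ℕ) (x y : V n) (ω : Cfg n) : ℝ :=
  ind (ω (Sum.inl x) = true ∧ ω (Sum.inl y) = true) *
    (fN N (Kc E ω x) + ind (y ∉ Kc E ω x) * fN N (Kc E ω y))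

/-- `x` and `y` are open and in distinct clusters of size at least `N`. -/
def DD (E : Set (Sym2 (V n))) (N : ℕ) (x y : V n) : Set (Cfg n) :=
  {ω | ω (Sum.inl x) = true ∧ ω (Sum.inl y) = true ∧ y ∉ Kc E ω x ∧
    (N : ℕ∞) ≤ (Kc E ω x).encard ∧ (N : ℕ∞) ≤ (Kc E ω y).encard}

lemma meas_fN (N : ℕ) (E : Set (Sym2 (V n))) (x : V n) :
    Measurable (fun ω : Cfg n => fN N (Kc E ω x)) := by
  unfold fN
  exact ((measurable_from_top (f := fun k : ℕ => (k : ℝ))).comp
    (meas_ncard (fun y => meas_mem_Kc E x y))).mul (meas_gN N (fun y => meas_mem_Kc E x y))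

lemma meas_Psi (E : Set (Sym2 (V n))) (N : ℕ) (x y : V n) : Measurable (Psi E N x y) := by
  unfold Psi
  refine (meas_ind ?_).mul ((meas_fN N E x).add ((meas_ind ?_).mul (meas_fN N E y)))
  · exact (meas_co _).inter (meas_co _)
  · exact (meas_mem_Kc E x y).compl

lemma meas_DD (E : Set (Sym2 (V n))) (N : ℕ) (x y : V n) : MeasurableSet (DD E N x y) := by
  have : DD E N x y = ({ω | ω (Sum.inl x) = true} ∩ {ω | ω (Sum.inl y) = true}) ∩
      ({ω | y ∈ Kc E ω x}ᶜ ∩ (Big E N x ∩ Big E N y)) := by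
    ext ω
    simp only [DD, Big, mem_inter_iff, mem_compl_iff, mem_ofPred_eq, and_assoc]
  rw [this]
  exact ((meas_co _).inter (meas_co _)).inter
    ((meas_mem_Kc E x y).compl.inter ((meas_Big E N x).inter (meas_Big E N y)))

lemma Psi_nonneg (E : Set (Sym2 (V n))) (N : ℕ) (x y : V n) (ω : Cfg n) :
    0 ≤ Psi E N x y ω :=
  mul_nonneg (ind_nonneg _) (add_nonneg (fN_nonneg _ _)
    (mul_nonneg (ind_nonneg _) (fN_nonneg _ _)))

lemma Psi_le (E : Set (Sym2 (V n))) (N : ℕ) (x y : V n) (ω : Cfg n) : Psi E N x y ω ≤ 2 := by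
  unfold Psi
  have h1 := ind_le_one (ω (Sum.inl x) = true ∧ ω (Sum.inl y) = true)
  have h2 := ind_nonneg (ω (Sum.inl x) = true ∧ ω (Sum.inl y) = true)
  have h3 := ind_le_one (y ∉ Kc E ω x)
  have h4 := ind_nonneg (y ∉ Kc E ω x)
  have h5 := fN_le N (Kc E ω x)
  have h6 := fN_le N (Kc E ω y)
  have h7 := fN_nonneg N (Kc E ω x)
  have h8 := fN_nonneg N (Kc E ω y)
  have h9 : ind (y ∉ Kc E ω x) * fN N (Kc E ω y) ≤ 1 := by nlinarith
  have h10 : 0 ≤ ind (y ∉ Kc E ω x) * fN N (Kc E ω y) := mul_nonneg h4 h8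
  nlinarith

lemma min_ineq {a b : ℝ} (ha : 0 ≤ a) (hb : 0 ≤ b) :
    min (a + b) 1 ≤ min a 1 + min b 1 := by
  rcases le_total a 1 with h1 | h1 <;> rcases le_total b 1 with h2 | h2
  · rw [min_eq_left h1, min_eq_left h2]; exact min_le_left _ _
  · rw [min_eq_left h1, min_eq_right h2]; exact (min_le_right _ _).trans (by linarith)
  · rw [min_eq_right h1, min_eq_left h2]; exact (min_le_right _ _).trans (by linarith)
  · rw [min_eq_right h1, min_eq_right h2]; exact (min_le_right _ _).trans (by linarith)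

lemma Psi_diff {E : Set (Sym2 (V n))} {N : ℕ} (hN : 1 ≤ N) {x y : V n} (hxy : x ≠ y)
    (hE : s(x, y) ∈ E) {ω : Cfg n} (hfin : ∀ z, (Kc E ω z).Finite) :
    ind (ω ∈ DD E N x y) ≤ Psi E N x y (upd (Sum.inr s(x, y)) false ω) -
      Psi E N x y (upd (Sum.inr s(x, y)) true ω) := by
  set c : Ix n := Sum.inr s(x, y) with hc
  have hne : ∀ z : V n, (Sum.inl z : Ix n) ≠ c := fun z => by rw [hc]; exact Sum.inl_ne_inr
  have hN0 : (0 : ℝ) < N := by exact_mod_cast hN
  by_cases hop : ω (Sum.inl x) = true ∧ ω (Sum.inl y) = true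
  swap
  · have h1 : ω ∉ DD E N x y := fun h => hop ⟨h.1, h.2.1⟩
    have h2 : ∀ b, Psi E N x y (upd c b ω) = 0 := by
      intro b
      unfold Psi
      rw [upd_ne (hne x), upd_ne (hne y), ind_not_of hop, zero_mul]
    rw [ind_not_of h1, h2, h2, sub_zero]
  obtain ⟨hx, hy⟩ := hop
  have hP : ∀ b, Psi E N x y (upd c b ω) = fN N (Kc E (upd c b ω) x) +
      ind (y ∉ Kc E (upd c b ω) x) * fN N (Kc E (upd c b ω) y) := by
    intro b
    unfold Psi
    rw [upd_ne (hne x), upd_ne (hne y), ind_of ⟨hx, hy⟩, one_mul]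
  have hU := Kc_open hxy hE hx hy
  rw [← hc] at hU
  set X := Kc E (upd c false ω) x with hX
  set Y := Kc E (upd c false ω) y with hY
  have hXf : X.Finite := (hfin x).subset (Kc_mono (upd_false_le c ω) x)
  have hYf : Y.Finite := (hfin y).subset (Kc_mono (upd_false_le c ω) y)
  have hy1 : y ∈ Kc E (upd c true ω) x := by
    rw [hU]; exact Or.inr (self_mem_Kc _ _ _)
  rw [hP, hP, ind_not_of (not_not.2 hy1), zero_mul, add_zero, hU, ← hX, ← hY]
  by_cases hyX : y ∈ X
  · have hXY : Y = X := Kc_trans hyX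
    have h1 : ω ∉ DD E N x y := fun h => h.2.2.1 (Kc_mono (upd_false_le c ω) x hyX)
    rw [ind_not_of h1, ind_not_of (not_not.2 hyX), zero_mul, add_zero, hXY, union_self, sub_self]
  · have hdisj : Disjoint X Y := by
      rw [Set.disjoint_left]
      intro z hzX hzY
      apply hyX
      have h1 : Kc E (upd c false ω) z = Kc E (upd c false ω) x := Kc_trans hzX
      show y ∈ Kc E (upd c false ω) x
      rw [← h1]
      exact Kc_symm hzY
    have hX0 : X.ncard ≠ 0 := by
      have := (Set.ncard_pos hXf).2 ⟨x, self_mem_Kc _ _ _⟩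
      omega
    have hY0 : Y.ncard ≠ 0 := by
      have := (Set.ncard_pos hYf).2 ⟨y, self_mem_Kc _ _ _⟩
      omega
    have hcard : (X ∪ Y).ncard = X.ncard + Y.ncard := Set.ncard_union_eq hdisj hXf hYf
    have hU0 : (X ∪ Y).ncard ≠ 0 := by omega
    rw [ind_of hyX, one_mul, fN_eq N X hX0, fN_eq N Y hY0, fN_eq N _ hU0, hcard]
    have e1 : ((X.ncard + Y.ncard : ℕ) : ℝ) / N = (X.ncard : ℝ) / N + (Y.ncard : ℝ) / N := by
      push_cast; ring
    rw [e1]
    by_cases hD : ω ∈ DD E N x y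
    · rw [ind_of hD]
      have hcl : ω c = false := by
        by_contra hcon
        have hcon' : ω c = true := by simpa using hcon
        apply hD.2.2.1
        have hadj : (G E ω univ).Adj x y :=
          ⟨hxy, mem_univ _, mem_univ _, hE, hx, hy, hcon'⟩
        exact hadj.reachable
      have hω : upd c false ω = ω := upd_of hcl
      have h4 := hD.2.2.2.1
      have h5 := hD.2.2.2.2
      rw [← hω, ← hX, ← hXf.cast_ncard_eq] at h4
      rw [← hω, ← hY, ← hYf.cast_ncard_eq] at h5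
      have h4' : (N : ℝ) ≤ X.ncard := by exact_mod_cast h4
      have h5' : (N : ℝ) ≤ Y.ncard := by exact_mod_cast h5
      have h6 : 1 ≤ (X.ncard : ℝ) / N := (one_le_div hN0).2 h4'
      have h7 : 1 ≤ (Y.ncard : ℝ) / N := (one_le_div hN0).2 h5'
      rw [min_eq_right h6, min_eq_right h7]
      have := min_le_right ((X.ncard : ℝ) / N + (Y.ncard : ℝ) / N) 1
      linarith
    · rw [ind_not_of hD]
      have := min_ineq (a := (X.ncard : ℝ) / N) (b := (Y.ncard : ℝ) / N) (by positivity)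
        (by positivity)
      linarith

/-- The contribution of one bond is bounded below. -/
theorem edge_lower (r : Ix n → unitInterval) {E : Set (Sym2 (V n))} {N : ℕ} (hN : 1 ≤ N)
    {x y : V n} (hxy : x ≠ y) (hE : s(x, y) ∈ E)
    (hfin : ∀ᵐ ω ∂(pm r), ∀ z, (Kc E ω z).Finite) :
    (r (Sum.inr s(x, y)) : ℝ) * (1 - r (Sum.inr s(x, y))) * (pm r).real (DD E N x y) ≤
      ∫ ω, ((r (Sum.inr s(x, y)) : ℝ) - ind (ω (Sum.inr s(x, y)) = true)) *
        Psi E N x y ω ∂(pm r) := by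
  set c : Ix n := Sum.inr s(x, y) with hc
  have a0 : (0 : ℝ) ≤ r c := (r c).2.1
  have a1 : (r c : ℝ) ≤ 1 := (r c).2.2
  have mf : Measurable (fun ω : Cfg n => ((r c : ℝ) - ind (ω c = true)) * Psi E N x y ω) :=
    (measurable_const.sub (meas_ind (meas_co c))).mul (meas_Psi E N x y)
  have bf : ∀ ω : Cfg n, |((r c : ℝ) - ind (ω c = true)) * Psi E N x y ω| ≤ 2 := by
    intro ω
    rw [abs_mul]
    have h2 : |(r c : ℝ) - ind (ω c = true)| ≤ 1 := by
      rw [abs_le]
      have a3 := ind_nonneg (ω c = true)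
      have a4 := ind_le_one (ω c = true)
      constructor <;> linarith
    have h3 : |Psi E N x y ω| ≤ 2 := by
      rw [abs_of_nonneg (Psi_nonneg E N x y ω)]; exact Psi_le E N x y ω
    calc |(r c : ℝ) - ind (ω c = true)| * |Psi E N x y ω| ≤ 1 * 2 :=
          mul_le_mul h2 h3 (abs_nonneg _) zero_le_one
      _ = 2 := one_mul 2
  rw [int_split r c mf 2 bf]
  have e1 : ∀ ω : Cfg n, ((r c : ℝ) - ind (upd c true ω c = true)) * Psi E N x y (upd c true ω) =
      -(1 - (r c : ℝ)) * Psi E N x y (upd c true ω) := by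
    intro ω
    rw [upd_self, ind_of rfl]; ring
  have e0 : ∀ ω : Cfg n, ((r c : ℝ) - ind (upd c false ω c = true)) * Psi E N x y (upd c false ω) =
      (r c : ℝ) * Psi E N x y (upd c false ω) := by
    intro ω
    rw [upd_self, ind_not_of (by simp)]; ring
  simp_rw [e1, e0]
  rw [integral_const_mul, integral_const_mul]
  have ib : ∀ b, Integrable (fun ω => Psi E N x y (upd c b ω)) (pm r) := fun b =>
    int_bdd r ((meas_Psi E N x y).comp (measurable_upd c b)) 2 fun ω => by
      rw [abs_of_nonneg (Psi_nonneg E N x y _)]; exact Psi_le E N x y _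
  have key : (pm r).real (DD E N x y) ≤ ∫ ω, Psi E N x y (upd c false ω) ∂(pm r) -
      ∫ ω, Psi E N x y (upd c true ω) ∂(pm r) := by
    rw [← integral_sub (ib false) (ib true)]
    have h1 : (pm r).real (DD E N x y) = ∫ ω, ind (ω ∈ DD E N x y) ∂(pm r) :=
      (int_ind r (meas_DD E N x y)).symm
    rw [h1]
    refine integral_mono_ae ?_ ((ib false).sub (ib true)) ?_
    · refine int_bdd r (meas_ind (meas_DD E N x y)) 1 fun ω => ?_
      rw [abs_of_nonneg (ind_nonneg _)]
      exact ind_le_one _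
    · filter_upwards [hfin] with ω hω
      exact Psi_diff hN hxy hE hω
  have h2 := mul_le_mul_of_nonneg_left key
    (mul_nonneg a0 (by linarith : (0 : ℝ) ≤ 1 - r c))
  nlinarith [h2]

end

end Pool.Agent.Y990.PL
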