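import Pool.Agent.Y990.PL.Base

set_option autoImplicit false

open MeasureTheory Set

/-!
The second moment bound for the centred sum of a finite set of bonds touching a cluster.
-/

namespace Pool.Agent.Y990.PL

open Pool.Agent.W783.PC
open H974 (ind ind_of ind_not_of ind_nonneg ind_le_one ind_congr Ok Ex)

noncomputable section

variable {n : ℕ}

/-- The bond `c` has open end vertices, one of which is in `X`. -/
def tch (ω : Cfg n) (c : Ix n) (X : Set (V n)) : Prop :=
  ∃ e : Sym2 (V n), c = Sum.inr e ∧ (∀ x ∈ e, ω (Sum.inl x) = true) ∧ ∃ x ∈ e, x ∈ X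

lemma tch_mono {ω : Cfg n} {c : Ix n} {X Y : Set (V n)} (h : X ⊆ Y) (ht : tch ω c X) :
    tch ω c Y := by
  obtain ⟨e, h1, h2, x, h3, h4⟩ := ht
  exact ⟨e, h1, h2, x, h3, h h4⟩

/-- A finite set of bonds in which every vertex has total weight at most `v`. -/
structure Wgh (r : Ix n → unitInterval) (S : Finset (Ix n)) (v : ℝ) : Prop where
  bond : ∀ c ∈ S, ∃ e : Sym2 (V n), c = Sum.inr e
  nonneg : 0 ≤ v
  deg : ∀ x : V n, ∀ R : Finset (Ix n), R ⊆ S →
    (∀ c ∈ R, ∃ e : Sym2 (V n), c = Sum.inr e ∧ x ∈ e) → ∑ c ∈ R, (r c : ℝ) ≤ v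

lemma inl_not_mem {r : Ix n → unitInterval} {S : Finset (Ix n)} {v : ℝ} (h : Wgh r S v)
    (x : V n) : (Sum.inl x : Ix n) ∉ S := by
  intro hx
  obtain ⟨e, he⟩ := h.bond _ hx
  cases he

lemma put_inl {r : Ix n → unitInterval} {S : Finset (Ix n)} {v : ℝ} (h : Wgh r S v)
    (A : Finset (Ix n)) (ω : Cfg n) (x : V n) :
    put S A ω (Sum.inl x) = ω (Sum.inl x) := put_not (inl_not_mem h x)

lemma tch_put {r : Ix n → unitInterval} {S : Finset (Ix n)} {v : ℝ} (h : Wgh r S v)
    (A : Finset (Ix n)) (ω : Cfg n) (c : Ix n) (X : Set (V n)) :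
    tch (put S A ω) c X ↔ tch ω c X := by
  unfold tch
  simp only [put_inl h]

lemma put_le {S A B : Finset (Ix n)} (h : A ⊆ B) (ω : Cfg n) :
    ∀ c, put S A ω c = true → put S B ω c = true := by
  intro c hc
  by_cases hS : c ∈ S
  · rw [put_mem hS] at hc ⊢
    exact h hc
  · rw [put_not hS] at hc ⊢
    exact hc

lemma expl (r : Ix n → unitInterval) {S : Finset (Ix n)} {v : ℝ} (h : Wgh r S v)
    (E : Set (Sym2 (V n))) (u : V n) (ω : Cfg n) :
    Expl S (fun c => (r c : ℝ)) v (fun A => Kc E (put S A ω) u) (tch ω) := by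
  classical
  refine ⟨?_, ?_, ?_, ?_⟩
  · intro A B hAB
    exact Kc_mono (put_le hAB ω) u
  · intro e X Y hXY ht
    exact tch_mono hXY ht
  · intro A B hAB hBS hstop
    apply Set.Subset.antisymm
    · intro y hy
      rw [mem_Kc, SimpleGraph.reachable_iff_reflTransGen] at hy
      induction hy with
      | refl => exact self_mem_Kc _ _ _
      | tail _ hab ih =>
        rename_i a b _
        obtain ⟨h1, h2, h3, h4, h5, h6, h7⟩ := hab
        have hadj : (G E (put S A ω) univ).Adj a b := by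
          refine ⟨h1, h2, h3, h4, ?_, ?_, ?_⟩
          · rw [put_inl h] at h5 ⊢; exact h5
          · rw [put_inl h] at h6 ⊢; exact h6
          · by_cases hS : (Sum.inr s(a, b) : Ix n) ∈ S
            · rw [put_mem hS] at h7 ⊢
              by_contra hA
              apply hstop _ h7 hA
              refine ⟨s(a, b), rfl, ?_, a, Sym2.mem_mk_left a b, ih⟩
              intro x hx
              rw [Sym2.mem_iff] at hx
              rw [put_inl h] at h5 h6
              rcases hx with rfl | rfl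
              · exact h5
              · exact h6
            · rw [put_not hS] at h7 ⊢
              exact h7
        exact SimpleGraph.Reachable.trans ih hadj.reachable
    · exact Kc_mono (put_le hAB ω) u
  · intro A hAS hfin R hRS ht
    set X := hfin.toFinset with hX
    have h1 : ∑ c ∈ R, (r c : ℝ) ≤
        ∑ c ∈ R, ∑ x ∈ X, if (∃ e : Sym2 (V n), c = Sum.inr e ∧ x ∈ e) then (r c : ℝ) else 0 := by
      refine Finset.sum_le_sum fun c hc => ?_
      obtain ⟨e, he, _, x, hxe, hxX⟩ := ht c hc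
      have hx : x ∈ X := hfin.mem_toFinset.2 hxX
      have h2 := Finset.single_le_sum
        (f := fun x => if (∃ e : Sym2 (V n), c = Sum.inr e ∧ x ∈ e) then (r c : ℝ) else 0)
        (fun y _ => by
          split_ifs
          · exact (r c).2.1
          · exact le_rfl) hx
      rw [if_pos ⟨e, he, hxe⟩] at h2
      exact h2
    rw [Finset.sum_comm] at h1
    have h3 : ∀ x ∈ X, (∑ c ∈ R, if (∃ e : Sym2 (V n), c = Sum.inr e ∧ x ∈ e)
        then (r c : ℝ) else 0) ≤ v := by
      intro x _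
      rw [← Finset.sum_filter]
      refine h.deg x _ ((Finset.filter_subset _ _).trans hRS) ?_
      intro c hc
      rw [Finset.mem_filter] at hc
      exact hc.2
    have h4 := Finset.sum_le_sum h3
    rw [Finset.sum_const, nsmul_eq_mul] at h4
    have h5 : (Kc E (put S A ω) u).ncard = X.card := Set.ncard_eq_toFinset_card _ hfin
    show ∑ c ∈ R, (r c : ℝ) ≤ v * ((Kc E (put S A ω) u).ncard : ℝ)
    rw [h5, mul_comm]
    exact h1.trans h4

/-- The centred sum of the bonds of `S` touching the cluster of `u`. -/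
def Mt (r : Ix n → unitInterval) (E : Set (Sym2 (V n))) (S : Finset (Ix n)) (u : V n)
    (ω : Cfg n) : ℝ :=
  ∑ c ∈ S, ind (tch ω c (Kc E ω u)) * ((r c : ℝ) - ind (ω c = true))

lemma meas_ind {Ω : Type} [MeasurableSpace Ω] {P : Ω → Prop} (h : MeasurableSet {ω | P ω}) :
    Measurable (fun ω => ind (P ω)) := by
  classical
  have : (fun ω => ind (P ω)) = fun ω => if P ω then (1 : ℝ) else 0 := by
    funext ω
    by_cases hp : P ω
    · rw [if_pos hp, ind_of hp]
    · rw [if_neg hp, ind_not_of hp]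
  rw [this]
  exact Measurable.ite h measurable_const measurable_const

lemma meas_co (c : Ix n) : MeasurableSet {ω : Cfg n | ω c = true} :=
  Pool.Agent.W975.PC.meas_coord c

lemma meas_tch (E : Set (Sym2 (V n))) (c : Ix n) (u : V n) :
    MeasurableSet {ω : Cfg n | tch ω c (Kc E ω u)} := by
  have : {ω : Cfg n | tch ω c (Kc E ω u)} = ⋃ e : Sym2 (V n), ⋃ (_ : c = Sum.inr e),
      ((⋂ x : V n, ⋂ (_ : x ∈ e), {ω | ω (Sum.inl x) = true}) ∩
        ⋃ x : V n, ⋃ (_ : x ∈ e), {ω | x ∈ Kc E ω u}) := by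
    ext ω
    simp only [tch, mem_setOf_eq, mem_iUnion, mem_inter_iff, mem_iInter, exists_prop]
  rw [this]
  refine MeasurableSet.iUnion fun e => MeasurableSet.iUnion fun _ => ?_
  refine MeasurableSet.inter ?_ ?_
  · exact MeasurableSet.iInter fun x => MeasurableSet.iInter fun _ => meas_co _
  · exact MeasurableSet.iUnion fun x => MeasurableSet.iUnion fun _ => meas_mem_Kc E u x

lemma meas_Mt (r : Ix n → unitInterval) (E : Set (Sym2 (V n))) (S : Finset (Ix n)) (u : V n) :
    Measurable (Mt r E S u) := by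
  unfold Mt
  refine Finset.measurable_sum _ fun c _ => ?_
  exact (meas_ind (meas_tch E c u)).mul (measurable_const.sub (meas_ind (meas_co c)))

lemma Mt_bdd (r : Ix n → unitInterval) (E : Set (Sym2 (V n))) (S : Finset (Ix n)) (u : V n)
    (ω : Cfg n) : |Mt r E S u ω| ≤ S.card := by
  unfold Mt
  refine (Finset.abs_sum_le_sum_abs _ _).trans ?_
  have : ∀ c ∈ S, |ind (tch ω c (Kc E ω u)) * ((r c : ℝ) - ind (ω c = true))| ≤ 1 := by
    intro c _
    rw [abs_mul]
    have h1 : |ind (tch ω c (Kc E ω u))| ≤ 1 := by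
      rw [abs_of_nonneg (ind_nonneg _)]; exact ind_le_one _
    have h2 : |(r c : ℝ) - ind (ω c = true)| ≤ 1 := by
      rw [abs_le]
      have a1 := (r c).2.1
      have a2 := (r c).2.2
      have a3 := ind_nonneg (ω c = true)
      have a4 := ind_le_one (ω c = true)
      constructor <;> linarith
    calc |ind (tch ω c (Kc E ω u))| * |(r c : ℝ) - ind (ω c = true)|
        ≤ 1 * 1 := mul_le_mul h1 h2 (abs_nonneg _) zero_le_one
      _ = 1 := one_mul 1
  have h2 := Finset.sum_le_sum this
  rw [Finset.sum_const, nsmul_eq_mul, mul_one] at h2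
  exact h2

/-- Second moment bound. -/
theorem sm (r : Ix n → unitInterval) (E : Set (Sym2 (V n))) {S : Finset (Ix n)} {v : ℝ}
    (h : Wgh r S v) (u : V n) (T : ℕ) :
    ∫ ω, ind ((Kc E ω u).encard < T) * (Mt r E S u ω) ^ 2 ∂(pm r) ≤
      v * ∫ ω, (sz T (Kc E ω u) : ℝ) ∂(pm r) := by
  classical
  have hok : Ok (fun c => (r c : ℝ)) := fun c => ⟨(r c).2.1, (r c).2.2⟩
  have m1 : Measurable (fun ω : Cfg n => ind ((Kc E ω u).encard < T) * (Mt r E S u ω) ^ 2) := by
    refine Measurable.mul (meas_ind ?_) ((meas_Mt r E S u).pow_const 2)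
    have : {ω : Cfg n | (Kc E ω u).encard < T} = (Big E T u)ᶜ := by
      ext ω
      simp [Big]
    rw [this]
    exact (meas_Big E T u).compl
  have b1 : ∀ ω : Cfg n, |ind ((Kc E ω u).encard < T) * (Mt r E S u ω) ^ 2| ≤
      (S.card : ℝ) ^ 2 := by
    intro ω
    rw [abs_mul, abs_of_nonneg (ind_nonneg _), abs_of_nonneg (sq_nonneg _)]
    have h1 := ind_le_one ((Kc E ω u).encard < T)
    have h2 : (Mt r E S u ω) ^ 2 ≤ (S.card : ℝ) ^ 2 := by
      rw [← sq_abs]
      exact pow_le_pow_left₀ (abs_nonneg _) (Mt_bdd r E S u ω) 2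
    calc ind ((Kc E ω u).encard < T) * (Mt r E S u ω) ^ 2
        ≤ 1 * (Mt r E S u ω) ^ 2 := mul_le_mul_of_nonneg_right h1 (sq_nonneg _)
      _ ≤ _ := by rw [one_mul]; exact h2
  have m2 : Measurable (fun ω : Cfg n => (sz T (Kc E ω u) : ℝ)) :=
    (measurable_from_top (f := fun k : ℕ => (k : ℝ))).comp
      (meas_sz (fun y => meas_mem_Kc E u y) T)
  have b2 : ∀ ω : Cfg n, |(sz T (Kc E ω u) : ℝ)| ≤ T := by
    intro ω
    rw [abs_of_nonneg (Nat.cast_nonneg _)]
    exact_mod_cast sz_le T _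
  rw [int_resample r S m1 _ b1, int_resample r S m2 _ b2, ← integral_const_mul]
  have key : ∀ ω : Cfg n, Ex (fun c => (r c : ℝ)) S (fun A =>
      ind ((Kc E (put S A ω) u).encard < T) * (Mt r E S u (put S A ω)) ^ 2) ≤
      v * Ex (fun c => (r c : ℝ)) S (fun A => (sz T (Kc E (put S A ω) u) : ℝ)) := by
    intro ω
    have h1 := secmom hok (expl r h E u ω) h.nonneg T
    refine le_trans (le_of_eq ?_) h1
    apply H974.Ex_congr
    intro A hA
    congr 2
    unfold Mt
    refine Finset.sum_congr rfl fun c hc => ?_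
    have h2 : ind (tch (put S A ω) c (Kc E (put S A ω) u)) =
        ind (tch ω c (Kc E (put S A ω) u)) := ind_congr (tch_put h A ω c _)
    have h3 : ind (put S A ω c = true) = ind (c ∈ A) := ind_congr (put_mem hc)
    rw [h2, h3]
  refine integral_mono ?_ ?_ key
  · exact int_bdd r (measurable_Ex _ m1 S) _ (fun ω => Ex_bdd hok fun A => b1 _)
  · exact (int_bdd r (measurable_Ex _ m2 S) _ (fun ω => Ex_bdd hok fun A => b2 _)).const_mul _

end

end Pool.Agent.Y990.PL
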