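import Pool.Agent.Y990.PL.Win
import Pool.Agent.W783.Perc.Fin

set_option autoImplicit false

open MeasureTheory Set Filter
open scoped Topology

/-!
All bounds at the critical point, site percolation.
-/

namespace Pool.Agent.Y990.PL

open Pool.Agent.W783.PC

noncomputable section

variable {n : ℕ}

/-- Tail for every start vertex. -/
lemma tail_all {m : ℕ} (hm : 1 ≤ m) {a p : unitInterval} {β : NNReal} {s κ C0 : ℝ}
    (ha : 0 < (a : ℝ)) (hp : 0 < (p : ℝ)) (hC0 : 0 < C0)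
    (h : ∀ N : ℕ, 1 ≤ N → (pm (prob (n := n) a p β s m)).real (Big (EdI m) N 0) ≤
      C0 * (N : ℝ) ^ (-κ)) : ∃ C : ℝ, 1 ≤ C ∧ ∀ (x : V n) (N : ℕ), 1 ≤ N →
    (pm (prob (n := n) a p β s m)).real (Big (EdI m) N x) ≤ C * (N : ℝ) ^ (-κ) := by
  obtain ⟨c1, h1, h2, h3⟩ := compare_all (n := n) hm (lt_min ha hp)
  refine ⟨max (C0 * c1⁻¹) 1, le_max_right _ _, fun x N hN => ?_⟩
  have h4 := h3 a p β s (min_le_left _ _) (min_le_right _ _) x N
  have h5 := h N hN
  have hN0 : (0 : ℝ) ≤ (N : ℝ) ^ (-κ) := by positivity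
  have h6 : (pm (prob (n := n) a p β s m)).real (Big (EdI m) N x) ≤
      c1⁻¹ * (C0 * (N : ℝ) ^ (-κ)) := by
    rw [le_inv_mul_iff₀ h1]; linarith
  calc (pm (prob (n := n) a p β s m)).real (Big (EdI m) N x)
      ≤ c1⁻¹ * (C0 * (N : ℝ) ^ (-κ)) := h6
    _ = (C0 * c1⁻¹) * (N : ℝ) ^ (-κ) := by ring
    _ ≤ _ := mul_le_mul_of_nonneg_right (le_max_left _ _) hN0

/-- The mean number of points of a finite set in a cluster. -/
lemma set_all {a p : unitInterval} {β : NNReal} {s : ℝ} {m : ℕ} (hs : 1 < s) (hs2 : s < 2)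
    (ha : 0 < (a : ℝ)) {A : ℝ} (hA : 1 ≤ A)
    (h : ∀ (x : V n) (N : ℕ), 1 ≤ N → (pm (prob (n := n) a p β s m)).real
      (Big (EdI m) N x) ≤ A * (N : ℝ) ^ (-((2 - s) / (1 + s)))) :
    ∃ C : ℝ, 0 < C ∧ ∀ (x : V n) (L : Finset (V n)),
      ∑ y ∈ L, (pm (prob (n := n) a p β s m)).real {ω | y ∈ Kc (EdI m) ω x} ≤
        C * (L.card : ℝ) ^ ((2 * s - 1) / 3) := by
  classical
  set κ : ℝ := (2 - s) / (1 + s) with hκ
  have h0 : 0 < κ := div_pos (by linarith) (by linarith)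
  have h1 : κ < 1 / 2 := by
    rw [hκ, div_lt_div_iff₀ (by linarith) (by norm_num)]
    linarith
  obtain ⟨C, hC, hL⟩ := Pool.Agent.Y686.PL.line Pool.Agent.Y288.PL.tight (a : ℝ) κ ha a.2.2 h0 h1
  have he : (1 - κ) / (1 + κ) = (2 * s - 1) / 3 := by
    rw [hκ]
    have : (1 + s) ≠ 0 := by linarith
    field_simp
    ring
  have hA0 : 0 < A := by linarith
  have he0 : 0 < (2 * s - 1) / 3 := by linarith
  refine ⟨C * A * (A * 2) ^ ((2 * s - 1) / 3), by positivity, fun x L => ?_⟩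
  rcases L.eq_empty_or_nonempty with rfl | hne
  · rw [Finset.sum_empty]
    positivity
  · have hc1 : (1 : ℝ) ≤ L.card := by exact_mod_cast hne.card_pos
    have h2 := hL n (prob (n := n) a p β s m) (EdI m) (insert x L) A (fun _ => le_rfl) hA
      (fun y _ t ht => h y t ht) x (Finset.mem_insert_self _ _)
    rw [he] at h2
    have h3 : ((insert x L).card : ℝ) ≤ 2 * L.card := by
      have := Finset.card_insert_le x L
      have h4 : ((insert x L).card : ℝ) ≤ L.card + 1 := by exact_mod_cast this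
      linarith
    calc ∑ y ∈ L, (pm (prob (n := n) a p β s m)).real {ω | y ∈ Kc (EdI m) ω x}
        ≤ ∑ y ∈ insert x L, (pm (prob (n := n) a p β s m)).real {ω | y ∈ Kc (EdI m) ω x} :=
          Finset.sum_le_sum_of_subset_of_nonneg (Finset.subset_insert _ _)
            fun _ _ _ => measureReal_nonneg
      _ ≤ C * A * (A * (insert x L).card) ^ ((2 * s - 1) / 3) := h2
      _ ≤ C * A * (A * (2 * L.card)) ^ ((2 * s - 1) / 3) := by
          refine mul_le_mul_of_nonneg_left ?_ (by positivity)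
          exact Real.rpow_le_rpow (by positivity) (mul_le_mul_of_nonneg_left h3 hA0.le) he0.le
      _ = C * A * (A * 2) ^ ((2 * s - 1) / 3) * (L.card : ℝ) ^ ((2 * s - 1) / 3) := by
          rw [← mul_assoc A 2, Real.mul_rpow (by positivity) (by positivity)]
          ring

/-- Site percolation: everything at the critical point. -/
theorem siteAll (hsec : S_secA) (hgron : S_gron) (hn : 1 ≤ n) {m : ℕ} (hm : 1 ≤ m) {s : ℝ}
    (hs : 1 < s) (hs2 : s < 2) {β : NNReal} (hβ : 0 < β) :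
    0 < acS n m s β ∧ acS n m s β < 1 ∧ ∃ C : ℝ,
      (∀ (x : V n) (N : ℕ), 1 ≤ N → (pm (prob (n := n) (acS n m s β) 1 β s m)).real
        {ω | (N : ℕ∞) ≤ (cl (EdI m) ω univ x).encard} ≤
          C * (N : ℝ) ^ (-((2 - s) / (1 + s)))) ∧
      (∀ (x : V n) (L : Finset (V n)), ∑ y ∈ L,
        (pm (prob (n := n) (acS n m s β) 1 β s m)).real
          {ω | (G (EdI m) ω univ).Reachable x y} ≤ C * (L.card : ℝ) ^ ((2 * s - 1) / 3)) ∧
      (∀ a : unitInterval, acS n m s β ≤ a → theta n a 1 β s m ≤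
        C * ((a : ℝ) - acS n m s β) ^ (2 * (2 - s) / (1 + s))) := by
  have hpos : (0 : ℝ) < acS n m s β := acS_pos hs β
  have hlt : ((acS n m s β : unitInterval) : ℝ) < 1 := acS_lt_one hn m s β
  obtain ⟨C0, hC0, hT⟩ := powerS (n := n) hn hm hs hs2 hβ
  obtain ⟨C1, hC1, hT1⟩ := tail_all (n := n) hm (a := acS n m s β) (p := 1) hpos (by simp) hC0 hT
  obtain ⟨C2, hC2, hT2⟩ := set_all (n := n) (a := acS n m s β) (p := 1) (β := β) (m := m) hs hs2
    hpos hC1 hT1
  set κ : ℝ := (2 - s) / (1 + s) with hκ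
  have h0 : 0 < κ := div_pos (by linarith) (by linarith)
  have h1 : κ < 1 / 2 := by
    rw [hκ, div_lt_div_iff₀ (by linarith) (by norm_num)]
    linarith
  have hcut : cut ((acS n m s β : unitInterval) : ℝ) = acS n m s β := by
    unfold cut
    exact Set.projIcc_val zero_le_one _
  obtain ⟨c, hc, hw⟩ := window (n := n) hsec hgron (m := m) (s := s) β h0 h1 hpos
    (b := (1 + ((acS n m s β : unitInterval) : ℝ)) / 2) (by linarith)
  have hT' : ∀ N : ℕ, 1 ≤ N → (pm (prob (n := n) (cut ((acS n m s β : unitInterval) : ℝ)) 1 β s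
      m)).real (Big (EdI m) N 0) ≤ C0 * (N : ℝ) ^ (-κ) := by
    intro N hN
    rw [hcut]
    exact hT N hN
  obtain ⟨C3, hC3, hT3⟩ := hoelder (n := n) (m := m) (s := s) (β := β) h0 hlt hc hC0 hT'
    (hw C0 hC0 hT')
  have hmax1 : C1 ≤ max C1 (max C2 C3) := le_max_left _ _
  have hmax2 : C2 ≤ max C1 (max C2 C3) := (le_max_left _ _).trans (le_max_right _ _)
  have hmax3 : C3 ≤ max C1 (max C2 C3) := (le_max_right _ _).trans (le_max_right _ _)
  refine ⟨acS_pos hs β, hlt, max C1 (max C2 C3), ?_, ?_, ?_⟩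
  · intro x N hN
    exact (hT1 x N hN).trans (mul_le_mul_of_nonneg_right hmax1 (by positivity))
  · intro x L
    exact (hT2 x L).trans (mul_le_mul_of_nonneg_right hmax2 (by positivity))
  · intro a ha
    have ha' : ((acS n m s β : unitInterval) : ℝ) ≤ a := ha
    have h2 := hT3 a ha'
    have h3 : 2 * (2 - s) / (1 + s) = 2 * κ := by rw [hκ]; ring
    rw [h3]
    refine h2.trans (mul_le_mul_of_nonneg_right hmax3 ?_)
    exact Real.rpow_nonneg (by linarith) _

end

end Pool.Agent.Y990.PL
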