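import Pool.Agent.Y990.PL.FinS

set_option autoImplicit false

open MeasureTheory Set Filter
open scoped Topology

/-!
The power-law bound at the critical point, bond percolation.
-/

namespace Pool.Agent.Y990.PL

open Pool.Agent.W783.PC

noncomputable section

variable {n : ℕ}

lemma pe_val (x : NNReal) : (pe x : ℝ) = 1 - Real.exp (-(x : ℝ)) := rfl

/-- The power-law bound at criticality, bond percolation. -/
theorem powerB {m : ℕ} (hn : 1 ≤ n) (hm : 1 ≤ m) {s : ℝ}
    (hs : 1 < s) (hs2 : s < 2) {β : NNReal} (hβ : 0 < β) (hpc : 0 < pcB n m s β) :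
    ∃ C : ℝ, 0 < C ∧ ∀ N : ℕ, 1 ≤ N →
      (pm (prob (n := n) 1 (pcB n m s β) β s m)).real (Big (EdI m) N 0) ≤
        C * (N : ℝ) ^ (-((2 - s) / (1 + s))) := by
  have hline : S_line := Pool.Agent.Y686.PL.line Pool.Agent.Y288.PL.tight
  have hsh : S_sharpB := Pool.Agent.Y641.PL.sharpB
  set pc : unitInterval := pcB n m s β with hpcd
  have hpos : (0 : ℝ) < pc := hpc
  have hlt1 : (pc : ℝ) < 1 := pcB_lt_one hn m s β
  -- the critical value of `x`
  set x0 : ℝ := -Real.log (1 - pc) with hx0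
  have hx0p : 0 < x0 := by
    rw [hx0, neg_pos]
    exact Real.log_neg (by linarith) (by linarith)
  have hex0 : Real.exp (-x0) = 1 - pc := by
    rw [hx0, neg_neg, Real.exp_log (by linarith)]
  have hβ' : (0 : ℝ) < β := hβ
  set b : NNReal := ⟨(β : ℝ) / x0, by positivity⟩ with hb
  have hbv : (b : ℝ) = (β : ℝ) / x0 := rfl
  set y2 : NNReal := ⟨x0 / 2, by positivity⟩ with hy2
  obtain ⟨C, hC, hU⟩ := unif (n := n) hline hm hs hs2 (c0 := (pe y2 : ℝ)) (β0 := β / 2)
    (β1 := β) (by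
      rw [pe_val]
      have : Real.exp (-(y2 : ℝ)) < 1 := Real.exp_lt_one_iff.2 (by
        show -(x0 / 2) < 0
        linarith)
      linarith) (pe y2).2.2 (by positivity) (by linarith)
  refine ⟨C, hC, fun N hN => ?_⟩
  refine lim_tail _ _ _ _ fun δ hδ => ?_
  set D : ℝ := max 1 (b : ℝ) with hD
  have hD1 : 1 ≤ D := le_max_left _ _
  have hDb : (b : ℝ) ≤ D := le_max_right _ _
  have hD0 : 0 < D := by linarith
  set y : ℝ := max (x0 - δ / D) (x0 / 2) with hy
  have hδD : 0 < δ / D := by positivity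
  have hy1 : y < x0 := max_lt (by linarith) (by linarith)
  have hyl : x0 / 2 ≤ y := le_max_right _ _
  have hyr : x0 - δ / D ≤ y := le_max_left _ _
  have hy0 : 0 < y := by linarith
  set x1 : NNReal := ⟨y, hy0.le⟩ with hx1
  have hx1v : (x1 : ℝ) = y := rfl
  set z : ℝ := (y + x0) / 2 with hz
  have hz0 : 0 < z := by linarith
  set x2 : NNReal := ⟨z, hz0.le⟩ with hx2
  have hx2v : (x2 : ℝ) = z := rfl
  have h12 : x1 < x2 := by
    show y < z
    linarith
  -- no percolation at `x2`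
  have hpe2 : (pe x2 : ℝ) < pc := by
    rw [pe_val, hx2v]
    have : Real.exp (-x0) < Real.exp (-z) := Real.exp_lt_exp.2 (by linarith)
    linarith
  have hpe2p : (0 : ℝ) < pe x2 := by
    rw [pe_val, hx2v]
    have : Real.exp (-z) < 1 := Real.exp_lt_one_iff.2 (by linarith)
    linarith
  have hb2 : x2 * b ≤ β := by
    show (x2 : ℝ) * (b : ℝ) ≤ β
    rw [hx2v, hbv, mul_div_assoc', div_le_iff₀ hx0p]
    nlinarith
  obtain ⟨q, hq1, _, hq3⟩ := exists_of_lt_crit (f := fun p => theta n 1 p β s m)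
    (pe x2).2.1 (show (pe x2 : ℝ) < (crit (fun p => theta n 1 p β s m) : ℝ) from hpe2)
  have hle : pe x2 ≤ q := by
    show (pe x2 : ℝ) ≤ q
    exact hq1.le
  have hth : theta n 1 (pe x2) (x2 * b) s m = 0 := by
    have h1 := theta_mono (n := n) (le_refl (1 : unitInterval)) hle hb2 s m
    have h2 : theta n 1 q β s m = 0 := hq3
    rw [h2] at h1
    exact le_antisymm h1 (theta_nonneg _ _ _ _ _)
  have hperc := perc_all_zero (n := n) (m := m) (s := s) (by simp) hpe2p hth
  -- the parameters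
  have hxb : |(β : ℝ) - (x1 * b : NNReal)| ≤ δ := by
    have e1 : ((x1 * b : NNReal) : ℝ) = y * b := by
      rw [NNReal.coe_mul, hx1v]
    have e2 : (β : ℝ) = x0 * b := by
      rw [hbv]; field_simp
    have e3 : 0 ≤ (x0 - y) * (b : ℝ) := mul_nonneg (by linarith) b.2
    rw [e1, e2, ← sub_mul, abs_of_nonneg e3]
    calc (x0 - y) * (b : ℝ) ≤ (δ / D) * D :=
          mul_le_mul (by linarith) hDb b.2 hδD.le
      _ = δ := by field_simp
  have hpx : |(pc : ℝ) - pe x1| ≤ δ := by
    have e1 : (pc : ℝ) = 1 - Real.exp (-x0) := by linarith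
    rw [e1, pe_val, hx1v, show (1 - Real.exp (-x0)) - (1 - Real.exp (-y)) =
      Real.exp (-y) - Real.exp (-x0) by ring]
    refine (exp_diff hy0.le hx0p.le).trans ?_
    rw [abs_sub_comm, abs_of_nonneg (by linarith)]
    have : δ / D ≤ δ := by
      rw [div_le_iff₀ hD0]
      nlinarith
    linarith
  refine ⟨prob 1 (pe x1) (x1 * b) s m, fun c => ?_, ?_⟩
  · rw [abs_sub_comm]
    exact prob_diff hδ.le (by linarith) m (by simpa using hδ.le) (by rwa [abs_sub_comm])
      (by rwa [abs_sub_comm]) c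
  · refine hU 1 (pe x1) (x1 * b) (pe y2).2.2 ?_ ?_ ?_ (tail hm fun v => ?_) N hN
    · rw [pe_val, pe_val]
      have : Real.exp (-(x1 : ℝ)) ≤ Real.exp (-(y2 : ℝ)) := Real.exp_le_exp.2 (by
        show -y ≤ -(x0 / 2)
        linarith)
      linarith
    · rw [NNReal.coe_mul, hx1v, hbv, mul_div_assoc', le_div_iff₀ hx0p]
      nlinarith
    · rw [NNReal.coe_mul, hx1v, hbv, mul_div_assoc', div_le_iff₀ hx0p]
      nlinarith
    · exact hsh n m s b x1 x2 v h12 (hperc v)

end

end Pool.Agent.Y990.PL
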