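import Pool.Agent.Y990.PL.Unif
import Pool.Agent.W783.Perc.CritS
import Pool.Agent.Y641.PL.Sharp
import Pool.Agent.Y288.PL.Tight
import Pool.Agent.Y686.PL.Line

set_option autoImplicit false

open MeasureTheory Set Filter
open scoped Topology

/-!
The power-law bound at the critical point, site percolation.
-/

namespace Pool.Agent.Y990.PL

open Pool.Agent.W783.PC

noncomputable section

variable {n : ℕ}

/-- No percolation at the origin implies no percolation anywhere. -/
lemma perc_all_zero {a p : unitInterval} {β : NNReal} {s : ℝ} {m : ℕ} (ha : 0 < (a : ℝ))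
    (hp : 0 < (p : ℝ)) (h : theta n a p β s m = 0) (x : V n) :
    (pm (prob (n := n) a p β s m)).real (Perc (EdI m) x) = 0 := by
  by_contra hc
  have h1 : 0 < (pm (prob (n := n) a p β s m)).real (Perc (EdI m) x) :=
    lt_of_le_of_ne measureReal_nonneg (Ne.symm hc)
  have h2 : 0 < (pm (prob (n := n) a p β s m)).real {ω | ∃ x, ω ∈ Perc (EdI m) x} :=
    lt_of_lt_of_le h1 (measureReal_mono (fun ω hω => ⟨x, hω⟩) (measure_ne_top _ _))
  have h3 := pos_origin (NN_EdI m) _ (fun _ => ha) (fun e he => by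
    rw [prob_nn _ _ _ _ _ he]; exact hp) h2
  exact h3.ne' h

/-- The power-law bound at criticality, site percolation. -/
theorem powerS {m : ℕ} (hn : 1 ≤ n) (hm : 1 ≤ m) {s : ℝ}
    (hs : 1 < s) (hs2 : s < 2) {β : NNReal} (hβ : 0 < β) :
    ∃ C : ℝ, 0 < C ∧ ∀ N : ℕ, 1 ≤ N →
      (pm (prob (n := n) (acS n m s β) 1 β s m)).real (Big (EdI m) N 0) ≤
        C * (N : ℝ) ^ (-((2 - s) / (1 + s))) := by
  have hline : S_line := Pool.Agent.Y686.PL.line Pool.Agent.Y288.PL.tight
  have hsh : S_sharpS := Pool.Agent.Y641.PL.sharpS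
  have hpos : (0 : ℝ) < acS n m s β := acS_pos hs β
  set ac : ℝ := ((acS n m s β : unitInterval) : ℝ) with hac
  have hac1 : ac ≤ 1 := (acS n m s β).2.2
  obtain ⟨C, hC, hU⟩ := unif (n := n) hline hm hs hs2 (c0 := ac / 2) (β0 := β) (β1 := β)
    (by linarith) (by linarith) hβ le_rfl
  refine ⟨C, hC, fun N hN => ?_⟩
  refine lim_tail _ _ _ _ fun δ hδ => ?_
  set y : ℝ := max (ac - δ) (ac / 2) with hy
  have hy1 : y < ac := max_lt (by linarith) (by linarith)
  have hy2 : ac / 2 ≤ y := le_max_right _ _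
  have hy3 : ac - δ ≤ y := le_max_left _ _
  have hy0 : 0 < y := by linarith
  set a1 : unitInterval := ⟨y, hy0.le, by linarith⟩ with ha1
  obtain ⟨q, hq1, hq2, hq3⟩ := exists_of_lt_crit (f := fun a => theta n a 1 β s m) hy0.le
    (show y < (crit (fun a => theta n a 1 β s m) : ℝ) from hy1)
  have hlt : a1 < q := hq1
  have hq0 : (0 : ℝ) < q := lt_trans hy0 hq1
  refine ⟨prob a1 1 β s m, fun c => ?_, ?_⟩
  · rcases c with v | e
    · show |(acS n m s β : ℝ) - y| ≤ δ
      rw [abs_of_nonneg (by linarith)]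
      linarith
    · have : (prob (acS n m s β) 1 β s m (Sum.inr e : Ix n) : ℝ) =
          prob a1 1 β s m (Sum.inr e : Ix n) := rfl
      rw [this, sub_self, abs_zero]
      exact hδ.le
  · refine hU a1 1 β hy2 (by
      show ac / 2 ≤ 1
      linarith) le_rfl le_rfl (tail hm fun x0 => ?_) N hN
    exact hsh n m s β a1 q x0 hlt (perc_all_zero hq0 (by simp) hq3 x0)

end

end Pool.Agent.Y990.PL
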