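import Pool.Agent.Y990.PL.MTP
import Pool.Agent.W783.Perc.Open
import Pool.Agent.W333.PC.Harris

set_option autoImplicit false

open MeasureTheory Set Filter
open scoped Topology

/-!
Exhaustion by finite regions; Harris inequality for clusters; comparison of start vertices.
-/

namespace Pool.Agent.Y990.PL

open Pool.Agent.W783.PC
open H974 (ind ind_of ind_not_of ind_nonneg ind_le_one ind_congr Ok Ex)

noncomputable section

variable {n : ℕ}

/-- The exhausting boxes. -/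
def Rg (n k : ℕ) : Set (V n) := CB k k

lemma Rg_fin (k : ℕ) : (Rg n k).Finite := Pool.Agent.W230.PCBig.CB_finite k k

lemma Rg_mono {k l : ℕ} (h : k ≤ l) : Rg n k ⊆ Rg n l := Pool.Agent.W230.PCBig.CB_mono h h

lemma Rg_mem (x : V n) : ∃ k, x ∈ Rg n k := by
  refine ⟨x.1.natAbs + ∑ i, (x.2 i).natAbs, ?_, fun i => ?_⟩
  · rw [Int.abs_eq_natAbs]
    have h2 : x.1.natAbs ≤ x.1.natAbs + ∑ i, (x.2 i).natAbs := Nat.le_add_right _ _
    exact_mod_cast h2
  · rw [Int.abs_eq_natAbs]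
    have h : (x.2 i).natAbs ≤ ∑ i, (x.2 i).natAbs :=
      Finset.single_le_sum (f := fun i => (x.2 i).natAbs) (fun i _ => Nat.zero_le _)
        (Finset.mem_univ i)
    have h2 : (x.2 i).natAbs ≤ x.1.natAbs + ∑ i, (x.2 i).natAbs := by omega
    exact_mod_cast h2

lemma cl_monoR {E : Set (Sym2 (V n))} {ω : Cfg n} {R R' : Set (V n)} (h : R ⊆ R') (x : V n) :
    cl E ω R x ⊆ cl E ω R' x := fun _ hy =>
  SimpleGraph.Reachable.mono (Pool.Agent.W230.PCBig.G_mono h) hy

lemma Kc_exh {E : Set (Sym2 (V n))} {ω : Cfg n} {x y : V n} (h : y ∈ Kc E ω x) :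
    ∃ k, y ∈ cl E ω (Rg n k) x := by
  rw [mem_Kc, SimpleGraph.reachable_iff_reflTransGen] at h
  induction h with
  | refl => exact ⟨0, SimpleGraph.Reachable.refl _⟩
  | tail _ hab ih =>
    rename_i a b _
    obtain ⟨k, hk⟩ := ih
    obtain ⟨ka, hka⟩ := Rg_mem a
    obtain ⟨kb, hkb⟩ := Rg_mem b
    obtain ⟨h1, h2, h3, h4, h5⟩ := hab
    refine ⟨max k (max ka kb), ?_⟩
    have ha : a ∈ Rg n (max k (max ka kb)) :=
      Rg_mono ((le_max_left _ _).trans (le_max_right _ _)) hka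
    have hb : b ∈ Rg n (max k (max ka kb)) :=
      Rg_mono ((le_max_right _ _).trans (le_max_right _ _)) hkb
    have hr : (G E ω (Rg n (max k (max ka kb)))).Reachable x a :=
      cl_monoR (Rg_mono (le_max_left _ _)) x hk
    have hadj : (G E ω (Rg n (max k (max ka kb)))).Adj a b := ⟨h1, ha, hb, h4, h5⟩
    exact hr.trans hadj.reachable

/-- The cluster of `x` inside the box has at least `t` vertices. -/
def BigR (E : Set (Sym2 (V n))) (k t : ℕ) (x : V n) : Set (Cfg n) :=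
  {ω | (t : ℕ∞) ≤ (cl E ω (Rg n k) x).encard}

lemma BigR_mono (E : Set (Sym2 (V n))) (t : ℕ) (x : V n) : Monotone (fun k => BigR E k t x) := by
  intro k l h ω hω
  exact le_trans hω (Set.encard_le_encard (cl_monoR (Rg_mono h) x))

lemma Big_iUnion (E : Set (Sym2 (V n))) (t : ℕ) (x : V n) :
    Big E t x = ⋃ k, BigR E k t x := by
  apply Set.Subset.antisymm
  · intro ω hω
    obtain ⟨X, hX, hXt⟩ := Set.exists_subset_encard_eq (show (t : ℕ∞) ≤ (Kc E ω x).encard from hω)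
    have hfin : X.Finite := Set.finite_of_encard_eq_coe hXt
    have h1 : ∀ y ∈ X, ∃ k, y ∈ cl E ω (Rg n k) x := fun y hy => Kc_exh (hX hy)
    choose! f hf using h1
    obtain ⟨K, hK⟩ := (hfin.image f).bddAbove
    rw [mem_iUnion]
    refine ⟨K, ?_⟩
    show (t : ℕ∞) ≤ (cl E ω (Rg n K) x).encard
    rw [← hXt]
    refine Set.encard_le_encard fun y hy => ?_
    exact cl_monoR (Rg_mono (hK (mem_image_of_mem f hy))) x (hf y hy)
  · intro ω hω
    rw [mem_iUnion] at hω
    obtain ⟨k, hk⟩ := hω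
    exact le_trans hk (Set.encard_le_encard (cl_monoR (subset_univ _) x))

/-- The cluster of `x` inside the box contains `y`. -/
def ConR (E : Set (Sym2 (V n))) (k : ℕ) (x y : V n) : Set (Cfg n) :=
  {ω | (G E ω (Rg n k)).Reachable x y}

lemma ConR_mono (E : Set (Sym2 (V n))) (x y : V n) : Monotone (fun k => ConR E k x y) := by
  intro k l h ω hω
  exact cl_monoR (Rg_mono h) x hω

lemma Con_iUnion (E : Set (Sym2 (V n))) (x y : V n) :
    {ω : Cfg n | y ∈ Kc E ω x} = ⋃ k, ConR E k x y := by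
  apply Set.Subset.antisymm
  · intro ω hω
    rw [mem_iUnion]
    exact Kc_exh hω
  · intro ω hω
    rw [mem_iUnion] at hω
    obtain ⟨k, hk⟩ := hω
    exact cl_monoR (subset_univ _) x hk

lemma G_mono_cfg {E : Set (Sym2 (V n))} {ω ω' : Cfg n} (h : ∀ c, ω c = true → ω' c = true)
    (R : Set (V n)) : G E ω R ≤ G E ω' R := by
  rintro a b ⟨h1, h2, h3, h4, h5, h6, h7⟩
  exact ⟨h1, h2, h3, h4, h _ h5, h _ h6, h _ h7⟩

lemma BigR_inc (E : Set (Sym2 (V n))) (k t : ℕ) (x : V n) : Inc (BigR E k t x) := by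
  intro ω ω' h hω
  refine le_trans hω (Set.encard_le_encard fun y hy => ?_)
  exact SimpleGraph.Reachable.mono (G_mono_cfg h _) hy

lemma ConR_inc (E : Set (Sym2 (V n))) (k : ℕ) (x y : V n) : Inc (ConR E k x y) := by
  intro ω ω' h hω
  exact SimpleGraph.Reachable.mono (G_mono_cfg h _) hω

/-- The coordinates of the box. -/
def Cf (n k : ℕ) : Finset (Ix n) := (Pool.Agent.W975.PC.s_int_fin n (Rg n k) (Rg_fin k)).toFinset

lemma ConR_dep (E : Set (Sym2 (V n))) (k : ℕ) (x y : V n) :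
    DepOn (ConR E k x y) (Cf n k : Set (Ix n)) := by
  intro ω ω' h
  refine Pool.Agent.W975.PC.s_reach_dep n E (Rg n k) x y ω ω' fun c hc => h c ?_
  unfold Cf
  rw [Set.Finite.coe_toFinset]
  exact hc.1

lemma BigR_dep (E : Set (Sym2 (V n))) (k t : ℕ) (x : V n) :
    DepOn (BigR E k t x) (Cf n k : Set (Ix n)) := by
  intro ω ω' h
  have : cl E ω (Rg n k) x = cl E ω' (Rg n k) x := by
    ext y
    exact ConR_dep E k x y ω ω' h
  unfold BigR
  rw [mem_ofPred_eq, mem_ofPred_eq, this]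

lemma tendsto_pm {ι : Type} (r : ι → unitInterval) {A : ℕ → Set (ι → Bool)} (hA : Monotone A) :
    Tendsto (fun k => (pm r).real (A k)) atTop (𝓝 ((pm r).real (⋃ k, A k))) :=
  (ENNReal.tendsto_toReal (measure_ne_top _ _)).comp (tendsto_measure_iUnion_atTop hA)

/-- Harris inequality for increasing limits. -/
lemma harris_lim {ι : Type} (r : ι → unitInterval) {A B : ℕ → Set (ι → Bool)} (hA : Monotone A)
    (hB : Monotone B) (F : ℕ → Finset ι) (dA : ∀ k, DepOn (A k) (F k : Set ι))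
    (dB : ∀ k, DepOn (B k) (F k : Set ι)) (iA : ∀ k, Inc (A k)) (iB : ∀ k, Inc (B k)) :
    (pm r).real (⋃ k, A k) * (pm r).real (⋃ k, B k) ≤ (pm r).real ((⋃ k, A k) ∩ ⋃ k, B k) := by
  refine le_of_tendsto ((tendsto_pm r hA).mul (tendsto_pm r hB)) (Eventually.of_forall fun k => ?_)
  refine (Pool.Agent.W333.PC.s_harris ι r (F k) (A k) (B k) (dA k) (dB k) (iA k) (iB k)).trans ?_
  exact measureReal_mono (inter_subset_inter (subset_iUnion A k) (subset_iUnion B k))
    (measure_ne_top _ _)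

lemma harris_Big (r : Ix n → unitInterval) (E : Set (Sym2 (V n))) (t t' : ℕ) (x y : V n) :
    (pm r).real (Big E t x) * (pm r).real (Big E t' y) ≤
      (pm r).real (Big E t x ∩ Big E t' y) := by
  rw [Big_iUnion, Big_iUnion]
  exact harris_lim r (BigR_mono E t x) (BigR_mono E t' y) (Cf n) (fun k => BigR_dep E k t x)
    (fun k => BigR_dep E k t' y) (fun k => BigR_inc E k t x) (fun k => BigR_inc E k t' y)

/-- A cluster with at least two vertices consists of open vertices. -/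
lemma open_of_Big {E : Set (Sym2 (V n))} {t : ℕ} (ht : 2 ≤ t) {x : V n} {ω : Cfg n}
    (h : ω ∈ Big E t x) : ω (Sum.inl x) = true := by
  by_contra hc
  have h1 : Kc E ω x ⊆ {x} := by
    intro y hy
    rw [mem_Kc, SimpleGraph.reachable_iff_reflTransGen] at hy
    rcases Relation.ReflTransGen.cases_head hy with h2 | ⟨z, h2, _⟩
    · exact h2.symm
    · exact absurd h2.2.2.2.2.1 hc
  have h2 := Set.encard_le_encard h1
  rw [Set.encard_singleton] at h2
  have h3 : (t : ℕ∞) ≤ 1 := le_trans h h2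
  have h4 : t ≤ 1 := by exact_mod_cast h3
  omega

/-- The dichotomy: connected, or distinct big clusters. -/
lemma dicho (r : Ix n → unitInterval) (E : Set (Sym2 (V n))) {N : ℕ} (hN : 2 ≤ N) (x y : V n) :
    (pm r).real (Big E N x) * (pm r).real (Big E N y) ≤
      (pm r).real {ω | y ∈ Kc E ω x} + (pm r).real (DD E N x y) := by
  refine (harris_Big r E N N x y).trans ?_
  refine le_trans (measureReal_mono ?_ (measure_ne_top _ _)) (measureReal_union_le _ _)
  rintro ω ⟨h1, h2⟩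
  by_cases h : y ∈ Kc E ω x
  · exact Or.inl h
  · exact Or.inr ⟨open_of_Big hN h1, open_of_Big hN h2, h, h1, h2⟩

lemma Big_inc (E : Set (Sym2 (V n))) (t : ℕ) (x : V n) : Inc (Big E t x) := by
  intro ω ω' h hω
  exact le_trans hω (Set.encard_le_encard (Kc_mono h x))

/-- Comparison of two start vertices, uniformly in the parameters. -/
lemma compare {E : Set (Sym2 (V n))} (hE : ∀ x y : V n, NN x y → s(x, y) ∈ E) (x y : V n)
    {c0 : ℝ} (h0 : 0 < c0) : ∃ c1 : ℝ, 0 < c1 ∧ c1 ≤ 1 ∧ ∀ r : Ix n → unitInterval,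
    (∀ v, c0 ≤ (r (Sum.inl v) : ℝ)) → (∀ e, isNN e → c0 ≤ (r (Sum.inr e) : ℝ)) →
    ∀ t : ℕ, c1 * (pm r).real (Big E t y) ≤ (pm r).real (Big E t x) := by
  obtain ⟨F, hF1, hF2⟩ := path_coords hE x y
  refine ⟨min (c0 ^ F.card) 1, lt_min (pow_pos h0 _) one_pos, min_le_right _ _,
    fun r h1 h2 t => ?_⟩
  have h4 := Pool.Agent.W45.PC.s_open _ r F (Big E t y) (Big_inc E t y) (meas_Big E t y)
  have h5 : c0 ^ F.card ≤ ∏ c ∈ F, (r c : ℝ) := by
    rw [← Finset.prod_const]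
    refine Finset.prod_le_prod (fun _ _ => h0.le) fun c hc => ?_
    rcases hF1 c hc with ⟨v, rfl⟩ | ⟨e, he, rfl⟩
    · exact h1 v
    · exact h2 e he
  have h6 : (pm r).real (Big E t y ∩ {ω | ∀ c ∈ F, ω c = true}) ≤ (pm r).real (Big E t x) := by
    refine measureReal_mono ?_ (measure_ne_top _ _)
    rintro ω ⟨hω1, hω2⟩
    have h7 : y ∈ Kc E ω x := hF2 ω hω2
    show (t : ℕ∞) ≤ (Kc E ω x).encard
    rw [← Kc_trans h7]
    exact hω1
  calc min (c0 ^ F.card) 1 * (pm r).real (Big E t y)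
      ≤ (∏ c ∈ F, (r c : ℝ)) * (pm r).real (Big E t y) :=
        mul_le_mul_of_nonneg_right ((min_le_left _ _).trans h5) measureReal_nonneg
    _ ≤ _ := h4.trans h6

/-- Comparison of all start vertices with the origin. -/
lemma compare_all {m : ℕ} (hm : 1 ≤ m) {c0 : ℝ} (h0 : 0 < c0) : ∃ c1 : ℝ, 0 < c1 ∧ c1 ≤ 1 ∧
    ∀ (a p : unitInterval) (β : NNReal) (s : ℝ), c0 ≤ (a : ℝ) → c0 ≤ (p : ℝ) →
    ∀ (x : V n) (t : ℕ), c1 * (pm (prob (n := n) a p β s m)).real (Big (EdI m) t x) ≤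
      (pm (prob (n := n) a p β s m)).real (Big (EdI m) t 0) := by
  classical
  have h1 : ∀ j : Fin n → Fin m, ∃ c1 : ℝ, 0 < c1 ∧ c1 ≤ 1 ∧ ∀ r : Ix n → unitInterval,
      (∀ v, c0 ≤ (r (Sum.inl v) : ℝ)) → (∀ e, isNN e → c0 ≤ (r (Sum.inr e) : ℝ)) →
      ∀ t : ℕ, c1 * (pm r).real (Big (EdI m) t (rep j)) ≤ (pm r).real (Big (EdI m) t 0) :=
    fun j => compare (NN_EdI m) 0 (rep j) h0
  choose f hf1 hf2 hf3 using h1
  have hne : (Finset.univ : Finset (Fin n → Fin m)).Nonempty :=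
    ⟨fun _ => ⟨0, by omega⟩, Finset.mem_univ _⟩
  refine ⟨Finset.univ.inf' hne f, ?_, ?_, ?_⟩
  · rw [Finset.lt_inf'_iff]
    exact fun j _ => hf1 j
  · obtain ⟨j, hj⟩ := hne
    exact (Finset.inf'_le f hj).trans (hf2 j)
  · intro a p β s ha hp x t
    obtain ⟨⟨w, j⟩, rfl⟩ := (dec n m hm).surjective x
    have e1 : (dec n m hm) (w, j) = rep j + gam m w := rfl
    rw [e1, Big_shift (gam_dvd m w)]
    refine le_trans (mul_le_mul_of_nonneg_right (Finset.inf'_le f (Finset.mem_univ j))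
      measureReal_nonneg) ?_
    refine hf3 j _ (fun v => ?_) (fun e he => ?_) t
    · exact ha
    · rw [prob_nn _ _ _ _ _ he]
      exact hp

end

end Pool.Agent.Y990.PL
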