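import Pool.Agent.Y990.PL.Edge
import Pool.Agent.W599.PC.Gr2
import Pool.Agent.W400.PC.PT
import Pool.Agent.W783.Perc.Stmts

set_option autoImplicit false

open MeasureTheory Set

/-!
The long bonds of the lattice model: translations and weights.
-/

namespace Pool.Agent.Y990.PL

open Pool.Agent.W783.PC
open Pool.Agent.W424.PC (upd upd_self upd_ne upd_of measurable_upd)
open H974 (ind ind_of ind_not_of ind_nonneg ind_le_one ind_congr Ok Ex)

noncomputable section

variable {n : ℕ}

/-- The translations which preserve the special lines. -/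
def gam (m : ℕ) (w : V n) : V n := (w.1, fun i => (m : ℤ) * w.2 i)

/-- The vertex `(k, 0)`. -/
def pt (n k : ℕ) : V n := ((k : ℤ), 0)

/-- The long bond of length `k` at the special point `gam w`. -/
def bd (m : ℕ) (w : V n) (k : ℕ) : Ix n := Sum.inr s(gam m w, gam m w + pt n k)

lemma gam_add (m : ℕ) (w w' : V n) : gam m (w + w') = gam m w + gam m w' := by
  ext i
  · rfl
  · simp [gam, mul_add]

lemma gam_zero (m : ℕ) : gam m (0 : V n) = 0 := by
  ext i
  · rfl
  · simp [gam]

lemma gam_inj {m : ℕ} (hm : 1 ≤ m) {w w' : V n} (h : gam m w = gam m w') : w = w' := by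
  have h1 := congrArg Prod.fst h
  have h2 := congrArg Prod.snd h
  ext i
  · exact h1
  · have h3 := congrFun h2 i
    have hm' : (m : ℤ) ≠ 0 := by exact_mod_cast (by omega : m ≠ 0)
    exact mul_left_cancel₀ hm' h3

lemma gam_dvd (m : ℕ) (w : V n) : ∀ i, (m : ℤ) ∣ (gam m w).2 i := fun i => dvd_mul_right _ _

lemma bd_zero (m k : ℕ) : bd m (0 : V n) k = Sum.inr s((0 : V n), pt n k) := by
  unfold bd
  rw [gam_zero, zero_add]

lemma sh_bd (m : ℕ) (w w' : V n) (k : ℕ) : sh (gam m w') (bd m w k) = bd m (w + w') k := by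
  unfold sh bd
  simp only [Sum.map_inr, Sym2.map_mk, gam_add]
  rw [add_right_comm]

lemma bd_lg {m k : ℕ} (hk : 2 ≤ k) (w : V n) : Lg m (gam m w) (gam m w + pt n k) := by
  refine ⟨?_, gam_dvd m w, ?_⟩
  · simp [pt]
  · have : (gam m w).1 - (gam m w + pt n k).1 = -(k : ℤ) := by simp [pt]
    rw [this, Int.natAbs_neg, Int.natAbs_natCast]
    exact hk

lemma lg_not_nn {m : ℕ} {x y : V n} (h : Lg m x y) : ¬ NN x y := by
  intro hn
  unfold NN at hn
  have h1 : 2 ≤ |x.1 - y.1| := by
    rw [Int.abs_eq_natAbs]; exact_mod_cast h.2.2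
  have h2 : 0 ≤ ∑ i, |x.2 i - y.2 i| := Finset.sum_nonneg fun i _ => abs_nonneg _
  omega

lemma prob_bd {a p : unitInterval} {β : NNReal} {s : ℝ} {m k : ℕ} (hk : 2 ≤ k) (w : V n) :
    prob a p β s m (bd m w k) = lrp β s k := by
  have hlg := bd_lg (m := m) hk w
  unfold bd prob
  simp only
  rw [if_neg, if_pos]
  · congr 1
    show ((gam m w).1 - (gam m w + pt n k).1).natAbs = k
    have : (gam m w).1 - (gam m w + pt n k).1 = -(k : ℤ) := by simp [pt]
    rw [this, Int.natAbs_neg, Int.natAbs_natCast]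
  · exact ⟨_, _, rfl, hlg⟩
  · rw [Pool.Agent.W599.PC.Gr2.isNN_mk]
    exact lg_not_nn hlg

lemma bd_EdI {m k : ℕ} (hk : 2 ≤ k) (w : V n) : s(gam m w, gam m w + pt n k) ∈ EdI (n := n) m :=
  Or.inr ⟨_, _, rfl, bd_lg hk w⟩

lemma bd_inj {m : ℕ} (hm : 1 ≤ m) {w w' : V n} {k k' : ℕ} (hk : 1 ≤ k) (hk' : 1 ≤ k')
    (h : bd m w k = bd m w' k') : w = w' ∧ k = k' := by
  have h1 := Sum.inr.inj h
  rw [Sym2.eq_iff] at h1
  rcases h1 with ⟨h2, h3⟩ | ⟨h2, h3⟩
  · have hw := gam_inj hm h2
    subst hw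
    refine ⟨rfl, ?_⟩
    have := congrArg Prod.fst (add_left_cancel h3)
    simp only [pt] at this
    exact_mod_cast this
  · exfalso
    have e2 := congrArg Prod.fst h2
    have e3 := congrArg Prod.fst h3
    simp only [Prod.fst_add, pt] at e2 e3
    omega

/-- The weight of the long bonds of lengths in `[l, 2l)` at a vertex. -/
def wt (β : NNReal) (s : ℝ) (l : ℕ) : ℝ := 2 * ∑ k ∈ Finset.Ico l (2 * l), (lrp β s k : ℝ)

open scoped Classical in
/-- The long bonds of lengths in `[l, 2l)` at the points of `W`. -/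
def SW (m : ℕ) (W : Finset (V n)) (l : ℕ) : Finset (Ix n) :=
  (W ×ˢ Finset.Ico l (2 * l)).image (fun q => bd m q.1 q.2)

lemma wgh_SW {a p : unitInterval} {β : NNReal} {s : ℝ} {m l : ℕ} (hl : 2 ≤ l)
    (W : Finset (V n)) : Wgh (prob (n := n) a p β s m) (SW m W l) (wt β s l) := by
  classical
  refine ⟨?_, ?_, ?_⟩
  · intro c hc
    unfold SW at hc
    rw [Finset.mem_image] at hc
    obtain ⟨q, _, rfl⟩ := hc
    exact ⟨_, rfl⟩
  · unfold wt
    have : ∀ k ∈ Finset.Ico l (2 * l), (0 : ℝ) ≤ (lrp β s k : ℝ) := fun k _ => (lrp β s k).2.1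
    have := Finset.sum_nonneg this
    linarith
  · intro x R hR hx
    -- the bonds of `R` are determined by their length and direction
    set f : Bool × ℕ → Ix n := fun q =>
      if q.1 = true then Sum.inr s(x, x + pt n q.2) else Sum.inr s(x - pt n q.2, x) with hf
    have hsub : R ⊆ ((Finset.univ : Finset Bool) ×ˢ Finset.Ico l (2 * l)).image f := by
      intro c hc
      have h1 := hR hc
      unfold SW at h1
      rw [Finset.mem_image] at h1
      obtain ⟨⟨w, k⟩, hq, rfl⟩ := h1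
      rw [Finset.mem_product] at hq
      obtain ⟨e, he, hxe⟩ := hx _ hc
      have he' : s(gam m w, gam m w + pt n k) = e := Sum.inr.inj he
      rw [← he', Sym2.mem_iff] at hxe
      rw [Finset.mem_image]
      rcases hxe with h | h
      · refine ⟨(true, k), ?_, ?_⟩
        · rw [Finset.mem_product]; exact ⟨Finset.mem_univ _, hq.2⟩
        · rw [hf]
          simp only [if_true]
          unfold bd
          rw [h]
      · refine ⟨(false, k), ?_, ?_⟩
        · rw [Finset.mem_product]; exact ⟨Finset.mem_univ _, hq.2⟩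
        · rw [hf]
          simp only [Bool.false_eq_true, if_false]
          unfold bd
          rw [h, add_sub_cancel_right]
    have hval : ∀ c ∈ R, ∃ q ∈ (Finset.univ : Finset Bool) ×ˢ Finset.Ico l (2 * l), f q = c ∧
        (prob (n := n) a p β s m c : ℝ) = lrp β s q.2 := by
      intro c hc
      have h1 := hR hc
      unfold SW at h1
      rw [Finset.mem_image] at h1
      obtain ⟨⟨w, k⟩, hq, rfl⟩ := h1
      rw [Finset.mem_product] at hq
      have hk2 : 2 ≤ k := by
        have := (Finset.mem_Ico.1 hq.2).1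
        omega
      obtain ⟨e, he, hxe⟩ := hx _ hc
      have he' : s(gam m w, gam m w + pt n k) = e := Sum.inr.inj he
      rw [← he', Sym2.mem_iff] at hxe
      rcases hxe with h | h
      · refine ⟨(true, k), ?_, ?_, ?_⟩
        · rw [Finset.mem_product]; exact ⟨Finset.mem_univ _, hq.2⟩
        · rw [hf]
          simp only [if_true]
          unfold bd
          rw [h]
        · simp only
          rw [prob_bd hk2]
      · refine ⟨(false, k), ?_, ?_, ?_⟩
        · rw [Finset.mem_product]; exact ⟨Finset.mem_univ _, hq.2⟩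
        · rw [hf]
          simp only [Bool.false_eq_true, if_false]
          unfold bd
          rw [h, add_sub_cancel_right]
        · simp only
          rw [prob_bd hk2]
    choose! g hg1 hg2 hg3 using hval
    have hinj : Set.InjOn g (R : Set (Ix n)) := by
      intro c hc c' hc' h
      rw [← hg2 c hc, ← hg2 c' hc', h]
    have h1 : ∑ c ∈ R, (prob (n := n) a p β s m c : ℝ) = ∑ c ∈ R, (lrp β s (g c).2 : ℝ) :=
      Finset.sum_congr rfl fun c hc => hg3 c hc
    rw [h1, ← Finset.sum_image (f := fun q : Bool × ℕ => (lrp β s q.2 : ℝ)) hinj]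
    have h2 : R.image g ⊆ (Finset.univ : Finset Bool) ×ˢ Finset.Ico l (2 * l) := by
      intro q hq
      rw [Finset.mem_image] at hq
      obtain ⟨c, hc, rfl⟩ := hq
      exact hg1 c hc
    refine (Finset.sum_le_sum_of_subset_of_nonneg h2 fun q _ _ => (lrp β s q.2).2.1).trans ?_
    rw [Finset.sum_product]
    unfold wt
    simp only [Finset.sum_const, Finset.card_univ, Fintype.card_bool, nsmul_eq_mul]
    norm_num

/-! ### Translations -/

/-- The translated configuration. -/
def tau (z : V n) (ω : Cfg n) : Cfg n := fun c => ω (sh z c)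

lemma measurable_tau (z : V n) : Measurable (tau z : Cfg n → Cfg n) := by
  rw [measurable_pi_iff]
  intro c
  exact measurable_pi_apply _

lemma map_tau {a p : unitInterval} {β : NNReal} {s : ℝ} {m : ℕ} {z : V n}
    (hz : ∀ i, (m : ℤ) ∣ z.2 i) :
    (pm (prob (n := n) a p β s m)).map (tau z) = pm (prob (n := n) a p β s m) := by
  ext A hA
  rw [Measure.map_apply (measurable_tau z) hA]
  exact Pool.Agent.W599.PC.Gr2.s_shift_pm Pool.Agent.W400.PC.s_equiv n m a p β s z hz A hA

lemma Kc_tau {m : ℕ} {z : V n} (hz : ∀ i, (m : ℤ) ∣ z.2 i) (ω : Cfg n) (x y : V n) :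
    y ∈ Kc (EdI m) (tau z ω) x ↔ y + z ∈ Kc (EdI m) ω (x + z) := by
  have h := Pool.Agent.W599.PC.Gr2.s_shift_G n (EdI m) z
    (fun x y => (Pool.Agent.W599.PC.Gr2.s_shift_E n m 0 z hz x y).2) ω univ x y
  rw [mem_Kc, mem_Kc]
  have hR : {v : V n | v - z ∈ (univ : Set (V n))} = univ := by ext; simp
  rw [hR] at h
  exact h

lemma Kc_tau_image {m : ℕ} {z : V n} (hz : ∀ i, (m : ℤ) ∣ z.2 i) (ω : Cfg n) (x : V n) :
    Kc (EdI m) ω (x + z) = (fun y => y + z) '' Kc (EdI m) (tau z ω) x := by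
  ext y
  rw [mem_image]
  constructor
  · intro h
    refine ⟨y - z, ?_, sub_add_cancel y z⟩
    rw [Kc_tau hz, sub_add_cancel]
    exact h
  · rintro ⟨y', h, rfl⟩
    exact (Kc_tau hz ω x y').1 h

lemma Kc_tau_ncard {m : ℕ} {z : V n} (hz : ∀ i, (m : ℤ) ∣ z.2 i) (ω : Cfg n) (x : V n) :
    (Kc (EdI m) (tau z ω) x).ncard = (Kc (EdI m) ω (x + z)).ncard := by
  rw [Kc_tau_image hz, Set.ncard_image_of_injective _ (add_left_injective z)]

lemma Kc_tau_encard {m : ℕ} {z : V n} (hz : ∀ i, (m : ℤ) ∣ z.2 i) (ω : Cfg n) (x : V n) :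
    (Kc (EdI m) (tau z ω) x).encard = (Kc (EdI m) ω (x + z)).encard := by
  rw [Kc_tau_image hz, Function.Injective.encard_image (add_left_injective z)]

lemma Big_shift {a p : unitInterval} {β : NNReal} {s : ℝ} {m : ℕ} {z : V n}
    (hz : ∀ i, (m : ℤ) ∣ z.2 i) (t : ℕ) (x : V n) :
    (pm (prob (n := n) a p β s m)).real (Big (EdI m) t (x + z)) =
      (pm (prob (n := n) a p β s m)).real (Big (EdI m) t x) := by
  have h := Pool.Agent.W599.PC.Gr2.s_shift_pm Pool.Agent.W400.PC.s_equiv n m a p β s z hz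
    (Big (EdI m) t x) (meas_Big _ t x)
  have h2 : {ω : Cfg n | (fun c => ω (sh z c)) ∈ Big (EdI m) t x} = Big (EdI m) t (x + z) := by
    ext ω
    show (t : ℕ∞) ≤ (Kc (EdI m) (tau z ω) x).encard ↔ (t : ℕ∞) ≤ (Kc (EdI m) ω (x + z)).encard
    rw [Kc_tau_encard hz]
  rw [h2] at h
  rw [Measure.real, h]
  rfl

lemma tch_tau {m : ℕ} {z : V n} (hz : ∀ i, (m : ℤ) ∣ z.2 i) (ω : Cfg n) (c : Ix n) (x : V n) :
    tch (tau z ω) c (Kc (EdI m) (tau z ω) x) ↔ tch ω (sh z c) (Kc (EdI m) ω (x + z)) := by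
  unfold tch
  constructor
  · rintro ⟨e, rfl, h2, y, h3, h4⟩
    refine ⟨e.map (· + z), rfl, ?_, y + z, ?_, (Kc_tau hz ω x y).1 h4⟩
    · intro v hv
      rw [Sym2.mem_map] at hv
      obtain ⟨v', hv', rfl⟩ := hv
      exact h2 v' hv'
    · rw [Sym2.mem_map]
      exact ⟨y, h3, rfl⟩
  · rintro ⟨e, he, h2, y, h3, h4⟩
    rcases c with v | e'
    · simp [sh] at he
    · have he' : e'.map (· + z) = e := Sum.inr.inj he
      subst he'
      rw [Sym2.mem_map] at h3
      obtain ⟨y', hy', rfl⟩ := h3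
      refine ⟨e', rfl, ?_, y', hy', (Kc_tau hz ω x y').2 h4⟩
      intro v hv
      exact h2 (v + z) (Sym2.mem_map.2 ⟨v, hv, rfl⟩)

end

end Pool.Agent.Y990.PL
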