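import Pool.Agent.Y990.PL.Lat

set_option autoImplicit false

open MeasureTheory Set

/-!
Mass transport: the two-ghost inequality for the long bonds of lengths in `[l, 2l)`.
-/

namespace Pool.Agent.Y990.PL

open Pool.Agent.W783.PC
open Pool.Agent.W424.PC (upd upd_self upd_ne upd_of measurable_upd)
open H974 (ind ind_of ind_not_of ind_nonneg ind_le_one ind_congr Ok Ex)

noncomputable section

variable {n : ℕ}

/-- The mass sent by the vertex `u` to the bond `c`. -/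
def mass (m N : ℕ) (u : V n) (c : Ix n) (ω : Cfg n) : ℝ :=
  ind (tch ω c (Kc (EdI m) ω u)) * gN N (Kc (EdI m) ω u)

lemma mass_nonneg (m N : ℕ) (u : V n) (c : Ix n) (ω : Cfg n) : 0 ≤ mass m N u c ω :=
  mul_nonneg (ind_nonneg _) (gN_nonneg _ _)

lemma mass_le (m N : ℕ) (u : V n) (c : Ix n) (ω : Cfg n) : mass m N u c ω ≤ (N : ℝ)⁻¹ := by
  unfold mass
  calc ind (tch ω c (Kc (EdI m) ω u)) * gN N (Kc (EdI m) ω u)
      ≤ 1 * gN N (Kc (EdI m) ω u) := mul_le_mul_of_nonneg_right (ind_le_one _) (gN_nonneg _ _)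
    _ ≤ _ := by rw [one_mul]; exact gN_le _ _

lemma meas_mass (m N : ℕ) (u : V n) (c : Ix n) : Measurable (mass m N u c) :=
  (meas_ind (meas_tch (EdI m) c u)).mul (meas_gN N (fun y => meas_mem_Kc (EdI m) u y))

lemma mass_tau {m N : ℕ} {z : V n} (hz : ∀ i, (m : ℤ) ∣ z.2 i) (u : V n) (c : Ix n)
    (ω : Cfg n) : mass m N u c (tau z ω) = mass m N (u + z) (sh z c) ω := by
  unfold mass
  rw [ind_congr (tch_tau hz ω c u)]
  congr 1
  unfold gN
  rw [Kc_tau_ncard hz]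

/-- The total mass received by the bond between `x` and `y`. -/
lemma mass_sum {m N : ℕ} {x y : V n} {ω : Cfg n} (hfin : ∀ z, (Kc (EdI m) ω z).Finite) :
    ∑' u : V n, ENNReal.ofReal (mass m N u (Sum.inr s(x, y)) ω) =
      ENNReal.ofReal (Psi (EdI m) N x y ω) := by
  classical
  by_cases hop : ω (Sum.inl x) = true ∧ ω (Sum.inl y) = true
  swap
  · have h1 : ∀ u, mass m N u (Sum.inr s(x, y)) ω = 0 := by
      intro u
      unfold mass
      rw [ind_not_of, zero_mul]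
      rintro ⟨e, he, h2, _⟩
      have he' : s(x, y) = e := Sum.inr.inj he
      subst he'
      exact hop ⟨h2 x (Sym2.mem_mk_left x y), h2 y (Sym2.mem_mk_right x y)⟩
    unfold Psi
    rw [ind_not_of hop, zero_mul]
    simp [h1]
  set X := Kc (EdI m) ω x with hX
  set Y := Kc (EdI m) ω y with hY
  have htch : ∀ u, tch ω (Sum.inr s(x, y)) (Kc (EdI m) ω u) ↔ u ∈ X ∨ u ∈ Y := by
    intro u
    constructor
    · rintro ⟨e, he, _, v, hv, hvu⟩
      have he' : s(x, y) = e := Sum.inr.inj he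
      subst he'
      rw [Sym2.mem_iff] at hv
      rcases hv with rfl | rfl
      · exact Or.inl (Kc_symm hvu)
      · exact Or.inr (Kc_symm hvu)
    · intro h
      refine ⟨s(x, y), rfl, ?_, ?_⟩
      · intro v hv
        rw [Sym2.mem_iff] at hv
        rcases hv with rfl | rfl
        · exact hop.1
        · exact hop.2
      · rcases h with h | h
        · exact ⟨x, Sym2.mem_mk_left x y, Kc_symm h⟩
        · exact ⟨y, Sym2.mem_mk_right x y, Kc_symm h⟩
  have hgX : ∀ u ∈ X, gN N (Kc (EdI m) ω u) = gN N X := fun u hu => by rw [Kc_trans hu]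
  have hgY : ∀ u ∈ Y, gN N (Kc (EdI m) ω u) = gN N Y := fun u hu => by rw [Kc_trans hu]
  have hXf : X.Finite := hfin x
  have hYf : Y.Finite := hfin y
  have hcX : (X.ncard : ℝ) = hXf.toFinset.card := by
    rw [Set.ncard_eq_toFinset_card X hXf]
  have hcY : (Y.ncard : ℝ) = hYf.toFinset.card := by
    rw [Set.ncard_eq_toFinset_card Y hYf]
  have hmX : ∀ u ∈ hXf.toFinset, ENNReal.ofReal (mass m N u (Sum.inr s(x, y)) ω) =
      ENNReal.ofReal (gN N X) := by
    intro u hu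
    have hu' : u ∈ X := hXf.mem_toFinset.1 hu
    unfold mass
    rw [ind_of ((htch u).2 (Or.inl hu')), one_mul, hgX u hu']
  have hmY : ∀ u ∈ hYf.toFinset, ENNReal.ofReal (mass m N u (Sum.inr s(x, y)) ω) =
      ENNReal.ofReal (gN N Y) := by
    intro u hu
    have hu' : u ∈ Y := hYf.mem_toFinset.1 hu
    unfold mass
    rw [ind_of ((htch u).2 (Or.inr hu')), one_mul, hgY u hu']
  have hsX : ∑ u ∈ hXf.toFinset, ENNReal.ofReal (mass m N u (Sum.inr s(x, y)) ω) =
      ENNReal.ofReal (fN N X) := by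
    rw [Finset.sum_congr rfl hmX, Finset.sum_const, nsmul_eq_mul]
    unfold fN
    rw [hcX, ENNReal.ofReal_mul (Nat.cast_nonneg _), ENNReal.ofReal_natCast]
  have hsY : ∑ u ∈ hYf.toFinset, ENNReal.ofReal (mass m N u (Sum.inr s(x, y)) ω) =
      ENNReal.ofReal (fN N Y) := by
    rw [Finset.sum_congr rfl hmY, Finset.sum_const, nsmul_eq_mul]
    unfold fN
    rw [hcY, ENNReal.ofReal_mul (Nat.cast_nonneg _), ENNReal.ofReal_natCast]
  have hzero : ∀ u, u ∉ hXf.toFinset ∪ hYf.toFinset →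
      ENNReal.ofReal (mass m N u (Sum.inr s(x, y)) ω) = 0 := by
    intro u hu
    rw [Finset.mem_union, hXf.mem_toFinset, hYf.mem_toFinset] at hu
    unfold mass
    rw [ind_not_of (fun h => hu ((htch u).1 h)), zero_mul, ENNReal.ofReal_zero]
  rw [tsum_eq_sum (s := hXf.toFinset ∪ hYf.toFinset) (fun u hu => hzero u hu)]
  unfold Psi
  rw [ind_of hop, one_mul, ← hX, ← hY]
  by_cases hyX : y ∈ X
  · have hXY : Y = X := Kc_trans hyX
    rw [ind_not_of (not_not.2 hyX), zero_mul, add_zero]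
    have : hXf.toFinset ∪ hYf.toFinset = hXf.toFinset := by
      apply Finset.union_eq_left.2
      intro u hu
      rw [hYf.mem_toFinset, hXY] at hu
      exact hXf.mem_toFinset.2 hu
    rw [this, hsX]
  · have hdisj : Disjoint hXf.toFinset hYf.toFinset := by
      rw [Finset.disjoint_left]
      intro u hu hu'
      rw [hXf.mem_toFinset] at hu
      rw [hYf.mem_toFinset] at hu'
      apply hyX
      have h1 : Kc (EdI m) ω u = X := Kc_trans hu
      rw [← h1]
      exact Kc_symm hu'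
    rw [Finset.sum_union hdisj, hsX, hsY, ind_of hyX, one_mul,
      ENNReal.ofReal_add (fN_nonneg _ _) (fN_nonneg _ _)]

/-! ### The decomposition of the lattice -/

/-- Representatives of the vertices modulo the translations. -/
def rep {m : ℕ} (j : Fin n → Fin m) : V n := (0, fun i => ((j i : ℕ) : ℤ))

/-- `V n` as the product of the group of translations and the representatives. -/
def dec (n m : ℕ) (hm : 1 ≤ m) : V n × (Fin n → Fin m) ≃ V n where
  toFun q := rep q.2 + gam m q.1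
  invFun u := ((u.1, fun i => u.2 i / (m : ℤ)), fun i => ⟨(u.2 i % (m : ℤ)).toNat, by
    have h1 : (0 : ℤ) < m := by exact_mod_cast hm
    have h2 := Int.emod_lt_of_pos (u.2 i) h1
    have h3 := Int.emod_nonneg (u.2 i) h1.ne'
    omega⟩)
  left_inv := by
    rintro ⟨w, j⟩
    have h1 : (0 : ℤ) < m := by exact_mod_cast hm
    have h2 : ∀ i, (((j i : ℕ) : ℤ) + (m : ℤ) * w.2 i) / (m : ℤ) = w.2 i := by
      intro i
      rw [Int.add_mul_ediv_left _ _ h1.ne', Int.ediv_eq_zero_of_lt (by positivity)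
        (by exact_mod_cast (j i).2), zero_add]
    have h3 : ∀ i, (((j i : ℕ) : ℤ) + (m : ℤ) * w.2 i) % (m : ℤ) = ((j i : ℕ) : ℤ) := by
      intro i
      rw [Int.add_mul_emod_self_left, Int.emod_eq_of_lt (by positivity)
        (by exact_mod_cast (j i).2)]
    refine Prod.ext (Prod.ext ?_ ?_) ?_
    · simp [rep, gam]
    · funext i
      exact h2 i
    · funext i
      apply Fin.ext
      show ((((j i : ℕ) : ℤ) + (m : ℤ) * w.2 i) % (m : ℤ)).toNat = j i
      rw [h3 i]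
      simp
  right_inv := by
    intro u
    have h1 : (0 : ℤ) < m := by exact_mod_cast hm
    refine Prod.ext ?_ ?_
    · simp [rep, gam]
    · funext i
      show (((u.2 i % (m : ℤ)).toNat : ℕ) : ℤ) + (m : ℤ) * (u.2 i / (m : ℤ)) = u.2 i
      rw [Int.toNat_of_nonneg (Int.emod_nonneg _ h1.ne')]
      exact Int.emod_add_mul_ediv _ _

section transport

variable {a p : unitInterval} {β : NNReal} {s : ℝ} {m : ℕ}

/-- Mass transport for a function of a vertex and a bond which is invariant. -/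
lemma transport (hm : 1 ≤ m) (h : V n → Ix n → ENNReal)
    (hinv : ∀ (z : V n), (∀ i, (m : ℤ) ∣ z.2 i) → ∀ u c, h (u + z) (sh z c) = h u c) (k : ℕ) :
    ∑' u : V n, h u (bd m 0 k) = ∑ j : Fin n → Fin m, ∑' w : V n, h (rep j) (bd m w k) := by
  have h1 : ∑' u : V n, h u (bd m 0 k) =
      ∑' q : V n × (Fin n → Fin m), h (rep q.2 + gam m q.1) (bd m 0 k) :=
    ((dec n m hm).tsum_eq (fun u => h u (bd m 0 k))).symm
  rw [h1]
  have h2 : ∀ q : V n × (Fin n → Fin m), h (rep q.2 + gam m q.1) (bd m 0 k) =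
      h (rep q.2) (bd m (-q.1) k) := by
    rintro ⟨w, j⟩
    have h3 := hinv (gam m w) (gam_dvd m w) (rep j) (bd m (-w) k)
    rw [sh_bd, neg_add_cancel] at h3
    exact h3
  simp_rw [h2]
  rw [ENNReal.tsum_prod', ENNReal.tsum_comm]
  rw [tsum_fintype]
  refine Finset.sum_congr rfl fun j _ => ?_
  exact (Equiv.neg (V n)).tsum_eq (fun w => h (rep j) (bd m w k))

lemma lint_tau {z : V n} (hz : ∀ i, (m : ℤ) ∣ z.2 i) {f : Cfg n → ENNReal}
    (hf : Measurable f) :
    ∫⁻ ω, f (tau z ω) ∂(pm (prob (n := n) a p β s m)) =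
      ∫⁻ ω, f ω ∂(pm (prob (n := n) a p β s m)) := by
  conv_rhs => rw [← map_tau (a := a) (p := p) (β := β) (s := s) hz]
  rw [lintegral_map hf (measurable_tau z)]

/-- The positive part of the flow. -/
def hp (a p : unitInterval) (β : NNReal) (s : ℝ) (m N : ℕ) (u : V n) (c : Ix n) : ENNReal :=
  ∫⁻ ω, ENNReal.ofReal ((prob (n := n) a p β s m c : ℝ)) * ENNReal.ofReal (mass m N u c ω)
    ∂(pm (prob (n := n) a p β s m))

/-- The negative part of the flow. -/
def hn (a p : unitInterval) (β : NNReal) (s : ℝ) (m N : ℕ) (u : V n) (c : Ix n) : ENNReal :=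
  ∫⁻ ω, ENNReal.ofReal (ind (ω c = true)) * ENNReal.ofReal (mass m N u c ω)
    ∂(pm (prob (n := n) a p β s m))

lemma meas_op (c : Ix n) (m N : ℕ) (u : V n) :
    Measurable (fun ω : Cfg n => ENNReal.ofReal (ind (ω c = true)) *
      ENNReal.ofReal (mass m N u c ω)) :=
  ((meas_ind (meas_co c)).ennreal_ofReal).mul (meas_mass m N u c).ennreal_ofReal

lemma hp_inv (N : ℕ) (z : V n) (hz : ∀ i, (m : ℤ) ∣ z.2 i) (u : V n) (c : Ix n) :
    hp a p β s m N (u + z) (sh z c) = hp a p β s m N u c := by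
  unfold hp
  rw [Pool.Agent.W599.PC.Gr2.prob_shift a p β s m z hz c]
  rw [← lint_tau hz ((meas_mass m N u c).ennreal_ofReal.const_mul _)]
  refine lintegral_congr fun ω => ?_
  rw [mass_tau hz]

lemma hn_inv (N : ℕ) (z : V n) (hz : ∀ i, (m : ℤ) ∣ z.2 i) (u : V n) (c : Ix n) :
    hn a p β s m N (u + z) (sh z c) = hn a p β s m N u c := by
  unfold hn
  rw [← lint_tau hz (meas_op c m N u)]
  refine lintegral_congr fun ω => ?_
  rw [mass_tau hz]
  rfl

lemma Mt_eq (N : ℕ) (S : Finset (Ix n)) (u : V n) (ω : Cfg n) (r : Ix n → unitInterval) :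
    Mt r (EdI m) S u ω * gN N (Kc (EdI m) ω u) =
      ∑ c ∈ S, ((r c : ℝ) - ind (ω c = true)) * mass m N u c ω := by
  unfold Mt mass
  rw [Finset.sum_mul]
  exact Finset.sum_congr rfl fun c _ => by ring

lemma SW_sum {l : ℕ} (hm : 1 ≤ m) (hl : 1 ≤ l) (W : Finset (V n)) {α : Type}
    [AddCommMonoid α] (f : Ix n → α) :
    ∑ c ∈ SW m W l, f c = ∑ w ∈ W, ∑ k ∈ Finset.Ico l (2 * l), f (bd m w k) := by
  classical
  unfold SW
  rw [Finset.sum_image, Finset.sum_product]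
  rintro ⟨w, k⟩ hq ⟨w', k'⟩ hq' h
  simp only [Finset.coe_product, Set.mem_prod, Finset.mem_coe, Finset.mem_Ico] at hq hq'
  obtain ⟨h1, h2⟩ := bd_inj hm (by omega) (by omega) h
  exact Prod.ext h1 h2

lemma int_of_lint {f : Cfg n → ℝ} (hf : Measurable f) (B : ℝ) (h0 : ∀ ω, 0 ≤ f ω)
    (hb : ∀ ω, f ω ≤ B) (r : Ix n → unitInterval) :
    ∫⁻ ω, ENNReal.ofReal (f ω) ∂(pm r) = ENNReal.ofReal (∫ ω, f ω ∂(pm r)) := by
  rw [ofReal_integral_eq_lintegral_ofReal]
  · exact int_bdd r hf B fun ω => by rw [abs_of_nonneg (h0 ω)]; exact hb ω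
  · exact Filter.Eventually.of_forall h0

/-- One start vertex, finitely many bonds. -/
lemma flow_le (hm : 1 ≤ m) {l N : ℕ} (hl : 2 ≤ l) (W : Finset (V n)) (u : V n) {Q : ℝ}
    (hQ : ∫ ω, |Mt (prob (n := n) a p β s m) (EdI m) (SW m W l) u ω| *
      gN N (Kc (EdI m) ω u) ∂(pm (prob (n := n) a p β s m)) ≤ Q) :
    ∑ w ∈ W, ∑ k ∈ Finset.Ico l (2 * l), hp a p β s m N u (bd m w k) ≤
      ∑ w ∈ W, ∑ k ∈ Finset.Ico l (2 * l), hn a p β s m N u (bd m w k) + ENNReal.ofReal Q := by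
  set r := prob (n := n) a p β s m with hr
  have hl1 : 1 ≤ l := by omega
  rw [← SW_sum hm hl1 W (fun c => hp a p β s m N u c),
    ← SW_sum hm hl1 W (fun c => hn a p β s m N u c)]
  have b1 : ∀ c, ∀ ω : Cfg n, (r c : ℝ) * mass m N u c ω ≤ (N : ℝ)⁻¹ := fun c ω => by
    calc (r c : ℝ) * mass m N u c ω ≤ 1 * mass m N u c ω :=
          mul_le_mul_of_nonneg_right (r c).2.2 (mass_nonneg _ _ _ _ _)
      _ ≤ _ := by rw [one_mul]; exact mass_le _ _ _ _ _
  have b2 : ∀ c, ∀ ω : Cfg n, ind (ω c = true) * mass m N u c ω ≤ (N : ℝ)⁻¹ := fun c ω => by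
    calc ind (ω c = true) * mass m N u c ω ≤ 1 * mass m N u c ω :=
          mul_le_mul_of_nonneg_right (ind_le_one _) (mass_nonneg _ _ _ _ _)
      _ ≤ _ := by rw [one_mul]; exact mass_le _ _ _ _ _
  have z1 : ∀ c, ∀ ω : Cfg n, 0 ≤ (r c : ℝ) * mass m N u c ω := fun c ω =>
    mul_nonneg (r c).2.1 (mass_nonneg _ _ _ _ _)
  have z2 : ∀ c, ∀ ω : Cfg n, 0 ≤ ind (ω c = true) * mass m N u c ω := fun c ω =>
    mul_nonneg (ind_nonneg _) (mass_nonneg _ _ _ _ _)
  have m1 : ∀ c, Measurable (fun ω : Cfg n => (r c : ℝ) * mass m N u c ω) := fun c =>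
    (meas_mass m N u c).const_mul _
  have m2 : ∀ c, Measurable (fun ω : Cfg n => ind (ω c = true) * mass m N u c ω) := fun c =>
    (meas_ind (meas_co c)).mul (meas_mass m N u c)
  have e1 : ∀ c, hp a p β s m N u c = ENNReal.ofReal (∫ ω, (r c : ℝ) * mass m N u c ω ∂(pm r)) := by
    intro c
    rw [← int_of_lint (m1 c) _ (z1 c) (b1 c)]
    unfold hp
    refine lintegral_congr fun ω => ?_
    rw [ENNReal.ofReal_mul (r c).2.1]
  have e2 : ∀ c, hn a p β s m N u c =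
      ENNReal.ofReal (∫ ω, ind (ω c = true) * mass m N u c ω ∂(pm r)) := by
    intro c
    rw [← int_of_lint (m2 c) _ (z2 c) (b2 c)]
    unfold hn
    refine lintegral_congr fun ω => ?_
    rw [ENNReal.ofReal_mul (ind_nonneg _)]
  simp_rw [e1, e2]
  have i1 : ∀ c, Integrable (fun ω : Cfg n => (r c : ℝ) * mass m N u c ω) (pm r) := fun c =>
    int_bdd r (m1 c) _ fun ω => by rw [abs_of_nonneg (z1 c ω)]; exact b1 c ω
  have i2 : ∀ c, Integrable (fun ω : Cfg n => ind (ω c = true) * mass m N u c ω) (pm r) := fun c =>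
    int_bdd r (m2 c) _ fun ω => by rw [abs_of_nonneg (z2 c ω)]; exact b2 c ω
  have n1 : ∀ c, 0 ≤ ∫ ω, (r c : ℝ) * mass m N u c ω ∂(pm r) := fun c => integral_nonneg (z1 c)
  have n2 : ∀ c, 0 ≤ ∫ ω, ind (ω c = true) * mass m N u c ω ∂(pm r) := fun c =>
    integral_nonneg (z2 c)
  have hint : ∑ c ∈ SW m W l, ∫ ω, (r c : ℝ) * mass m N u c ω ∂(pm r) -
      ∑ c ∈ SW m W l, ∫ ω, ind (ω c = true) * mass m N u c ω ∂(pm r) ≤ Q := by
    rw [← integral_finsetSum _ (fun c _ => i1 c), ← integral_finsetSum _ (fun c _ => i2 c),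
      ← integral_sub (integrable_finsetSum _ fun c _ => i1 c)
        (integrable_finsetSum _ fun c _ => i2 c)]
    refine le_trans ?_ hQ
    have mM : Measurable (fun ω : Cfg n => |Mt r (EdI m) (SW m W l) u ω| *
        gN N (Kc (EdI m) ω u)) :=
      (meas_Mt r (EdI m) (SW m W l) u).abs.mul (meas_gN N (fun y => meas_mem_Kc (EdI m) u y))
    refine integral_mono ((integrable_finsetSum _ fun c _ => i1 c).sub
      (integrable_finsetSum _ fun c _ => i2 c)) ?_ ?_
    · refine int_bdd r mM ((SW m W l).card * (N : ℝ)⁻¹) fun ω => ?_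
      rw [abs_mul, abs_abs, abs_of_nonneg (gN_nonneg N _)]
      exact mul_le_mul (Mt_bdd r _ _ u ω) (gN_le _ _) (gN_nonneg _ _) (Nat.cast_nonneg _)
    · intro ω
      simp only
      rw [← Finset.sum_sub_distrib]
      have e3 : ∑ c ∈ SW m W l, ((r c : ℝ) * mass m N u c ω - ind (ω c = true) * mass m N u c ω)
          = Mt r (EdI m) (SW m W l) u ω * gN N (Kc (EdI m) ω u) := by
        rw [Mt_eq]
        exact Finset.sum_congr rfl fun c _ => by ring
      rw [e3]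
      exact mul_le_mul_of_nonneg_right (le_abs_self _) (gN_nonneg _ _)
  have hQ0 : 0 ≤ Q := by
    refine le_trans (integral_nonneg fun ω => ?_) hQ
    exact mul_nonneg (abs_nonneg _) (gN_nonneg _ _)
  rw [← ENNReal.ofReal_sum_of_nonneg (fun c _ => n1 c),
    ← ENNReal.ofReal_sum_of_nonneg (fun c _ => n2 c),
    ← ENNReal.ofReal_add (Finset.sum_nonneg fun c _ => n2 c) hQ0]
  exact ENNReal.ofReal_le_ofReal (by linarith)

/-- The two-ghost inequality, in terms of `Psi`. -/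
theorem mtp (hm : 1 ≤ m) {l N : ℕ} (hl : 2 ≤ l)
    (hfin : ∀ᵐ ω ∂(pm (prob (n := n) a p β s m)), ∀ z, (Kc (EdI m) ω z).Finite) {Q : ℝ}
    (hQ : ∀ (u : V n) (W : Finset (V n)),
      ∫ ω, |Mt (prob (n := n) a p β s m) (EdI m) (SW m W l) u ω| *
        gN N (Kc (EdI m) ω u) ∂(pm (prob (n := n) a p β s m)) ≤ Q) :
    ∑ k ∈ Finset.Ico l (2 * l), ∫ ω, ((prob (n := n) a p β s m (bd m 0 k) : ℝ) -
      ind (ω (bd m 0 k) = true)) * Psi (EdI m) N 0 (pt n k) ω
        ∂(pm (prob (n := n) a p β s m)) ≤ (m : ℝ) ^ n * Q := by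
  set r := prob (n := n) a p β s m with hr
  have hQ0 : 0 ≤ Q := by
    refine le_trans (integral_nonneg fun ω => ?_) (hQ 0 ∅)
    exact mul_nonneg (abs_nonneg _) (gN_nonneg _ _)
  -- sums over start vertices
  have hsum : ∀ (k : ℕ) (φ : Cfg n → ENNReal), Measurable φ →
      ∑' u : V n, ∫⁻ ω, φ ω * ENNReal.ofReal (mass m N u (bd m 0 k) ω) ∂(pm r) =
        ∫⁻ ω, φ ω * ENNReal.ofReal (Psi (EdI m) N 0 (pt n k) ω) ∂(pm r) := by
    intro k φ hφ
    have hm1 : ∀ u : V n, AEMeasurable (fun ω : Cfg n => φ ω *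
        ENNReal.ofReal (mass m N u (bd m 0 k) ω)) (pm r) := fun u =>
      (hφ.mul (meas_mass m N u (bd m 0 k)).ennreal_ofReal).aemeasurable
    have hm2 := lintegral_tsum (μ := pm r) (f := fun (u : V n) (ω : Cfg n) => φ ω *
        ENNReal.ofReal (mass m N u (bd m 0 k) ω)) hm1
    rw [← hm2]
    refine lintegral_congr_ae ?_
    filter_upwards [hfin] with ω hω
    rw [ENNReal.tsum_mul_left, bd_zero, mass_sum hω]
  have P1 : ∀ k, ∑' u : V n, hp a p β s m N u (bd m 0 k) = ∫⁻ ω, ENNReal.ofReal (r (bd m 0 k) : ℝ) *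
      ENNReal.ofReal (Psi (EdI m) N 0 (pt n k) ω) ∂(pm r) := fun k =>
    hsum k (fun _ => ENNReal.ofReal (r (bd m 0 k) : ℝ)) measurable_const
  have P2 : ∀ k, ∑' u : V n, hn a p β s m N u (bd m 0 k) =
      ∫⁻ ω, ENNReal.ofReal (ind (ω (bd m 0 k) = true)) *
      ENNReal.ofReal (Psi (EdI m) N 0 (pt n k) ω) ∂(pm r) := fun k =>
    hsum k (fun ω => ENNReal.ofReal (ind (ω (bd m 0 k) = true)))
      (meas_ind (meas_co _)).ennreal_ofReal
  -- transport
  have T1 : ∀ k, ∑' u : V n, hp a p β s m N u (bd m 0 k) =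
      ∑ j : Fin n → Fin m, ∑' w : V n, hp a p β s m N (rep j) (bd m w k) := fun k =>
    transport hm _ (fun z hz u c => hp_inv N z hz u c) k
  have T2 : ∀ k, ∑' u : V n, hn a p β s m N u (bd m 0 k) =
      ∑ j : Fin n → Fin m, ∑' w : V n, hn a p β s m N (rep j) (bd m w k) := fun k =>
    transport hm _ (fun z hz u c => hn_inv N z hz u c) k
  -- comparison
  have comp : ∀ j : Fin n → Fin m,
      ∑' w : V n, ∑ k ∈ Finset.Ico l (2 * l), hp a p β s m N (rep j) (bd m w k) ≤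
      ∑' w : V n, ∑ k ∈ Finset.Ico l (2 * l), hn a p β s m N (rep j) (bd m w k) +
        ENNReal.ofReal Q := by
    intro j
    rw [ENNReal.tsum_eq_iSup_sum]
    refine iSup_le fun W => ?_
    refine (flow_le hm hl W (rep j) (hQ (rep j) W)).trans ?_
    gcongr
    exact ENNReal.sum_le_tsum W
  have main : ∑ k ∈ Finset.Ico l (2 * l), ∑' u : V n, hp a p β s m N u (bd m 0 k) ≤
      ∑ k ∈ Finset.Ico l (2 * l), ∑' u : V n, hn a p β s m N u (bd m 0 k) +
        ENNReal.ofReal ((m : ℝ) ^ n * Q) := by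
    simp_rw [T1, T2]
    rw [Finset.sum_comm, Finset.sum_comm (s := Finset.Ico l (2 * l))]
    have c1 : ∀ j : Fin n → Fin m, ∑ k ∈ Finset.Ico l (2 * l),
        ∑' w : V n, hp a p β s m N (rep j) (bd m w k) ≤
        ∑ k ∈ Finset.Ico l (2 * l), ∑' w : V n, hn a p β s m N (rep j) (bd m w k) +
          ENNReal.ofReal Q := by
      intro j
      rw [← Summable.tsum_finsetSum (fun _ _ => ENNReal.summable),
        ← Summable.tsum_finsetSum (fun _ _ => ENNReal.summable)]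
      exact comp j
    refine (Finset.sum_le_sum fun j _ => c1 j).trans ?_
    rw [Finset.sum_add_distrib]
    gcongr
    rw [Finset.sum_const, Finset.card_univ, nsmul_eq_mul, ENNReal.ofReal_mul (by positivity)]
    gcongr
    rw [Fintype.card_fun, Fintype.card_fin, Fintype.card_fin, ENNReal.ofReal_pow (by positivity),
      ENNReal.ofReal_natCast]
    push_cast
    exact le_rfl
  simp_rw [P1, P2] at main
  -- back to real numbers
  have z0 : ∀ k ω, 0 ≤ Psi (EdI m) N (0 : V n) (pt n k) ω := fun k ω => Psi_nonneg _ _ _ _ _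
  have m1 : ∀ k, Measurable (fun ω : Cfg n => (r (bd m 0 k) : ℝ) *
      Psi (EdI m) N 0 (pt n k) ω) := fun k => (meas_Psi _ _ _ _).const_mul _
  have m2 : ∀ k, Measurable (fun ω : Cfg n => ind (ω (bd m 0 k) = true) *
      Psi (EdI m) N 0 (pt n k) ω) := fun k => (meas_ind (meas_co _)).mul (meas_Psi _ _ _ _)
  have z1 : ∀ k, ∀ ω : Cfg n, 0 ≤ (r (bd m 0 k) : ℝ) * Psi (EdI m) N 0 (pt n k) ω := fun k ω =>
    mul_nonneg (r _).2.1 (z0 k ω)
  have z2 : ∀ k, ∀ ω : Cfg n, 0 ≤ ind (ω (bd m 0 k) = true) * Psi (EdI m) N 0 (pt n k) ω :=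
    fun k ω => mul_nonneg (ind_nonneg _) (z0 k ω)
  have b1 : ∀ k, ∀ ω : Cfg n, (r (bd m 0 k) : ℝ) * Psi (EdI m) N 0 (pt n k) ω ≤ 2 := fun k ω => by
    calc (r (bd m 0 k) : ℝ) * Psi (EdI m) N 0 (pt n k) ω ≤ 1 * Psi (EdI m) N 0 (pt n k) ω :=
          mul_le_mul_of_nonneg_right (r _).2.2 (z0 k ω)
      _ ≤ 2 := by rw [one_mul]; exact Psi_le _ _ _ _ _
  have b2 : ∀ k, ∀ ω : Cfg n, ind (ω (bd m 0 k) = true) * Psi (EdI m) N 0 (pt n k) ω ≤ 2 :=
    fun k ω => by
    calc ind (ω (bd m 0 k) = true) * Psi (EdI m) N 0 (pt n k) ω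
        ≤ 1 * Psi (EdI m) N 0 (pt n k) ω :=
          mul_le_mul_of_nonneg_right (ind_le_one _) (z0 k ω)
      _ ≤ 2 := by rw [one_mul]; exact Psi_le _ _ _ _ _
  have e1 : ∀ k, ∫⁻ ω, ENNReal.ofReal (r (bd m 0 k) : ℝ) *
      ENNReal.ofReal (Psi (EdI m) N 0 (pt n k) ω) ∂(pm r) =
      ENNReal.ofReal (∫ ω, (r (bd m 0 k) : ℝ) * Psi (EdI m) N 0 (pt n k) ω ∂(pm r)) := by
    intro k
    rw [← int_of_lint (m1 k) 2 (z1 k) (b1 k)]
    refine lintegral_congr fun ω => ?_
    rw [ENNReal.ofReal_mul (r _).2.1]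
  have e2 : ∀ k, ∫⁻ ω, ENNReal.ofReal (ind (ω (bd m 0 k) = true)) *
      ENNReal.ofReal (Psi (EdI m) N 0 (pt n k) ω) ∂(pm r) =
      ENNReal.ofReal (∫ ω, ind (ω (bd m 0 k) = true) * Psi (EdI m) N 0 (pt n k) ω ∂(pm r)) := by
    intro k
    rw [← int_of_lint (m2 k) 2 (z2 k) (b2 k)]
    refine lintegral_congr fun ω => ?_
    rw [ENNReal.ofReal_mul (ind_nonneg _)]
  simp_rw [e1, e2] at main
  have i1 : ∀ k, Integrable (fun ω : Cfg n => (r (bd m 0 k) : ℝ) *
      Psi (EdI m) N 0 (pt n k) ω) (pm r) := fun k =>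
    int_bdd r (m1 k) 2 fun ω => by rw [abs_of_nonneg (z1 k ω)]; exact b1 k ω
  have i2 : ∀ k, Integrable (fun ω : Cfg n => ind (ω (bd m 0 k) = true) *
      Psi (EdI m) N 0 (pt n k) ω) (pm r) := fun k =>
    int_bdd r (m2 k) 2 fun ω => by rw [abs_of_nonneg (z2 k ω)]; exact b2 k ω
  have n1 : ∀ k, 0 ≤ ∫ ω, (r (bd m 0 k) : ℝ) * Psi (EdI m) N 0 (pt n k) ω ∂(pm r) := fun k =>
    integral_nonneg (z1 k)
  have n2 : ∀ k, 0 ≤ ∫ ω, ind (ω (bd m 0 k) = true) * Psi (EdI m) N 0 (pt n k) ω ∂(pm r) :=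
    fun k => integral_nonneg (z2 k)
  have hmQ : 0 ≤ (m : ℝ) ^ n * Q := by positivity
  rw [← ENNReal.ofReal_sum_of_nonneg (fun k _ => n1 k),
    ← ENNReal.ofReal_sum_of_nonneg (fun k _ => n2 k),
    ← ENNReal.ofReal_add (Finset.sum_nonneg fun k _ => n2 k) hmQ,
    ENNReal.ofReal_le_ofReal_iff (add_nonneg (Finset.sum_nonneg fun k _ => n2 k) hmQ)] at main
  have e3 : ∀ k, ∫ ω, ((r (bd m 0 k) : ℝ) - ind (ω (bd m 0 k) = true)) *
      Psi (EdI m) N 0 (pt n k) ω ∂(pm r) =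
      ∫ ω, (r (bd m 0 k) : ℝ) * Psi (EdI m) N 0 (pt n k) ω ∂(pm r) -
      ∫ ω, ind (ω (bd m 0 k) = true) * Psi (EdI m) N 0 (pt n k) ω ∂(pm r) := by
    intro k
    rw [← integral_sub (i1 k) (i2 k)]
    congr 1
    funext ω
    ring
  simp_rw [e3]
  rw [Finset.sum_sub_distrib]
  linarith

end transport

end

end Pool.Agent.Y990.PL
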