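import Pool.Agent.Y990.PL.SecMom

set_option autoImplicit false

/-!
Statements for the near-critical window.
-/

namespace Pool.Agent.Y990.PL

open Finset H974

/-- An exploration in which every open explored element enlarges the cluster. -/
structure ExplG {E W : Type} [DecidableEq E] (S : Finset E) (C : Finset E → Set W)
    (t : E → Set W → Prop) : Prop where
  mono : ∀ A B, A ⊆ B → C A ⊆ C B
  stop : ∀ A B, A ⊆ B → B ⊆ S → (∀ e ∈ B, e ∉ A → ¬ t e (C A)) → C B = C A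
  grow : ∀ A e, A ⊆ S → e ∈ S → e ∉ A → t e (C A) →
    (C A).encard + 1 ≤ (C (insert e A)).encard

/-- SECA: Cauchy-Schwarz for the exploration, growth version. -/
def S_secA : Prop := ∀ (E W : Type) [DecidableEq E] (S : Finset E) (p : E → ℝ)
  (C : Finset E → Set W) (t : E → Set W → Prop), Ok p → ExplG S C t → ∀ T : ℕ,
  Ex p S (fun A => ind ((T : ℕ∞) ≤ (C A).encard) * ∑ e ∈ S, (ind (e ∈ A) - p e)) ≤
    √(Ex p S (fun A => ind ((T : ℕ∞) ≤ (C A).encard))) *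
      √(Ex p S (fun A => (sz T (C A) : ℝ)))

/-- SECB: Cauchy-Schwarz for the exploration, bounded weight version. -/
def S_secB : Prop := ∀ (E W : Type) [DecidableEq E] (S : Finset E) (p : E → ℝ) (v : ℝ)
  (C : Finset E → Set W) (t : E → Set W → Prop), Ok p → Expl S p v C t → 0 ≤ v → ∀ T : ℕ,
  Ex p S (fun A => ind ((T : ℕ∞) ≤ (C A).encard) * ∑ e ∈ S, (ind (e ∈ A) - p e)) ≤
    √(Ex p S (fun A => ind ((T : ℕ∞) ≤ (C A).encard))) *
      √(v * Ex p S (fun A => (sz T (C A) : ℝ)))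

/-- GRON: a Gronwall estimate for power laws in a window of size `N^(-1/2)`. -/
def S_gron : Prop := ∀ (κ K : ℝ), 0 < κ → κ < 1 / 2 → 0 < K → ∃ c : ℝ, 0 < c ∧
  ∀ (N : ℕ) (g : ℕ → ℝ → ℝ) (C0 a b : ℝ), 1 ≤ N → 0 < C0 → a ≤ b →
  b - a ≤ c * (N : ℝ) ^ (-(1 / 2 : ℝ)) → (∀ t u, 0 ≤ g t u) →
  (∀ t : ℕ, 1 ≤ t → t ≤ N → ∀ u ∈ Set.Icc a b, ∃ D : ℝ, HasDerivAt (g t) D u ∧
    D ≤ K * √(g t u) * √(∑ t' ∈ Finset.Icc 1 t, g t' u)) →
  (∀ t : ℕ, 1 ≤ t → t ≤ N → g t a ≤ C0 * (t : ℝ) ^ (-κ)) →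
  ∀ t : ℕ, 1 ≤ t → t ≤ N → g t b ≤ 2 * C0 * (t : ℝ) ^ (-κ)

end Pool.Agent.Y990.PL
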