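import Pool.Agent.Y990.PL.Unif
import Pool.Agent.Y990.PL.Stm3

set_option autoImplicit false

open MeasureTheory Set Filter
open scoped Topology

/-!
Derivative of the tail of the cluster size.
-/

namespace Pool.Agent.Y990.PL

open Pool.Agent.W783.PC
open Pool.Agent.W424.PC (upd upd_self upd_ne upd_of measurable_upd Piv russo_pm EE I1 pm_eq_EE)
open H974 (ind ind_of ind_not_of ind_nonneg ind_le_one ind_congr Ok Ex)

noncomputable section

/-! ### Covariances -/

section cov

variable {ι : Type}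

lemma meas_coI (c : ι) : MeasurableSet {ω : ι → Bool | ω c = true} :=
  Pool.Agent.W424.PC.meas_coord c true

lemma piv_cov (r : ι → unitInterval) (c : ι) {A : Set (ι → Bool)} (hA : MeasurableSet A)
    (uA : Inc A) : (r c : ℝ) * (1 - r c) * (pm r).real (Piv A c) =
      ∫ ω, ind (ω ∈ A) * (ind (ω c = true) - r c) ∂(pm r) := by
  have a0 : (0 : ℝ) ≤ r c := (r c).2.1
  have a1 : (r c : ℝ) ≤ 1 := (r c).2.2
  have mI : Measurable (fun ω : ι → Bool => ind (ω ∈ A)) := meas_ind hA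
  have mf : Measurable (fun ω : ι → Bool => ind (ω ∈ A) * (ind (ω c = true) - r c)) :=
    mI.mul ((meas_ind (meas_coI c)).sub measurable_const)
  have bf : ∀ ω : ι → Bool, |ind (ω ∈ A) * (ind (ω c = true) - r c)| ≤ 1 := by
    intro ω
    rw [abs_mul, abs_of_nonneg (ind_nonneg _)]
    have h2 : |ind (ω c = true) - (r c : ℝ)| ≤ 1 := by
      rw [abs_le]
      have a3 := ind_nonneg (ω c = true)
      have a4 := ind_le_one (ω c = true)
      constructor <;> linarith
    calc ind (ω ∈ A) * |ind (ω c = true) - (r c : ℝ)| ≤ 1 * 1 :=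
          mul_le_mul (ind_le_one _) h2 (abs_nonneg _) zero_le_one
      _ = 1 := one_mul 1
  rw [int_split r c mf 1 bf]
  have e1 : ∀ ω : ι → Bool, ind (upd c true ω ∈ A) * (ind (upd c true ω c = true) - (r c : ℝ)) =
      (1 - (r c : ℝ)) * ind (upd c true ω ∈ A) := by
    intro ω
    rw [upd_self, ind_of (show (true : Bool) = true from rfl)]; ring
  have e0 : ∀ ω : ι → Bool, ind (upd c false ω ∈ A) *
      (ind (upd c false ω c = true) - (r c : ℝ)) = -(r c : ℝ) * ind (upd c false ω ∈ A) := by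
    intro ω
    rw [upd_self, ind_not_of (show ¬ ((false : Bool) = true) by simp)]; ring
  simp_rw [e1, e0]
  rw [integral_const_mul, integral_const_mul]
  have ib : ∀ b, Integrable (fun ω => ind (upd c b ω ∈ A)) (pm r) := fun b =>
    int_bdd r (mI.comp (measurable_upd c b)) 1 fun ω => by
      rw [abs_of_nonneg (ind_nonneg _)]; exact ind_le_one _
  have mP : MeasurableSet (Piv A c) :=
    (measurable_upd c true hA).inter (measurable_upd c false hA).compl
  have key : (pm r).real (Piv A c) = ∫ ω, ind (upd c true ω ∈ A) ∂(pm r) -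
      ∫ ω, ind (upd c false ω ∈ A) ∂(pm r) := by
    have hPi : (pm r).real (Piv A c) = ∫ ω, ind (ω ∈ Piv A c) ∂(pm r) := (int_ind r mP).symm
    rw [← integral_sub (ib true) (ib false), hPi]
    congr 1
    funext ω
    by_cases h1 : upd c true ω ∈ A
    · by_cases h0 : upd c false ω ∈ A
      · rw [ind_of h1, ind_of h0, ind_not_of (fun h : ω ∈ Piv A c => h.2 h0)]; ring
      · rw [ind_of h1, ind_not_of h0, ind_of (show ω ∈ Piv A c from ⟨h1, h0⟩)]; ring
    · have h0 : upd c false ω ∉ A := fun h => h1 (Pool.Agent.W424.PC.inc_upd uA c ω h)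
      rw [ind_not_of h1, ind_not_of h0, ind_not_of (fun h : ω ∈ Piv A c => h1 h.1)]; ring
  rw [key]
  ring

end cov

variable {n : ℕ}

/-- Cauchy-Schwarz after resampling the coordinates of `S`. -/
lemma cs_bound (r : Ix n → unitInterval) (S : Finset (Ix n)) {C : Cfg n → Set (V n)}
    (hC : ∀ y, MeasurableSet {ω | y ∈ C ω}) (T : ℕ) {v : ℝ} (hv : 0 ≤ v)
    (hsec : ∀ ω, Ex (fun c => (r c : ℝ)) S (fun F => ind ((T : ℕ∞) ≤ (C (put S F ω)).encard) *
      ∑ c ∈ S, (ind (c ∈ F) - (r c : ℝ))) ≤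
      √(Ex (fun c => (r c : ℝ)) S (fun F => ind ((T : ℕ∞) ≤ (C (put S F ω)).encard))) *
      √(v * Ex (fun c => (r c : ℝ)) S (fun F => (sz T (C (put S F ω)) : ℝ)))) :
    ∫ ω, ind ((T : ℕ∞) ≤ (C ω).encard) * ∑ c ∈ S, (ind (ω c = true) - (r c : ℝ)) ∂(pm r) ≤
      √((pm r).real {ω | (T : ℕ∞) ≤ (C ω).encard}) *
        √(v * ∑ t ∈ Finset.Icc 1 T, (pm r).real {ω | (t : ℕ∞) ≤ (C ω).encard}) := by
  classical
  have hok : Ok (fun c => (r c : ℝ)) := fun c => ⟨(r c).2.1, (r c).2.2⟩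
  have mB : ∀ t : ℕ, MeasurableSet {ω | (t : ℕ∞) ≤ (C ω).encard} := fun t =>
    meas_le_encard hC t
  have mI : Measurable (fun ω => ind ((T : ℕ∞) ≤ (C ω).encard)) := meas_ind (mB T)
  have mS : Measurable (fun ω => (sz T (C ω) : ℝ)) :=
    (measurable_from_top (f := fun k : ℕ => (k : ℝ))).comp (meas_sz hC T)
  have mf : Measurable (fun ω : Cfg n => ind ((T : ℕ∞) ≤ (C ω).encard) *
      ∑ c ∈ S, (ind (ω c = true) - (r c : ℝ))) :=
    mI.mul (Finset.measurable_sum _ fun c _ => (meas_ind (meas_co c)).sub measurable_const)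
  have bI : ∀ ω, |ind ((T : ℕ∞) ≤ (C ω).encard)| ≤ 1 := fun ω => by
    rw [abs_of_nonneg (ind_nonneg _)]; exact ind_le_one _
  have bS : ∀ ω, |(sz T (C ω) : ℝ)| ≤ T := fun ω => by
    rw [abs_of_nonneg (Nat.cast_nonneg _)]
    exact_mod_cast sz_le T _
  have bf : ∀ ω : Cfg n, |ind ((T : ℕ∞) ≤ (C ω).encard) *
      ∑ c ∈ S, (ind (ω c = true) - (r c : ℝ))| ≤ S.card := by
    intro ω
    rw [abs_mul]
    have h1 : |∑ c ∈ S, (ind (ω c = true) - (r c : ℝ))| ≤ S.card := by
      refine (Finset.abs_sum_le_sum_abs _ _).trans ?_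
      have : ∀ c ∈ S, |ind (ω c = true) - (r c : ℝ)| ≤ 1 := by
        intro c _
        rw [abs_le]
        have a1 := (r c).2.1
        have a2 := (r c).2.2
        have a3 := ind_nonneg (ω c = true)
        have a4 := ind_le_one (ω c = true)
        constructor <;> linarith
      have h2 := Finset.sum_le_sum this
      rw [Finset.sum_const, nsmul_eq_mul, mul_one] at h2
      exact h2
    calc |ind ((T : ℕ∞) ≤ (C ω).encard)| * |∑ c ∈ S, (ind (ω c = true) - (r c : ℝ))|
        ≤ 1 * S.card := mul_le_mul (bI ω) h1 (abs_nonneg _) zero_le_one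
      _ = _ := one_mul _
  -- the three resampled integrals
  set F1 : Cfg n → ℝ := fun ω => Ex (fun c => (r c : ℝ)) S
    (fun F => ind ((T : ℕ∞) ≤ (C (put S F ω)).encard)) with hF1
  set F2 : Cfg n → ℝ := fun ω => Ex (fun c => (r c : ℝ)) S
    (fun F => (sz T (C (put S F ω)) : ℝ)) with hF2
  have mF1 : Measurable F1 := measurable_Ex _ mI S
  have mF2 : Measurable F2 := measurable_Ex _ mS S
  have b1 : ∀ ω, |F1 ω| ≤ 1 := fun ω => Ex_bdd hok fun A => bI _
  have b2 : ∀ ω, |F2 ω| ≤ T := fun ω => Ex_bdd hok fun A => bS _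
  have n1 : ∀ ω, 0 ≤ F1 ω := fun ω => by
    have := H974.Ex_mono hok (S := S) (f := fun _ => (0 : ℝ))
      (g := fun F => ind ((T : ℕ∞) ≤ (C (put S F ω)).encard)) (fun A _ => ind_nonneg _)
    rwa [H974.Ex_const] at this
  have n2 : ∀ ω, 0 ≤ F2 ω := fun ω => by
    have := H974.Ex_mono hok (S := S) (f := fun _ => (0 : ℝ))
      (g := fun F => (sz T (C (put S F ω)) : ℝ)) (fun A _ => Nat.cast_nonneg _)
    rwa [H974.Ex_const] at this
  have i1 : ∫ ω, F1 ω ∂(pm r) = (pm r).real {ω | (T : ℕ∞) ≤ (C ω).encard} := by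
    rw [← int_ind r (mB T), int_resample r S mI 1 bI]
  have i2 : ∫ ω, F2 ω ∂(pm r) =
      ∑ t ∈ Finset.Icc 1 T, (pm r).real {ω | (t : ℕ∞) ≤ (C ω).encard} := by
    rw [hF2, ← int_resample r S mS T bS]
    have h1 : (fun ω : Cfg n => (sz T (C ω) : ℝ)) =
        fun ω => ∑ t ∈ Finset.Icc 1 T, ind ((t : ℕ∞) ≤ (C ω).encard) := by
      funext ω
      exact sz_eq_sum T _
    rw [h1, integral_finsetSum]
    · exact Finset.sum_congr rfl fun t _ => int_ind r (mB t)
    · exact fun t _ => int_bdd r (meas_ind (mB t)) 1 fun ω => by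
        rw [abs_of_nonneg (ind_nonneg _)]; exact ind_le_one _
  rw [int_resample r S mf _ bf]
  have h3 : ∀ ω, Ex (fun c => (r c : ℝ)) S (fun F => ind ((T : ℕ∞) ≤ (C (put S F ω)).encard) *
      ∑ c ∈ S, (ind (put S F ω c = true) - (r c : ℝ))) ≤ √(F1 ω) * √(v * F2 ω) := by
    intro ω
    refine le_trans (le_of_eq ?_) (hsec ω)
    apply H974.Ex_congr
    intro A hA
    congr 1
    refine Finset.sum_congr rfl fun c hc => ?_
    rw [ind_congr (put_mem hc)]
  have m3 : Measurable (fun ω => Ex (fun c => (r c : ℝ)) S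
      (fun F => ind ((T : ℕ∞) ≤ (C (put S F ω)).encard) *
      ∑ c ∈ S, (ind (put S F ω c = true) - (r c : ℝ)))) := measurable_Ex _ mf S
  have mG1 : Measurable (fun ω => √(F1 ω)) := mF1.sqrt
  have mG2 : Measurable (fun ω => √(v * F2 ω)) := (mF2.const_mul v).sqrt
  have hT0 : (0 : ℝ) ≤ v * T := mul_nonneg hv (Nat.cast_nonneg _)
  have bG1 : ∀ ω, |√(F1 ω)| ≤ 1 := fun ω => by
    rw [abs_of_nonneg (Real.sqrt_nonneg _)]
    exact Real.sqrt_le_one.2 ((le_abs_self _).trans (b1 ω))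
  have bG2 : ∀ ω, |√(v * F2 ω)| ≤ √(v * T) := fun ω => by
    rw [abs_of_nonneg (Real.sqrt_nonneg _)]
    exact Real.sqrt_le_sqrt (mul_le_mul_of_nonneg_left ((le_abs_self _).trans (b2 ω)) hv)
  refine le_trans (integral_mono (int_bdd r m3 _ fun ω => Ex_bdd hok fun A => bf _)
    (g := fun ω => √(F1 ω) * √(v * F2 ω)) ?_ h3) ?_
  · refine int_bdd r (mG1.mul mG2) (1 * √(v * T)) fun ω => ?_
    rw [abs_mul]
    exact mul_le_mul (bG1 ω) (bG2 ω) (abs_nonneg _) zero_le_one
  · -- the integral inequality of Cauchy and Schwarz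
    set X := ∫ ω, F1 ω ∂(pm r) with hX
    set Y := ∫ ω, F2 ω ∂(pm r) with hY
    have iF1 : Integrable F1 (pm r) := int_bdd r mF1 1 b1
    have iF2 : Integrable F2 (pm r) := int_bdd r mF2 T b2
    have hX0 : 0 ≤ X := integral_nonneg n1
    have hY0 : 0 ≤ Y := integral_nonneg n2
    have hvY0 : 0 ≤ v * Y := mul_nonneg hv hY0
    have iG : Integrable (fun ω => √(F1 ω) * √(v * F2 ω)) (pm r) := by
      refine int_bdd r (mG1.mul mG2) (1 * √(v * T)) fun ω => ?_
      rw [abs_mul]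
      exact mul_le_mul (bG1 ω) (bG2 ω) (abs_nonneg _) zero_le_one
    rw [← i1, ← i2]
    -- `2 sqrt(f g) ≤ lam f + g / lam`
    have hlam : ∀ lam : ℝ, 0 < lam → ∫ ω, √(F1 ω) * √(v * F2 ω) ∂(pm r) ≤
        (lam * X + lam⁻¹ * (v * Y)) / 2 := by
      intro lam hlam
      have h4 : ∀ ω, √(F1 ω) * √(v * F2 ω) ≤ (lam / 2) * F1 ω + (lam⁻¹ / 2 * v) * F2 ω := by
        intro ω
        have p1 : √(F1 ω) ^ 2 = F1 ω := Real.sq_sqrt (n1 ω)
        have p2 : √(v * F2 ω) ^ 2 = v * F2 ω := Real.sq_sqrt (mul_nonneg hv (n2 ω))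
        have p3 : 0 ≤ (√lam * √(F1 ω) - (√lam)⁻¹ * √(v * F2 ω)) ^ 2 := sq_nonneg _
        have p4 : √lam * (√lam)⁻¹ = 1 := mul_inv_cancel₀ (Real.sqrt_pos.2 hlam).ne'
        have p5 : √lam ^ 2 = lam := Real.sq_sqrt hlam.le
        have p6 : (√lam)⁻¹ ^ 2 = lam⁻¹ := by rw [inv_pow, p5]
        have p7 : (√lam * √(F1 ω) - (√lam)⁻¹ * √(v * F2 ω)) ^ 2 =
            lam * F1 ω + lam⁻¹ * (v * F2 ω) - 2 * (√(F1 ω) * √(v * F2 ω)) := by
          calc (√lam * √(F1 ω) - (√lam)⁻¹ * √(v * F2 ω)) ^ 2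
              = √lam ^ 2 * √(F1 ω) ^ 2 + (√lam)⁻¹ ^ 2 * √(v * F2 ω) ^ 2 -
                2 * (√lam * (√lam)⁻¹) * (√(F1 ω) * √(v * F2 ω)) := by ring
            _ = _ := by rw [p1, p2, p4, p5, p6]; ring
        rw [p7] at p3
        linarith
      refine (integral_mono iG (g := fun ω => (lam / 2) * F1 ω + (lam⁻¹ / 2 * v) * F2 ω)
        ((iF1.const_mul _).add (iF2.const_mul _)) h4).trans (le_of_eq ?_)
      rw [integral_add (iF1.const_mul _) (iF2.const_mul _), integral_const_mul,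
        integral_const_mul]
      ring
    rcases hX0.eq_or_lt with hx | hx
    · -- `X = 0`
      rw [← hx, Real.sqrt_zero, zero_mul]
      refine le_of_forall_pos_le_add fun ε hε => ?_
      have h5 := hlam ((v * Y + 1) / ε) (by positivity)
      rw [← hx, mul_zero, zero_add, inv_div] at h5
      refine h5.trans ?_
      rw [zero_add, div_mul_eq_mul_div, div_div, div_le_iff₀ (by positivity)]
      nlinarith
    · rcases hvY0.eq_or_lt with hy | hy
      · rw [← hy, Real.sqrt_zero, mul_zero]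
        refine le_of_forall_pos_le_add fun ε hε => ?_
        have h5 := hlam (ε / X) (by positivity)
        rw [← hy, mul_zero, add_zero, div_mul_cancel₀ _ hx.ne'] at h5
        linarith
      · have h5 := hlam (√(v * Y) / √X) (div_pos (Real.sqrt_pos.2 hy) (Real.sqrt_pos.2 hx))
        have q1 : √X ^ 2 = X := Real.sq_sqrt hx.le
        have q2 : √(v * Y) ^ 2 = v * Y := Real.sq_sqrt hy.le
        have q3 : 0 < √X := Real.sqrt_pos.2 hx
        have q4 : 0 < √(v * Y) := Real.sqrt_pos.2 hy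
        have q5 : √(v * Y) / √X * X = √X * √(v * Y) := by
          rw [div_mul_eq_mul_div, div_eq_iff q3.ne']
          calc √(v * Y) * X = √(v * Y) * √X ^ 2 := by rw [q1]
            _ = _ := by ring
        have q6 : (√(v * Y) / √X)⁻¹ * (v * Y) = √X * √(v * Y) := by
          rw [inv_div, div_mul_eq_mul_div, div_eq_iff q4.ne']
          calc √X * (v * Y) = √X * √(v * Y) ^ 2 := by rw [q2]
            _ = _ := by ring
        rw [q5, q6] at h5
        linarith

/-! ### The cluster in a box -/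

/-- The cluster of `x` inside the box, empty when `x` is closed. -/
def Ko (E : Set (Sym2 (V n))) (k : ℕ) (x : V n) (ω : Cfg n) : Set (V n) :=
  {y | ω (Sum.inl x) = true ∧ (G E ω (Rg n k)).Reachable x y}

/-- This cluster has at least `t` vertices. -/
def BigO (E : Set (Sym2 (V n))) (k t : ℕ) (x : V n) : Set (Cfg n) :=
  {ω | (t : ℕ∞) ≤ (Ko E k x ω).encard}

lemma meas_Ko (E : Set (Sym2 (V n))) (k : ℕ) (x y : V n) :
    MeasurableSet {ω | y ∈ Ko E k x ω} :=
  (meas_co _).inter (Pool.Agent.W975.PC.s_reach_meas n E (Rg n k) x y)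

lemma Ko_mono {E : Set (Sym2 (V n))} {k : ℕ} {x : V n} {ω ω' : Cfg n}
    (h : ∀ c, ω c = true → ω' c = true) : Ko E k x ω ⊆ Ko E k x ω' := fun _ hy =>
  ⟨h _ hy.1, SimpleGraph.Reachable.mono (G_mono_cfg h _) hy.2⟩

lemma BigO_inc (E : Set (Sym2 (V n))) (k t : ℕ) (x : V n) : Inc (BigO E k t x) := by
  intro ω ω' h hω
  exact le_trans hω (Set.encard_le_encard (Ko_mono h))

lemma BigO_dep (E : Set (Sym2 (V n))) (k t : ℕ) {x : V n} (hx : x ∈ Rg n k) :
    DepOn (BigO E k t x) (Cf n k : Set (Ix n)) := by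
  intro ω ω' h
  have h0 : ω (Sum.inl x) = ω' (Sum.inl x) := by
    apply h
    unfold Cf
    rw [Set.Finite.coe_toFinset]
    exact Or.inl ⟨x, hx, rfl⟩
  have : Ko E k x ω = Ko E k x ω' := by
    ext y
    unfold Ko
    rw [mem_ofPred_eq, mem_ofPred_eq, h0]
    have h1 : (G E ω (Rg n k)).Reachable x y ↔ (G E ω' (Rg n k)).Reachable x y :=
      ConR_dep E k x y ω ω' h
    rw [h1]
  unfold BigO
  rw [mem_ofPred_eq, mem_ofPred_eq, this]

lemma BigO_meas (E : Set (Sym2 (V n))) (k t : ℕ) (x : V n) : MeasurableSet (BigO E k t x) :=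
  meas_le_encard (fun y => meas_Ko E k x y) t

lemma BigO_sub (E : Set (Sym2 (V n))) (k t : ℕ) (x : V n) : BigO E k t x ⊆ Big E t x := by
  intro ω hω
  refine le_trans hω (Set.encard_le_encard fun y hy => ?_)
  exact cl_monoR (subset_univ _) x hy.2

lemma BigR_sub (E : Set (Sym2 (V n))) (k : ℕ) {t : ℕ} (ht : 2 ≤ t) (x : V n) :
    BigR E k t x ⊆ BigO E k t x := by
  intro ω hω
  have hop : ω (Sum.inl x) = true :=
    open_of_Big (E := E) ht (by rw [Big_iUnion, mem_iUnion]; exact ⟨k, hω⟩)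
  exact le_trans hω (Set.encard_le_encard fun y hy =>
    (show y ∈ Ko E k x ω from ⟨hop, hy⟩))

/-- Vertices of the cluster are open. -/
lemma Ko_open {E : Set (Sym2 (V n))} {k : ℕ} {x y : V n} {ω : Cfg n} (h : y ∈ Ko E k x ω) :
    ω (Sum.inl y) = true := by
  obtain ⟨h0, h1⟩ := h
  rw [SimpleGraph.reachable_iff_reflTransGen] at h1
  rcases Relation.ReflTransGen.cases_tail h1 with h2 | ⟨z, _, h2⟩
  · rw [h2]; exact h0
  · exact h2.2.2.2.2.2.1

open scoped Classical in
/-- The sites of the box. -/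
def Sites (n k : ℕ) : Finset (Ix n) := (Rg_fin (n := n) k).toFinset.image Sum.inl

lemma mem_Sites {k : ℕ} {v : V n} : (Sum.inl v : Ix n) ∈ Sites n k ↔ v ∈ Rg n k := by
  classical
  unfold Sites
  rw [Finset.mem_image]
  constructor
  · rintro ⟨a, ha, h⟩
    rw [Sum.inl.inj h] at ha
    rwa [Set.Finite.mem_toFinset] at ha
  · intro h
    exact ⟨v, by rwa [Set.Finite.mem_toFinset], rfl⟩

lemma inr_Sites {k : ℕ} {e : Sym2 (V n)} : (Sum.inr e : Ix n) ∉ Sites n k := by
  classical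
  unfold Sites
  rw [Finset.mem_image]
  rintro ⟨a, _, h⟩
  cases h

/-- The exploration of the cluster by its sites. -/
lemma explG {E : Set (Sym2 (V n))} {k : ℕ} {x : V n} (hx : x ∈ Rg n k) (ω : Cfg n) :
    ExplG (Sites n k) (fun A => Ko E k x (put (Sites n k) A ω))
      (fun c X => (c = Sum.inl x ∧ X = ∅) ∨ ∃ v : V n, c = Sum.inl v ∧ v ∉ X ∧ v ∈ Rg n k ∧
        ∃ y ∈ X, y ≠ v ∧ s(y, v) ∈ E ∧ ω (Sum.inr s(y, v)) = true) := by
  classical
  set S := Sites n k with hS
  have hbond : ∀ (A : Finset (Ix n)) (e : Sym2 (V n)), put S A ω (Sum.inr e) = ω (Sum.inr e) :=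
    fun A e => put_not inr_Sites
  have hsite : ∀ (A : Finset (Ix n)) (v : V n), v ∈ Rg n k →
      (put S A ω (Sum.inl v) = true ↔ Sum.inl v ∈ A) := fun A v hv =>
    put_mem (mem_Sites.2 hv)
  have hR : ∀ (A : Finset (Ix n)) (y : V n), y ∈ Ko E k x (put S A ω) → y ∈ Rg n k :=
    fun A y hy => Pool.Agent.W230.PCBig.reach_mem hx hy.2
  have hxA : ∀ A : Finset (Ix n), (Sum.inl x : Ix n) ∈ A → x ∈ Ko E k x (put S A ω) :=
    fun A h => ⟨(hsite A x hx).2 h, SimpleGraph.Reachable.refl _⟩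
  have hne : ∀ (A : Finset (Ix n)) (y : V n), y ∈ Ko E k x (put S A ω) →
      (Sum.inl x : Ix n) ∈ A := fun A y hy => (hsite A x hx).1 hy.1
  refine ⟨?_, ?_, ?_⟩
  · intro A B hAB
    exact Ko_mono (put_le hAB ω)
  · intro A B hAB hBS hstop
    apply Set.Subset.antisymm _ (Ko_mono (put_le hAB ω))
    by_cases h0 : (Sum.inl x : Ix n) ∈ A
    · rintro y ⟨hy0, hy⟩
      rw [SimpleGraph.reachable_iff_reflTransGen] at hy
      induction hy with
      | refl => exact hxA A h0
      | tail _ hab ih =>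
        rename_i a b _
        obtain ⟨h1, h2, h3, h4, h5, h6, h7⟩ := hab
        by_contra hb
        have hB : (Sum.inl b : Ix n) ∈ B := (hsite B b h3).1 h6
        have hA : (Sum.inl b : Ix n) ∈ A := by
          by_contra hnA
          refine hstop _ hB hnA (Or.inr ⟨b, rfl, hb, h3, a, ih, h1, h4, ?_⟩)
          rwa [hbond] at h7
        apply hb
        refine ⟨ih.1, ih.2.trans (SimpleGraph.Adj.reachable ?_)⟩
        refine ⟨h1, h2, h3, h4, Ko_open ih, (hsite A b h3).2 hA, ?_⟩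
        rw [hbond] at h7 ⊢
        exact h7
    · have hemp : Ko E k x (put S A ω) = ∅ := by
        ext y
        simp only [mem_empty_iff_false, iff_false]
        exact fun hy => h0 (hne A y hy)
      intro y hy
      exfalso
      have hB : (Sum.inl x : Ix n) ∈ B := hne B y hy
      exact hstop _ hB h0 (Or.inl ⟨rfl, hemp⟩)
  · intro A c hAS hcS hcA ht
    rcases ht with ⟨rfl, hemp⟩ | ⟨v, rfl, hv, hvR, y, hy, hyv, hE, ho⟩
    · rw [hemp, Set.encard_empty, zero_add, Set.one_le_encard_iff_nonempty]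
      exact ⟨x, hxA _ (Finset.mem_insert_self _ _)⟩
    · have h1 : insert v (Ko E k x (put S A ω)) ⊆
          Ko E k x (put S (insert (Sum.inl v) A) ω) := by
        have hsub : Ko E k x (put S A ω) ⊆ Ko E k x (put S (insert (Sum.inl v) A) ω) :=
          Ko_mono (put_le (Finset.subset_insert _ _) ω)
        rw [Set.insert_subset_iff]
        refine ⟨?_, hsub⟩
        have hy' := hsub hy
        refine ⟨hy'.1, hy'.2.trans (SimpleGraph.Adj.reachable ?_)⟩
        refine ⟨hyv, hR _ _ hy', hvR, hE, Ko_open hy', (hsite _ v hvR).2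
          (Finset.mem_insert_self _ _), ?_⟩
        rw [hbond]; exact ho
      have h2 := Set.encard_le_encard h1
      rwa [Set.encard_insert_of_notMem hv] at h2

/-- Derivative of the tail with respect to the density of sites. -/
theorem deriv_site (hsec : S_secA) (a p : unitInterval) (β : NNReal) (s : ℝ) (m k t : ℕ) :
    (a : ℝ) * (1 - a) * ∑ c ∈ Sites n k,
      (pm (prob (n := n) a p β s m)).real (Piv (BigO (EdI m) k t 0) c) ≤
      √((pm (prob (n := n) a p β s m)).real (BigO (EdI m) k t 0)) *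
      √(∑ t' ∈ Finset.Icc 1 t, (pm (prob (n := n) a p β s m)).real (BigO (EdI m) k t' 0)) := by
  classical
  set r := prob (n := n) a p β s m with hr
  have h0 : (0 : V n) ∈ Rg n k := Pool.Agent.W230.PCBig.zero_mem_CB k k
  have hok : Ok (fun c => (r c : ℝ)) := fun c => ⟨(r c).2.1, (r c).2.2⟩
  have e1 : (a : ℝ) * (1 - a) * ∑ c ∈ Sites n k, (pm r).real (Piv (BigO (EdI m) k t 0) c) =
      ∫ ω, ind ((t : ℕ∞) ≤ (Ko (EdI m) k 0 ω).encard) *
        ∑ c ∈ Sites n k, (ind (ω c = true) - (r c : ℝ)) ∂(pm r) := by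
    simp_rw [Finset.mul_sum]
    rw [integral_finsetSum]
    · refine Finset.sum_congr rfl fun c hc => ?_
      have hrc : (r c : ℝ) = a := by
        unfold Sites at hc
        rw [Finset.mem_image] at hc
        obtain ⟨v, _, rfl⟩ := hc
        rfl
      have := piv_cov r c (BigO_meas (EdI m) k t (0 : V n)) (BigO_inc _ _ _ _)
      rw [hrc] at this ⊢
      exact this
    · intro c _
      refine int_bdd r ?_ 1 fun ω => ?_
      · exact (meas_ind (BigO_meas (EdI m) k t (0 : V n))).mul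
          ((meas_ind (meas_co c)).sub measurable_const)
      · rw [abs_mul, abs_of_nonneg (ind_nonneg _)]
        have h2 : |ind (ω c = true) - (r c : ℝ)| ≤ 1 := by
          rw [abs_le]
          have a1 := (r c).2.1
          have a2 := (r c).2.2
          have a3 := ind_nonneg (ω c = true)
          have a4 := ind_le_one (ω c = true)
          constructor <;> linarith
        calc ind ((t : ℕ∞) ≤ (Ko (EdI m) k 0 ω).encard) * |ind (ω c = true) - (r c : ℝ)|
            ≤ 1 * 1 := mul_le_mul (ind_le_one _) h2 (abs_nonneg _) zero_le_one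
          _ = 1 := one_mul 1
  rw [e1]
  have h3 := cs_bound r (Sites n k) (fun y => meas_Ko (EdI m) k 0 y) t (v := 1) zero_le_one
    (fun ω => by
      have := hsec (Ix n) (V n) (Sites n k) (fun c => (r c : ℝ)) _ _ hok
        (explG (E := EdI m) h0 ω) t
      rw [one_mul]
      exact this)
  rw [one_mul] at h3
  exact h3

end

end Pool.Agent.Y990.PL
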