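import Pool.Agent.Y990.PL.Fin2
import Pool.Agent.Y990.PL.FinB

set_option autoImplicit false

open MeasureTheory Set Filter
open scoped Topology

/-!
Bond percolation: the near-critical window, and all bounds at the critical point.
-/

namespace Pool.Agent.Y990.PL

open Pool.Agent.W783.PC
open Pool.Agent.W424.PC (upd upd_self upd_ne upd_of measurable_upd Piv russo_pm EE I1 pm_eq_EE)
open H974 (ind ind_of ind_not_of ind_nonneg ind_le_one ind_congr Ok Ex)

noncomputable section

variable {n : ℕ}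

/-- The bonds inside the box. -/
def EdR (m k : ℕ) : Set (Sym2 (V n)) := {e | e ∈ EdI m ∧ ∀ x ∈ e, x ∈ Rg n k}

lemma G_EdR (m k : ℕ) (ω : Cfg n) : G (EdI m) ω (Rg n k) = G (EdR m k) ω univ := by
  ext x y
  constructor
  · rintro ⟨h1, h2, h3, h4, h5⟩
    refine ⟨h1, mem_univ _, mem_univ _, ⟨h4, fun v hv => ?_⟩, h5⟩
    rcases Sym2.mem_iff.1 hv with rfl | rfl
    · exact h2
    · exact h3
  · rintro ⟨h1, _, _, ⟨h4, h6⟩, h5⟩
    exact ⟨h1, h6 x (Sym2.mem_mk_left x y), h6 y (Sym2.mem_mk_right x y), h4, h5⟩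

lemma BigR_EdR (m k t : ℕ) (x : V n) : BigR (EdI m) k t x = Big (EdR m k) t x := by
  ext ω
  show (t : ℕ∞) ≤ (cl (EdI m) ω (Rg n k) x).encard ↔ (t : ℕ∞) ≤ (Kc (EdR m k) ω x).encard
  have : cl (EdI m) ω (Rg n k) x = Kc (EdR m k) ω x := by
    ext y
    show (G (EdI m) ω (Rg n k)).Reachable x y ↔ (G (EdR m k) ω univ).Reachable x y
    rw [G_EdR]
  rw [this]

open scoped Classical in
/-- The nearest-neighbour bonds of the box. -/
def NNb (n k : ℕ) : Finset (Ix n) := (Cf n k).filter (fun c => ∃ e, c = Sum.inr e ∧ isNN e)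

/-- The bound for the degree. -/
def dg (n : ℕ) : ℝ := ((Pool.Agent.W230.PCBig.CB_finite (n := n) 1 1).toFinset.card : ℝ)

lemma NN_sub {x y : V n} (h : NN x y) : y - x ∈ (CB 1 1 : Set (V n)) := by
  unfold NN at h
  have h1 : 0 ≤ |x.1 - y.1| := abs_nonneg _
  have h2 : 0 ≤ ∑ i, |x.2 i - y.2 i| := Finset.sum_nonneg fun i _ => abs_nonneg _
  refine ⟨?_, fun i => ?_⟩
  · show |y.1 - x.1| ≤ ((1 : ℕ) : ℤ)
    rw [abs_sub_comm]
    push_cast
    omega
  · show |y.2 i - x.2 i| ≤ ((1 : ℕ) : ℤ)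
    rw [abs_sub_comm]
    have h3 : |x.2 i - y.2 i| ≤ ∑ i, |x.2 i - y.2 i| :=
      Finset.single_le_sum (f := fun i => |x.2 i - y.2 i|) (fun i _ => abs_nonneg _)
        (Finset.mem_univ i)
    push_cast
    omega

lemma wgh_NN (r : Ix n → unitInterval) (k : ℕ) : Wgh r (NNb n k) (dg n) := by
  classical
  refine ⟨?_, ?_, ?_⟩
  · intro c hc
    unfold NNb at hc
    rw [Finset.mem_filter] at hc
    obtain ⟨e, he, _⟩ := hc.2
    exact ⟨e, he⟩
  · unfold dg
    exact Nat.cast_nonneg _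
  · intro x R hR hx
    set D := (Pool.Agent.W230.PCBig.CB_finite (n := n) 1 1).toFinset with hD
    have hsub : R ⊆ D.image (fun z => (Sum.inr s(x, x + z) : Ix n)) := by
      intro c hc
      have h1 := hR hc
      unfold NNb at h1
      rw [Finset.mem_filter] at h1
      obtain ⟨e, he, hnn⟩ := h1.2
      obtain ⟨e', he', hxe⟩ := hx c hc
      have hee : e = e' := Sum.inr.inj (he.symm.trans he')
      subst hee
      obtain ⟨y, rfl⟩ := Sym2.mem_iff_exists.1 hxe
      obtain ⟨u, w, huw, hNN⟩ := hnn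
      rw [Finset.mem_image]
      refine ⟨y - x, ?_, by rw [add_sub_cancel]; exact he.symm⟩
      rw [hD, Set.Finite.mem_toFinset]
      rw [Sym2.eq_iff] at huw
      rcases huw with ⟨rfl, rfl⟩ | ⟨rfl, rfl⟩
      · exact NN_sub hNN
      · exact NN_sub (NN_symm hNN)
    calc ∑ c ∈ R, (r c : ℝ) ≤ ∑ c ∈ R, (1 : ℝ) := Finset.sum_le_sum fun c _ => (r c).2.2
      _ = R.card := by simp
      _ ≤ (D.image (fun z => (Sum.inr s(x, x + z) : Ix n))).card := by
          exact_mod_cast Finset.card_le_card hsub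
      _ ≤ D.card := by exact_mod_cast Finset.card_image_le
      _ = dg n := rfl

/-- Derivative of the tail with respect to the density of nearest-neighbour bonds. -/
theorem deriv_bond (hsec : S_secB) (a p : unitInterval) (β : NNReal) (s : ℝ) (m k t : ℕ) :
    (p : ℝ) * (1 - p) * ∑ c ∈ NNb n k,
      (pm (prob (n := n) a p β s m)).real (Piv (Big (EdR m k) t 0) c) ≤
      √((pm (prob (n := n) a p β s m)).real (Big (EdR m k) t 0)) *
      √(dg n * ∑ t' ∈ Finset.Icc 1 t,
        (pm (prob (n := n) a p β s m)).real (Big (EdR m k) t' 0)) := by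
  classical
  set r := prob (n := n) a p β s m with hr
  have hok : Ok (fun c => (r c : ℝ)) := fun c => ⟨(r c).2.1, (r c).2.2⟩
  have hW := wgh_NN (n := n) r k
  have e1 : (p : ℝ) * (1 - p) * ∑ c ∈ NNb n k, (pm r).real (Piv (Big (EdR m k) t 0) c) =
      ∫ ω, ind ((t : ℕ∞) ≤ (Kc (EdR m k) ω 0).encard) *
        ∑ c ∈ NNb n k, (ind (ω c = true) - (r c : ℝ)) ∂(pm r) := by
    simp_rw [Finset.mul_sum]
    rw [integral_finsetSum]
    · refine Finset.sum_congr rfl fun c hc => ?_
      have hrc : (r c : ℝ) = p := by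
        unfold NNb at hc
        rw [Finset.mem_filter] at hc
        obtain ⟨e, rfl, he⟩ := hc.2
        rw [hr, prob_nn _ _ _ _ _ he]
      have := piv_cov r c (meas_Big (EdR m k) t (0 : V n)) (Big_inc _ _ _)
      rw [hrc] at this ⊢
      exact this
    · intro c _
      refine int_bdd r ?_ 1 fun ω => ?_
      · exact (meas_ind (meas_Big (EdR m k) t (0 : V n))).mul
          ((meas_ind (meas_co c)).sub measurable_const)
      · rw [abs_mul, abs_of_nonneg (ind_nonneg _)]
        have h2 : |ind (ω c = true) - (r c : ℝ)| ≤ 1 := by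
          rw [abs_le]
          have a1 := (r c).2.1
          have a2 := (r c).2.2
          have a3 := ind_nonneg (ω c = true)
          have a4 := ind_le_one (ω c = true)
          constructor <;> linarith
        calc ind ((t : ℕ∞) ≤ (Kc (EdR m k) ω 0).encard) * |ind (ω c = true) - (r c : ℝ)|
            ≤ 1 * 1 := mul_le_mul (ind_le_one _) h2 (abs_nonneg _) zero_le_one
          _ = 1 := one_mul 1
  rw [e1]
  exact cs_bound r (NNb n k) (C := fun ω => Kc (EdR m k) ω 0)
    (fun y => meas_mem_Kc (EdR m k) 0 y) t hW.nonneg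
    (fun ω => hsec (Ix n) (V n) (NNb n k) (fun c => (r c : ℝ)) (dg n) _ _ hok
      (expl r hW (EdR m k) 0 ω) hW.nonneg t)

open scoped Classical in
/-- The real parameters, bond version. -/
def rhoB (β : NNReal) (s : ℝ) (m : ℕ) (u : ℝ) : Ix n → ℝ
  | Sum.inl _ => 1
  | Sum.inr e => if isNN e then u else (prob (n := n) 1 0 β s m (Sum.inr e) : ℝ)

lemma rhoB_eq {β : NNReal} {s : ℝ} {m : ℕ} {u : ℝ} (h0 : 0 ≤ u) (h1 : u ≤ 1) (c : Ix n) :
    rhoB β s m u c = (prob (n := n) 1 (cut u) β s m c : ℝ) := by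
  classical
  rcases c with v | e
  · rfl
  · unfold rhoB
    by_cases he : isNN e
    · simp only [if_pos he]
      rw [prob_nn _ _ _ _ _ he, cut_val h0 h1]
    · simp only [if_neg he]
      by_cases h2 : isLg m e
      · rw [prob_lg _ _ _ _ _ he h2, prob_lg _ _ _ _ _ he h2]
      · rw [prob_no _ _ _ _ _ he h2, prob_no _ _ _ _ _ he h2]

/-- The derivative of the tail at an interior parameter, bond version. -/
lemma tail_derivB (hsec : S_secB) (β : NNReal) (s : ℝ) (m k t : ℕ) {u : ℝ} (h0 : 0 < u)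
    (h1 : u < 1) : ∃ D : ℝ, HasDerivAt
      (fun u => (pm (prob (n := n) 1 (cut u) β s m)).real (Big (EdR m k) t 0)) D u ∧
    u * (1 - u) * D ≤ √((pm (prob (n := n) 1 (cut u) β s m)).real (Big (EdR m k) t 0)) *
      √(dg n * ∑ t' ∈ Finset.Icc 1 t,
        (pm (prob (n := n) 1 (cut u) β s m)).real (Big (EdR m k) t' 0)) := by
  classical
  set A := Big (n := n) (EdR m k) t 0 with hA
  have hdep : DepOn A (Cf n k : Set (Ix n)) := by
    rw [hA, ← BigR_EdR]
    exact BigR_dep (EdI m) k t 0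
  set r := prob (n := n) 1 (cut u) β s m with hr
  set ρ' : Ix n → ℝ := fun c => if ∃ e, c = Sum.inr e ∧ isNN e then 1 else 0 with hρ'
  have hd := russo_pm Pool.Agent.W45.PC.s_indep Pool.Agent.W45.PC.s_depmeas r hdep
    (Big_inc _ _ _) (fun u => rhoB β s m u) ρ' u (by
      intro c
      rcases c with v | e
      · have : ρ' (Sum.inl v) = 0 := by
          rw [hρ']
          simp
        rw [this]
        exact hasDerivAt_const u _
      · by_cases he : isNN e
        · have h2 : ρ' (Sum.inr e) = 1 := by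
            rw [hρ']
            exact if_pos ⟨e, rfl, he⟩
          have h3 : (fun u : ℝ => rhoB (n := n) β s m u (Sum.inr e)) = fun u => u := by
            funext u
            unfold rhoB
            simp only [if_pos he]
          rw [h2, h3]
          exact hasDerivAt_id' u
        · have h2 : ρ' (Sum.inr e) = 0 := by
            rw [hρ']
            refine if_neg ?_
            rintro ⟨e', h4, h5⟩
            rw [Sum.inr.inj h4] at he
            exact he h5
          have h3 : (fun u : ℝ => rhoB (n := n) β s m u (Sum.inr e)) =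
              fun _ => (prob (n := n) 1 0 β s m (Sum.inr e) : ℝ) := by
            funext u
            unfold rhoB
            simp only [if_neg he]
          rw [h2, h3]
          exact hasDerivAt_const u _) (fun c => rhoB_eq h0.le h1.le c)
  have hsum : ∑ c ∈ Cf n k, ρ' c * (pm r).real (Piv A c) =
      ∑ c ∈ NNb n k, (pm r).real (Piv A c) := by
    unfold NNb
    rw [Finset.sum_filter]
    refine Finset.sum_congr rfl fun c _ => ?_
    rw [hρ']
    simp only
    split_ifs with hc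
    · exact one_mul _
    · exact zero_mul _
  rw [hsum] at hd
  refine ⟨_, hd.congr_of_eventuallyEq ?_, ?_⟩
  · have hmem : Ioo (0 : ℝ) 1 ∈ 𝓝 u := Ioo_mem_nhds h0 h1
    filter_upwards [hmem] with w hw
    rw [pm_eq_EE Pool.Agent.W45.PC.s_indep Pool.Agent.W45.PC.s_depmeas _ hdep]
    congr 1
    funext c
    exact (rhoB_eq hw.1.le hw.2.le c).symm
  · have := deriv_bond hsec 1 (cut u) β s m k t (n := n)
    rw [cut_val h0.le h1.le] at this
    exact this

/-- The near-critical window, bond version. -/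
theorem windowB (hsec : S_secB) (hgron : S_gron) {m : ℕ} {s : ℝ}
    (β : NNReal) {κ : ℝ} (h0 : 0 < κ) (h1 : κ < 1 / 2) {a b : ℝ} (ha : 0 < a)
    (hb : b < 1) : ∃ c : ℝ, 0 < c ∧ ∀ C0 : ℝ, 0 < C0 →
    (∀ N : ℕ, 1 ≤ N → (pm (prob (n := n) 1 (cut a) β s m)).real (Big (EdI m) N 0) ≤
      C0 * (N : ℝ) ^ (-κ)) →
    ∀ N : ℕ, 2 ≤ N → ∀ u : ℝ, a ≤ u → u ≤ b → u - a ≤ c * (N : ℝ) ^ (-(1 / 2 : ℝ)) →
    (pm (prob (n := n) 1 (cut u) β s m)).real (Big (EdI m) N 0) ≤
      2 * C0 * (N : ℝ) ^ (-κ) := by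
  obtain ⟨c, hc, hg⟩ := hgron κ (max ((a * (1 - b))⁻¹ * √(dg n)) 1) h0 h1
    (lt_of_lt_of_le one_pos (le_max_right _ _))
  refine ⟨c, hc, fun C0 hC0 htail N hN u hau hub hu => ?_⟩
  rw [Big_iUnion]
  refine le_of_tendsto (tendsto_pm _ (BigR_mono (EdI m) N (0 : V n)))
    (Eventually.of_forall fun k => ?_)
  show (pm (prob (n := n) 1 (cut u) β s m)).real (BigR (EdI m) k N 0) ≤ _
  rw [BigR_EdR]
  refine hg N (fun t w => (pm (prob (n := n) 1 (cut w) β s m)).real (Big (EdR m k) t 0)) C0 a u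
    (by omega) hC0 hau hu (fun t w => measureReal_nonneg) ?_ ?_ N (by omega) le_rfl
  · intro t ht htN w hw
    have hw0 : 0 < w := lt_of_lt_of_le ha hw.1
    have hwb : w ≤ b := hw.2.trans hub
    have hw1 : w < 1 := lt_of_le_of_lt hwb hb
    obtain ⟨D, hD, hDb⟩ := tail_derivB (n := n) hsec β s m k t hw0 hw1
    refine ⟨D, hD, ?_⟩
    rw [Real.sqrt_mul (wgh_NN (n := n) (prob 1 (cut w) β s m) k).nonneg] at hDb
    set X := √((pm (prob (n := n) 1 (cut w) β s m)).real (Big (EdR m k) t 0)) with hX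
    set Y := √(∑ t' ∈ Finset.Icc 1 t,
        (pm (prob (n := n) 1 (cut w) β s m)).real (Big (EdR m k) t' 0)) with hY
    have hXY : 0 ≤ X * Y := mul_nonneg (Real.sqrt_nonneg _) (Real.sqrt_nonneg _)
    have hd0 : 0 ≤ √(dg n) := Real.sqrt_nonneg _
    have hww : 0 < w * (1 - w) := mul_pos hw0 (by linarith)
    have hab : 0 < a * (1 - b) := mul_pos ha (by linarith)
    have hle : a * (1 - b) ≤ w * (1 - w) :=
      mul_le_mul hw.1 (by linarith) (by linarith) hw0.le
    have h3 : D ≤ (w * (1 - w))⁻¹ * (X * (√(dg n) * Y)) := by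
      rw [le_inv_mul_iff₀ hww]; exact hDb
    have h4 : (w * (1 - w))⁻¹ * √(dg n) ≤ max ((a * (1 - b))⁻¹ * √(dg n)) 1 :=
      (mul_le_mul_of_nonneg_right (inv_anti₀ hab hle) hd0).trans (le_max_left _ _)
    calc D ≤ (w * (1 - w))⁻¹ * (X * (√(dg n) * Y)) := h3
      _ = ((w * (1 - w))⁻¹ * √(dg n)) * (X * Y) := by ring
      _ ≤ max ((a * (1 - b))⁻¹ * √(dg n)) 1 * (X * Y) := mul_le_mul_of_nonneg_right h4 hXY
      _ = _ := by rw [mul_assoc]
  · intro t ht _
    have h5 : (pm (prob (n := n) 1 (cut a) β s m)).real (Big (EdR m k) t 0) ≤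
        (pm (prob (n := n) 1 (cut a) β s m)).real (Big (EdI m) t 0) := by
      refine measureReal_mono ?_ (measure_ne_top _ _)
      rw [← BigR_EdR, Big_iUnion]
      exact subset_iUnion (fun k => BigR (EdI m) k t (0 : V n)) k
    exact h5.trans (htail t ht)

/-- Bond percolation: everything at the critical point. -/
theorem bondAll (hsec : S_secB) (hgron : S_gron) (hn : 1 ≤ n) {m : ℕ} (hm : 1 ≤ m) {s : ℝ}
    (hs : 1 < s) (hs2 : s < 2) {β : NNReal} (hβ : 0 < β) (hpc : 0 < pcB n m s β) :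
    pcB n m s β < 1 ∧ ∃ C : ℝ,
      (∀ (x : V n) (N : ℕ), 1 ≤ N → (pm (prob (n := n) 1 (pcB n m s β) β s m)).real
        {ω | (N : ℕ∞) ≤ (cl (EdI m) ω univ x).encard} ≤
          C * (N : ℝ) ^ (-((2 - s) / (1 + s)))) ∧
      (∀ (x : V n) (L : Finset (V n)), ∑ y ∈ L,
        (pm (prob (n := n) 1 (pcB n m s β) β s m)).real
          {ω | (G (EdI m) ω univ).Reachable x y} ≤ C * (L.card : ℝ) ^ ((2 * s - 1) / 3)) ∧
      (∀ p : unitInterval, pcB n m s β ≤ p → theta n 1 p β s m ≤
        C * ((p : ℝ) - pcB n m s β) ^ (2 * (2 - s) / (1 + s))) := by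
  have hpos : (0 : ℝ) < pcB n m s β := hpc
  have hlt : ((pcB n m s β : unitInterval) : ℝ) < 1 := pcB_lt_one hn m s β
  obtain ⟨C0, hC0, hT⟩ := powerB (n := n) hn hm hs hs2 hβ hpc
  obtain ⟨C1, hC1, hT1⟩ := tail_all (n := n) hm (a := 1) (p := pcB n m s β) (by simp) hpos hC0 hT
  obtain ⟨C2, hC2, hT2⟩ := set_all (n := n) (a := 1) (p := pcB n m s β) (β := β) (m := m) hs hs2
    (by simp) hC1 hT1
  set κ : ℝ := (2 - s) / (1 + s) with hκ
  have h0 : 0 < κ := div_pos (by linarith) (by linarith)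
  have h1 : κ < 1 / 2 := by
    rw [hκ, div_lt_div_iff₀ (by linarith) (by norm_num)]
    linarith
  have hcutq : ∀ q : unitInterval, cut (q : ℝ) = q := fun q => by
    unfold cut
    exact Set.projIcc_val zero_le_one _
  obtain ⟨c, hc, hw⟩ := windowB (n := n) hsec hgron (m := m) (s := s) β h0 h1 hpos
    (b := (1 + ((pcB n m s β : unitInterval) : ℝ)) / 2) (by linarith)
  have hT' : ∀ N : ℕ, 1 ≤ N → (pm (prob (n := n) 1 (cut ((pcB n m s β : unitInterval) : ℝ)) β s
      m)).real (Big (EdI m) N 0) ≤ C0 * (N : ℝ) ^ (-κ) := by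
    intro N hN
    rw [hcutq]
    exact hT N hN
  obtain ⟨C3, hC3, hT3⟩ := hoelderA h0 (fun q => theta n 1 q β s m)
    (fun u N => (pm (prob (n := n) 1 (cut u) β s m)).real (Big (EdI m) N 0)) (fun q N => by
      rw [hcutq q]
      exact theta_le_Big 1 q β s m N)
    (fun q => measureReal_le_one) hlt hc hC0 hT' (hw C0 hC0 hT')
  have hmax1 : C1 ≤ max C1 (max C2 C3) := le_max_left _ _
  have hmax2 : C2 ≤ max C1 (max C2 C3) := (le_max_left _ _).trans (le_max_right _ _)
  have hmax3 : C3 ≤ max C1 (max C2 C3) := (le_max_right _ _).trans (le_max_right _ _)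
  refine ⟨hlt, max C1 (max C2 C3), ?_, ?_, ?_⟩
  · intro x N hN
    exact (hT1 x N hN).trans (mul_le_mul_of_nonneg_right hmax1 (by positivity))
  · intro x L
    exact (hT2 x L).trans (mul_le_mul_of_nonneg_right hmax2 (by positivity))
  · intro p hp
    have hp' : ((pcB n m s β : unitInterval) : ℝ) ≤ p := hp
    have h2 := hT3 p hp'
    have h3 : 2 * (2 - s) / (1 + s) = 2 * κ := by rw [hκ]; ring
    rw [h3]
    refine h2.trans (mul_le_mul_of_nonneg_right hmax3 ?_)
    exact Real.rpow_nonneg (by linarith) _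

end

end Pool.Agent.Y990.PL
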