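import Pool.Agent.Y990.PL.Dyad

set_option autoImplicit false

open MeasureTheory Set

/-!
The bound for `E |M| min (1 / N) (1 / |K|)`.
-/

namespace Pool.Agent.Y990.PL

open Pool.Agent.W783.PC
open H974 (ind ind_of ind_not_of ind_nonneg ind_le_one ind_congr Ok Ex)

noncomputable section

variable {n : ℕ}

lemma int_ind {ι : Type} (r : ι → unitInterval) {P : (ι → Bool) → Prop}
    (h : MeasurableSet {ω | P ω}) : ∫ ω, ind (P ω) ∂(pm r) = (pm r).real {ω | P ω} := by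
  classical
  have : (fun ω => ind (P ω)) = {ω | P ω}.indicator (fun _ => (1 : ℝ)) := by
    funext ω
    by_cases hp : P ω
    · rw [ind_of hp, indicator_of_mem (show ω ∈ {ω | P ω} from hp)]
    · rw [ind_not_of hp, indicator_of_notMem (show ω ∉ {ω | P ω} from hp)]
  rw [this, integral_indicator_const _ h]
  simp

lemma int_sz (r : Ix n → unitInterval) (E : Set (Sym2 (V n))) (u : V n) (T : ℕ) :
    ∫ ω, (sz T (Kc E ω u) : ℝ) ∂(pm r) = ∑ t ∈ Finset.Icc 1 T, (pm r).real (Big E t u) := by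
  have h1 : (fun ω : Cfg n => (sz T (Kc E ω u) : ℝ)) =
      fun ω => ∑ t ∈ Finset.Icc 1 T, ind ((t : ℕ∞) ≤ (Kc E ω u).encard) := by
    funext ω
    exact sz_eq_sum T _
  rw [h1, integral_finsetSum]
  · refine Finset.sum_congr rfl fun t _ => ?_
    exact int_ind r (meas_Big E t u)
  · intro t _
    refine int_bdd r (meas_ind (meas_Big E t u)) 1 fun ω => ?_
    rw [abs_of_nonneg (ind_nonneg _)]
    exact ind_le_one _

lemma meas_gN {Ω : Type} [MeasurableSpace Ω] (N : ℕ) {f : Ω → Set (V n)}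
    (hf : ∀ y, MeasurableSet {ω | y ∈ f ω}) : Measurable (fun ω => gN N (f ω)) :=
  (measurable_from_top (f := fun k : ℕ => min ((N : ℝ)⁻¹) ((k : ℝ)⁻¹))).comp (meas_ncard hf)

theorem Qbound (r : Ix n → unitInterval) (E : Set (Sym2 (V n))) {S : Finset (Ix n)} {v : ℝ}
    (h : Wgh r S v) (hv : 0 < v) (u : V n) {κ B : ℝ} (h0 : 0 < κ) (h1 : κ < 1 / 2) (hB0 : 0 ≤ B)
    (hB : ∀ t : ℕ, 1 ≤ t → (pm r).real (Big E t u) ≤ B * (t : ℝ) ^ (-κ)) (N : ℕ) (hN : 1 ≤ N) :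
    ∫ ω, |Mt r E S u ω| * gN N (Kc E ω u) ∂(pm r) ≤
      Cd κ * B * √v * (N : ℝ) ^ (-(1 / 2 + κ)) := by
  classical
  set M : Cfg n → ℝ := fun ω => |Mt r E S u ω| with hM
  have mM : Measurable M := (meas_Mt r E S u).abs
  have bM : ∀ ω, |M ω| ≤ S.card := fun ω => by
    rw [hM, abs_abs]; exact Mt_bdd r E S u ω
  have M0 : ∀ ω, 0 ≤ M ω := fun ω => abs_nonneg _
  have mD : ∀ j : ℕ, MeasurableSet {ω : Cfg n | ((2 ^ j : ℕ) : ℕ∞) ≤ (Kc E ω u).encard ∧
      (Kc E ω u).encard < ((2 ^ (j + 1) : ℕ) : ℕ∞)} := by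
    intro j
    have : {ω : Cfg n | ((2 ^ j : ℕ) : ℕ∞) ≤ (Kc E ω u).encard ∧
      (Kc E ω u).encard < ((2 ^ (j + 1) : ℕ) : ℕ∞)} = Big E (2 ^ j) u \ Big E (2 ^ (j + 1)) u := by
      ext ω
      simp [Big]
    rw [this]
    exact (meas_Big E _ u).diff (meas_Big E _ u)
  set D : ℕ → Cfg n → ℝ := fun j ω => ind (((2 ^ j : ℕ) : ℕ∞) ≤ (Kc E ω u).encard ∧
      (Kc E ω u).encard < ((2 ^ (j + 1) : ℕ) : ℕ∞)) with hD
  have mDm : ∀ j, Measurable (D j) := fun j => meas_ind (mD j)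
  have D0 : ∀ j ω, 0 ≤ D j ω := fun j ω => ind_nonneg _
  have D1 : ∀ j ω, D j ω ≤ 1 := fun j ω => ind_le_one _
  have bDM : ∀ j ω, |D j ω * M ω| ≤ S.card := by
    intro j ω
    rw [abs_mul, abs_of_nonneg (D0 j ω)]
    calc D j ω * |M ω| ≤ 1 * |M ω| := mul_le_mul_of_nonneg_right (D1 j ω) (abs_nonneg _)
      _ ≤ _ := by rw [one_mul]; exact bM ω
  -- step 1
  have step1 : ∀ J : ℕ, ∀ ω, M ω * gN N (Kc E ω u) ≤
      ∑ j ∈ Finset.range J, min ((N : ℝ)⁻¹) (((2 ^ j : ℕ) : ℝ)⁻¹) * (D j ω * M ω) +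
        S.card * ((2 : ℝ)⁻¹) ^ J := by
    intro J ω
    have hsum0 : 0 ≤ ∑ j ∈ Finset.range J,
        min ((N : ℝ)⁻¹) (((2 ^ j : ℕ) : ℝ)⁻¹) * (D j ω * M ω) :=
      Finset.sum_nonneg fun j _ => mul_nonneg (by positivity) (mul_nonneg (D0 j ω) (M0 ω))
    by_cases hbig : ((2 ^ J : ℕ) : ℕ∞) ≤ (Kc E ω u).encard
    · have g1 := gN_le' (N := N) (by positivity) hbig
      have g2 : M ω ≤ S.card := (le_abs_self _).trans (bM ω)
      have g3 : ((2 ^ J : ℕ) : ℝ)⁻¹ = ((2 : ℝ)⁻¹) ^ J := by push_cast; rw [inv_pow]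
      rw [g3] at g1
      have : M ω * gN N (Kc E ω u) ≤ S.card * ((2 : ℝ)⁻¹) ^ J :=
        mul_le_mul g2 g1 (gN_nonneg _ _) (Nat.cast_nonneg _)
      linarith
    · push Not at hbig
      have hfin : (Kc E ω u).Finite := Set.finite_of_encard_le_coe hbig.le
      have hc := hfin.cast_ncard_eq
      have hpos : 0 < (Kc E ω u).ncard := (Set.ncard_pos hfin).2 ⟨u, self_mem_Kc E ω u⟩
      have hlt : (Kc E ω u).ncard < 2 ^ J := by rw [← hc] at hbig; exact_mod_cast hbig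
      set j := Nat.log 2 (Kc E ω u).ncard with hj
      have hlo : 2 ^ j ≤ (Kc E ω u).ncard := Nat.pow_log_le_self 2 (by omega)
      have hhi : (Kc E ω u).ncard < 2 ^ (j + 1) := Nat.lt_pow_succ_log_self (by norm_num) _
      have hjJ : j < J := by
        by_contra hcon
        push Not at hcon
        have := Nat.pow_le_pow_right (show 0 < 2 by norm_num) hcon
        omega
      have hDj : D j ω = 1 := by
        apply ind_of
        rw [← hc]
        exact ⟨by exact_mod_cast hlo, by exact_mod_cast hhi⟩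
      have g1 : gN N (Kc E ω u) ≤ min ((N : ℝ)⁻¹) (((2 ^ j : ℕ) : ℝ)⁻¹) := by
        refine le_min (gN_le _ _) (gN_le' (by positivity) ?_)
        rw [← hc]; exact_mod_cast hlo
      have g2 := Finset.single_le_sum
        (f := fun j => min ((N : ℝ)⁻¹) (((2 ^ j : ℕ) : ℝ)⁻¹) * (D j ω * M ω))
        (fun j _ => mul_nonneg (by positivity) (mul_nonneg (D0 j ω) (M0 ω)))
        (Finset.mem_range.2 hjJ)
      simp only [hDj, one_mul] at g2
      have g3 : M ω * gN N (Kc E ω u) ≤ min ((N : ℝ)⁻¹) (((2 ^ j : ℕ) : ℝ)⁻¹) * M ω := by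
        rw [mul_comm]
        exact mul_le_mul_of_nonneg_right g1 (M0 ω)
      have g4 : (0 : ℝ) ≤ S.card * ((2 : ℝ)⁻¹) ^ J := by positivity
      linarith
  -- step 2
  have step2 : ∀ j : ℕ, ∫ ω, D j ω * M ω ∂(pm r) ≤
      B * √v * (3 * ((2 : ℝ) ^ (1 / 2 - κ)) ^ j) := by
    intro j
    set x : ℝ := (2 : ℝ) ^ j with hx
    have hx0 : 0 < x := by positivity
    set l : ℝ := (√v * √x)⁻¹ with hl
    have hsv : 0 < √v := Real.sqrt_pos.2 hv
    have hsx : 0 < √x := Real.sqrt_pos.2 hx0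
    have hl0 : 0 < l := by positivity
    have hpt : ∀ ω, D j ω * M ω ≤ l / 2 * (ind ((Kc E ω u).encard < ((2 ^ (j + 1) : ℕ) : ℕ∞)) *
        (Mt r E S u ω) ^ 2) + 1 / (2 * l) * ind (((2 ^ j : ℕ) : ℕ∞) ≤ (Kc E ω u).encard) := by
      intro ω
      by_cases hd : ((2 ^ j : ℕ) : ℕ∞) ≤ (Kc E ω u).encard ∧
        (Kc E ω u).encard < ((2 ^ (j + 1) : ℕ) : ℕ∞)
      · have e1 : D j ω = 1 := ind_of hd
        rw [e1, ind_of hd.1, ind_of hd.2, one_mul, one_mul, mul_one]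
        have e2 : (Mt r E S u ω) ^ 2 = (M ω) ^ 2 := by rw [hM]; simp only [sq_abs]
        rw [e2]
        have e3 : 0 ≤ (l * M ω - 1) ^ 2 := sq_nonneg _
        have e4 : l / 2 * (M ω) ^ 2 + 1 / (2 * l) - M ω = (l * M ω - 1) ^ 2 / (2 * l) := by
          field_simp
          ring
        have e5 : 0 ≤ (l * M ω - 1) ^ 2 / (2 * l) := div_nonneg e3 (by positivity)
        linarith
      · have e1 : D j ω = 0 := ind_not_of hd
        rw [e1, zero_mul]
        have := ind_nonneg ((Kc E ω u).encard < ((2 ^ (j + 1) : ℕ) : ℕ∞))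
        have := ind_nonneg (((2 ^ j : ℕ) : ℕ∞) ≤ (Kc E ω u).encard)
        positivity
    have hm1 : MeasurableSet {ω : Cfg n | (Kc E ω u).encard < ((2 ^ (j + 1) : ℕ) : ℕ∞)} := by
      have : {ω : Cfg n | (Kc E ω u).encard < ((2 ^ (j + 1) : ℕ) : ℕ∞)} =
          (Big E (2 ^ (j + 1)) u)ᶜ := by
        ext ω
        simp [Big]
      rw [this]
      exact (meas_Big E _ u).compl
    have i1 : Integrable (fun ω : Cfg n => ind ((Kc E ω u).encard < ((2 ^ (j + 1) : ℕ) : ℕ∞)) *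
        (Mt r E S u ω) ^ 2) (pm r) := by
      refine int_bdd r ((meas_ind hm1).mul ((meas_Mt r E S u).pow_const 2))
        ((S.card : ℝ) ^ 2) fun ω => ?_
      rw [abs_mul, abs_of_nonneg (ind_nonneg _), abs_of_nonneg (sq_nonneg _)]
      have h2 : (Mt r E S u ω) ^ 2 ≤ (S.card : ℝ) ^ 2 := by
        rw [← sq_abs]
        exact pow_le_pow_left₀ (abs_nonneg _) (Mt_bdd r E S u ω) 2
      calc _ ≤ 1 * (Mt r E S u ω) ^ 2 :=
            mul_le_mul_of_nonneg_right (ind_le_one _) (sq_nonneg _)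
        _ ≤ _ := by rw [one_mul]; exact h2
    have i2 : Integrable (fun ω : Cfg n => ind (((2 ^ j : ℕ) : ℕ∞) ≤ (Kc E ω u).encard)) (pm r) := by
      refine int_bdd r (meas_ind (meas_Big E _ u)) 1 fun ω => ?_
      rw [abs_of_nonneg (ind_nonneg _)]
      exact ind_le_one _
    have i3 : Integrable (fun ω => D j ω * M ω) (pm r) :=
      int_bdd r ((mDm j).mul mM) _ (bDM j)
    have hint := integral_mono i3 ((i1.const_mul (l / 2)).add (i2.const_mul (1 / (2 * l)))) hpt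
    have hint2 : ∫ ω, (l / 2 * (ind ((Kc E ω u).encard < ((2 ^ (j + 1) : ℕ) : ℕ∞)) *
        (Mt r E S u ω) ^ 2) + 1 / (2 * l) * ind (((2 ^ j : ℕ) : ℕ∞) ≤ (Kc E ω u).encard)) ∂(pm r)
        = l / 2 * ∫ ω, (ind ((Kc E ω u).encard < ((2 ^ (j + 1) : ℕ) : ℕ∞)) *
        (Mt r E S u ω) ^ 2) ∂(pm r) + 1 / (2 * l) * (pm r).real (Big E (2 ^ j) u) := by
      rw [integral_add (i1.const_mul _) (i2.const_mul _), integral_const_mul, integral_const_mul]
      congr 2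
      exact int_ind r (meas_Big E _ u)
    have hsm := sm r E h u (2 ^ (j + 1))
    rw [int_sz] at hsm
    have hS1 : ∑ t ∈ Finset.Icc 1 (2 ^ (j + 1)), (pm r).real (Big E t u) ≤
        B * (2 * ((2 ^ (j + 1) : ℕ) : ℝ) ^ (1 - κ)) := by
      have a1 : ∑ t ∈ Finset.Icc 1 (2 ^ (j + 1)), (pm r).real (Big E t u) ≤
          ∑ t ∈ (Finset.Icc 1 (2 ^ (j + 1)) : Finset ℕ), B * (t : ℝ) ^ (-κ) :=
        Finset.sum_le_sum fun t ht => hB t (Finset.mem_Icc.1 ht).1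
      rw [← Finset.mul_sum] at a1
      exact a1.trans (mul_le_mul_of_nonneg_left (sum_rpow_le κ h0.le h1.le _) hB0)
    have hxk : x ^ (-κ) = ((2 : ℝ) ^ (-κ)) ^ j := by
      rw [hx, ← Real.rpow_natCast 2 j, ← Real.rpow_mul (by norm_num), ← Real.rpow_natCast (2 ^ (-κ)) j,
        ← Real.rpow_mul (by norm_num)]
      congr 1
      ring
    have hpow1 : ((2 ^ (j + 1) : ℕ) : ℝ) ^ (1 - κ) ≤ 2 * (x * ((2 : ℝ) ^ (-κ)) ^ j) := by
      have e1 : ((2 ^ (j + 1) : ℕ) : ℝ) ^ (1 - κ) = (2 : ℝ) ^ (1 - κ) * (x * ((2 : ℝ) ^ (-κ)) ^ j) := by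
        push_cast
        rw [pow_succ, Real.mul_rpow (by positivity) (by norm_num), ← hx, ← hxk,
          sub_eq_add_neg, Real.rpow_add hx0, Real.rpow_one]
        ring
      rw [e1]
      have e2 : (2 : ℝ) ^ (1 - κ) ≤ 2 := by
        calc (2 : ℝ) ^ (1 - κ) ≤ (2 : ℝ) ^ (1 : ℝ) :=
              Real.rpow_le_rpow_of_exponent_le (by norm_num) (by linarith)
          _ = 2 := Real.rpow_one 2
      exact mul_le_mul_of_nonneg_right e2 (by positivity)
    have hpow2 : (pm r).real (Big E (2 ^ j) u) ≤ B * ((2 : ℝ) ^ (-κ)) ^ j := by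
      have e1 := hB (2 ^ j) Nat.one_le_two_pow
      have e2 : ((2 ^ j : ℕ) : ℝ) ^ (-κ) = ((2 : ℝ) ^ (-κ)) ^ j := by
        push_cast
        rw [← Real.rpow_natCast 2 j, ← Real.rpow_mul (by norm_num), ← Real.rpow_natCast (2 ^ (-κ)) j,
          ← Real.rpow_mul (by norm_num)]
        congr 1
        ring
      rw [e2] at e1
      exact e1
    have hpow3 : ((2 : ℝ) ^ (1 / 2 - κ)) ^ j = √x * ((2 : ℝ) ^ (-κ)) ^ j := by
      rw [Real.sqrt_eq_rpow, hx, ← Real.rpow_natCast 2 j, ← Real.rpow_mul (by norm_num),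
        ← Real.rpow_natCast (2 ^ (-κ)) j, ← Real.rpow_mul (by norm_num),
        ← Real.rpow_natCast (2 ^ (1 / 2 - κ)) j, ← Real.rpow_mul (by norm_num),
        ← Real.rpow_add (by norm_num)]
      congr 1
      ring
    set y : ℝ := ((2 : ℝ) ^ (-κ)) ^ j with hy
    have hy0 : 0 < y := by positivity
    -- assemble
    have f1 : l / 2 * ∫ ω, (ind ((Kc E ω u).encard < ((2 ^ (j + 1) : ℕ) : ℕ∞)) *
        (Mt r E S u ω) ^ 2) ∂(pm r) ≤ l / 2 * (v * (B * (2 * (2 * (x * y))))) := by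
      apply mul_le_mul_of_nonneg_left _ (by positivity)
      refine hsm.trans (mul_le_mul_of_nonneg_left (hS1.trans ?_) hv.le)
      exact mul_le_mul_of_nonneg_left (mul_le_mul_of_nonneg_left hpow1 (by norm_num)) hB0
    have f2 : 1 / (2 * l) * (pm r).real (Big E (2 ^ j) u) ≤ 1 / (2 * l) * (B * y) :=
      mul_le_mul_of_nonneg_left hpow2 (by positivity)
    have hlvx : l * (v * x) = √v * √x := by
      calc l * (v * x) = (√v * √x)⁻¹ * ((√v * √v) * (√x * √x)) := by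
            rw [Real.mul_self_sqrt hv.le, Real.mul_self_sqrt hx0.le]
        _ = √v * √x := by field_simp
    have f3 : l / 2 * (v * (B * (2 * (2 * (x * y))))) = 2 * (B * √v * (√x * y)) := by
      calc l / 2 * (v * (B * (2 * (2 * (x * y))))) = 2 * (l * (v * x)) * (B * y) := by ring
        _ = 2 * (B * √v * (√x * y)) := by rw [hlvx]; ring
    have f4 : 1 / (2 * l) * (B * y) = 1 / 2 * (B * √v * (√x * y)) := by
      rw [hl]
      field_simp
    rw [hpow3]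
    have f5 : 0 ≤ B * √v * (√x * y) := by positivity
    calc ∫ ω, D j ω * M ω ∂(pm r) ≤ _ := hint
      _ = _ := hint2
      _ ≤ 2 * (B * √v * (√x * y)) + 1 / 2 * (B * √v * (√x * y)) := by
          rw [← f3, ← f4]; exact add_le_add f1 f2
      _ ≤ B * √v * (3 * (√x * y)) := by nlinarith
  -- step 3
  have mg : Measurable (fun ω : Cfg n => gN N (Kc E ω u)) :=
    meas_gN N (fun y => meas_mem_Kc E u y)
  have iL : Integrable (fun ω => M ω * gN N (Kc E ω u)) (pm r) := by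
    refine int_bdd r (mM.mul mg) (S.card * (N : ℝ)⁻¹) fun ω => ?_
    rw [abs_mul, abs_of_nonneg (gN_nonneg N _)]
    exact mul_le_mul (bM ω) (gN_le _ _) (gN_nonneg _ _) (Nat.cast_nonneg _)
  have step3 : ∀ J : ℕ, ∫ ω, M ω * gN N (Kc E ω u) ∂(pm r) ≤
      Cd κ * B * √v * (N : ℝ) ^ (-(1 / 2 + κ)) + S.card * ((2 : ℝ)⁻¹) ^ J := by
    intro J
    have i1 : ∀ j, Integrable (fun ω => min ((N : ℝ)⁻¹) (((2 ^ j : ℕ) : ℝ)⁻¹) * (D j ω * M ω))
        (pm r) := fun j => (int_bdd r ((mDm j).mul mM) _ (bDM j)).const_mul _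
    have i2 : Integrable (fun ω => ∑ j ∈ Finset.range J,
        min ((N : ℝ)⁻¹) (((2 ^ j : ℕ) : ℝ)⁻¹) * (D j ω * M ω)) (pm r) :=
      integrable_finsetSum _ fun j _ => i1 j
    have h2 := integral_mono iL (i2.add (integrable_const (S.card * ((2 : ℝ)⁻¹) ^ J))) (step1 J)
    have h3 : ∫ ω, (∑ j ∈ Finset.range J, min ((N : ℝ)⁻¹) (((2 ^ j : ℕ) : ℝ)⁻¹) * (D j ω * M ω) +
        S.card * ((2 : ℝ)⁻¹) ^ J) ∂(pm r) =
        ∑ j ∈ Finset.range J, min ((N : ℝ)⁻¹) (((2 ^ j : ℕ) : ℝ)⁻¹) *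
          ∫ ω, D j ω * M ω ∂(pm r) + S.card * ((2 : ℝ)⁻¹) ^ J := by
      rw [integral_add i2 (integrable_const _), integral_finsetSum _ fun j _ => i1 j]
      congr 1
      · refine Finset.sum_congr rfl fun j _ => ?_
        rw [integral_const_mul]
      · simp
    refine h2.trans ?_
    simp only [Pi.add_apply] at h3 ⊢
    rw [h3]
    refine add_le_add_left ?_ _
    have h4 : ∑ j ∈ Finset.range J, min ((N : ℝ)⁻¹) (((2 ^ j : ℕ) : ℝ)⁻¹) *
        ∫ ω, D j ω * M ω ∂(pm r) ≤ ∑ j ∈ Finset.range J,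
        min ((N : ℝ)⁻¹) (((2 ^ j : ℕ) : ℝ)⁻¹) * (B * √v * (3 * ((2 : ℝ) ^ (1 / 2 - κ)) ^ j)) :=
      Finset.sum_le_sum fun j _ => mul_le_mul_of_nonneg_left (step2 j) (by positivity)
    refine h4.trans ?_
    have h5 : ∑ j ∈ Finset.range J,
        min ((N : ℝ)⁻¹) (((2 ^ j : ℕ) : ℝ)⁻¹) * (B * √v * (3 * ((2 : ℝ) ^ (1 / 2 - κ)) ^ j)) =
        B * √v * ∑ j ∈ Finset.range J,
        min ((N : ℝ)⁻¹) (((2 ^ j : ℕ) : ℝ)⁻¹) * (3 * ((2 : ℝ) ^ (1 / 2 - κ)) ^ j) := by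
      rw [Finset.mul_sum]
      exact Finset.sum_congr rfl fun j _ => by ring
    rw [h5]
    have h6 := mul_le_mul_of_nonneg_left (dyad_sum κ h0 h1 N hN J) (by positivity : 0 ≤ B * √v)
    refine h6.trans (le_of_eq ?_)
    ring
  have hlim : Filter.Tendsto (fun J : ℕ => Cd κ * B * √v * (N : ℝ) ^ (-(1 / 2 + κ)) +
      S.card * ((2 : ℝ)⁻¹) ^ J) Filter.atTop
      (nhds (Cd κ * B * √v * (N : ℝ) ^ (-(1 / 2 + κ)) + S.card * 0)) :=
    (((tendsto_pow_atTop_nhds_zero_of_lt_one (by norm_num) (by norm_num)).const_mul _).const_add _)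
  have := ge_of_tendsto' hlim step3
  rw [mul_zero, add_zero] at this
  exact this

end

end Pool.Agent.Y990.PL
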