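import Pool.Agent.W783.Perc.Stmts
import Pool.Agent.W424.PC.Russo
import Pool.Agent.H974R2.BK

set_option autoImplicit false

open MeasureTheory Set

/-!
Power-law bound for critical percolation with weak long-range bonds (project PL of helper990):
definitions and statements of the parts.  Each `S_*` is to be proved in its own file.
-/

namespace Pool.Agent.Y990.PL

open Pool.Agent.W783.PC Pool.Agent.W424.PC

noncomputable section

/-! ### Events -/

/-- `x0` is open and connected inside `R` to a vertex of `T`. -/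
def Arm {n : ℕ} (E : Set (Sym2 (V n))) (R T : Set (V n)) (x0 : V n) : Set (Cfg n) :=
  {ω | ω (Sum.inl x0) = true ∧ ∃ y ∈ T, (G E ω R).Reachable x0 y}

/-- `x0` is open and some vertex of its cluster inside `S` is joined to `y` by an open bond
(nothing is required of the site `y`). -/
def Adj1 {n : ℕ} (E : Set (Sym2 (V n))) (S : Set (V n)) (x0 y : V n) : Set (Cfg n) :=
  {ω | ω (Sum.inl x0) = true ∧ ∃ x ∈ S, (G E ω S).Reachable x0 x ∧ s(x, y) ∈ E ∧
    ω (Sum.inr s(x, y)) = true}

open scoped Classical in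
/-- DCTU: the differential inequality of Duminil-Copin and Tassion for site-bond percolation.
If for every set `S` not meeting `T` the expected number of vertices of `R` outside `S` adjacent (by
an open bond) to the cluster of `x0` in `S` is at least `c`, then there are many pivotal closed
sites and bonds for the connection from `x0` to `T`. -/
def S_dctu : Prop := ∀ (n : ℕ) (r : Ix n → unitInterval) (E : Set (Sym2 (V n)))
  (R T : Finset (V n)) (x0 : V n) (c : ℝ), T ⊆ R → x0 ∈ R → x0 ∉ T → 0 ≤ c → c ≤ 1 →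
  (∀ S : Finset (V n), S ⊆ R → Disjoint S T → x0 ∈ S →
    c ≤ ∑ y ∈ R \ S, (pm r).real (Adj1 E (S : Set (V n)) x0 y)) →
  c * (1 - (pm r).real (Arm E (R : Set (V n)) (T : Set (V n)) x0)) ≤
    ∑ y ∈ R, (pm r).real (Piv (Arm E (R : Set (V n)) (T : Set (V n)) x0) (Sum.inl y) ∩
      {ω | ω (Sum.inl y) = false}) +
    ∑ e ∈ R.sym2, (r (Sum.inr e) : ℝ) *
      (pm r).real (Piv (Arm E (R : Set (V n)) (T : Set (V n)) x0) (Sum.inr e) ∩
        {ω | ω (Sum.inr e) = false})

open scoped Classical in
/-- PIVCOUNT: there are at most as many open pivotal bonds as open pivotal sites. -/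
def S_pivcount : Prop := ∀ (n : ℕ) (E : Set (Sym2 (V n))) (R T : Finset (V n)) (x0 : V n),
  T ⊆ R → x0 ∈ R → x0 ∉ T → ∀ ω : Cfg n,
  (R.sym2.filter (fun e => ω (Sum.inr e) = true ∧
    ω ∈ Piv (Arm E (R : Set (V n)) (T : Set (V n)) x0) (Sum.inr e))).card ≤
  (R.filter (fun x => ω (Sum.inl x) = true ∧
    ω ∈ Piv (Arm E (R : Set (V n)) (T : Set (V n)) x0) (Sum.inl x))).card

open scoped Classical in
/-- SUSC: if every vertex `x` has a finite set `S x` around it of size at most `M` such that the
expected number of vertices outside `S x` adjacent (by an open bond) to the cluster of `x` in `S x`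
is at most `ρ < 1`, then the mean cluster size is at most `M / (1 - ρ)`. -/
def S_susc : Prop := ∀ (n : ℕ) (r : Ix n → unitInterval) (E : Set (Sym2 (V n)))
  (S : V n → Finset (V n)) (M : ℕ) (ρ : ℝ), 0 ≤ ρ → ρ < 1 → (∀ x, x ∈ S x ∧ (S x).card ≤ M) →
  (∀ x, ∀ T : Finset (V n),
    ∑ y ∈ T \ S x, (pm r).real (Adj1 E (S x : Set (V n)) x y) ≤ ρ) →
  ∀ (R : Finset (V n)) (x : V n), x ∈ R →
    ∑ z ∈ R, (pm r).real {ω | ω (Sum.inl x) = true ∧ (G E ω (R : Set (V n))).Reachable x z} ≤
      M / (1 - ρ)

/-! ### The BK inequality with one shared element, and splitting of clusters -/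

/-- BKS: if the elements of `J` have probability at least `a`, two increasing events which occur
on sets sharing at most one element, in `J`, satisfy a BK inequality with constant `4 / a`. -/
def S_bks : Prop := ∀ (E : Type) [DecidableEq E] (p : E → ℝ) (a : ℝ) (J S : Finset E)
  (A B : Finset E → Prop), H974.Ok p → 0 < a → a ≤ 1 → (∀ c ∈ J, a ≤ p c) → H974.IncrE S A →
  H974.IncrE S B →
  H974.Pr p S (fun F => ∃ K L, K ⊆ F ∧ L ⊆ F ∧ (K ∩ L).card ≤ 1 ∧ K ∩ L ⊆ J ∧ A K ∧ B L) ≤
    4 / a * (H974.Pr p S A * H974.Pr p S B)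

/-- SPLIT: a finite connected graph with at least `3 l` marked vertices is the union of two
connected subgraphs sharing at most one vertex, with at least `l` marked vertices each. -/
def S_split : Prop := ∀ (W : Type) [DecidableEq W] (H : SimpleGraph W) (C L : Finset W) (u : W)
  (l : ℕ), 1 ≤ l → u ∈ C → (H.induce (C : Set W)).Connected → 3 * l ≤ (C ∩ L).card →
  ∃ C1 C2 : Finset W, C1 ⊆ C ∧ C2 ⊆ C ∧ (C1 ∩ C2).card ≤ 1 ∧ u ∈ C1 ∧
    (H.induce (C1 : Set W)).Connected ∧ (H.induce (C2 : Set W)).Connected ∧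
    l ≤ (C1 ∩ L).card ∧ l ≤ (C2 ∩ L).card

end

end Pool.Agent.Y990.PL
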