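import Pool.Agent.Y990.PL.Core
import Pool.Agent.Y686.PL.Boot
import Pool.Agent.Y122.PL.Susc

set_option autoImplicit false

open MeasureTheory Set Filter
open scoped Topology

/-!
Uniform bound in the subcritical phase.
-/

namespace Pool.Agent.Y990.PL

open Pool.Agent.W783.PC
open H974 (ind ind_of ind_not_of ind_nonneg ind_le_one ind_congr Ok Ex)

noncomputable section

variable {n : ℕ}

/-- Finite clusters from a tail bound. -/
lemma fin_of_tail (r : Ix n → unitInterval) (E : Set (Sym2 (V n))) {χ : ℝ}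
    (h : ∀ (x : V n) (t : ℕ), 1 ≤ t → (pm r).real (Big E t x) ≤ χ / t) :
    ∀ᵐ ω ∂(pm r), ∀ z, (Kc E ω z).Finite := by
  rw [ae_all_iff]
  intro z
  rw [ae_iff]
  have h1 : ∀ t : ℕ, 1 ≤ t → (pm r).real {ω | ¬ (Kc E ω z).Finite} ≤ χ / t := by
    intro t ht
    refine le_trans (measureReal_mono ?_ (measure_ne_top _ _)) (h z t ht)
    intro ω hω
    have hinf : (Kc E ω z).Infinite := hω
    show (t : ℕ∞) ≤ (Kc E ω z).encard
    rw [hinf.encard_eq]
    exact le_top
  have h2 : Tendsto (fun t : ℕ => χ / (t : ℝ)) atTop (𝓝 0) :=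
    tendsto_const_div_atTop_nhds_zero_nat χ
  have h3 : (pm r).real {ω | ¬ (Kc E ω z).Finite} ≤ 0 :=
    ge_of_tendsto h2 ((eventually_ge_atTop 1).mono fun t ht => h1 t ht)
  have h4 : (pm r).real {ω | ¬ (Kc E ω z).Finite} = 0 := le_antisymm h3 measureReal_nonneg
  rw [Measure.real, ENNReal.toReal_eq_zero_iff] at h4
  exact h4.resolve_right (measure_ne_top _ _)

theorem unif (hline : S_line) {m : ℕ} (hm : 1 ≤ m) {s : ℝ} (hs : 1 < s) (hs2 : s < 2)
    {c0 β0 β1 : ℝ} (hc0 : 0 < c0) (hc1 : c0 ≤ 1) (hβ0 : 0 < β0)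
    (hβ1 : β0 ≤ β1) : ∃ Cs : ℝ, 0 < Cs ∧
    ∀ (a p : unitInterval) (β : NNReal), c0 ≤ (a : ℝ) → c0 ≤ (p : ℝ) → β0 ≤ β → (β : ℝ) ≤ β1 →
    (∃ χ : ℝ, ∀ (x : V n) (t : ℕ), 1 ≤ t →
      (pm (prob (n := n) a p β s m)).real (Big (EdI m) t x) ≤ χ / t) →
    ∀ N : ℕ, 1 ≤ N → (pm (prob (n := n) a p β s m)).real (Big (EdI m) N 0) ≤
      Cs * (N : ℝ) ^ (-((2 - s) / (1 + s))) := by
  set κ : ℝ := (2 - s) / (1 + s) with hκ
  have h0 : 0 < κ := div_pos (by linarith) (by linarith)
  have h1 : κ < 1 / 2 := by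
    rw [hκ, div_lt_div_iff₀ (by linarith) (by norm_num)]
    linarith
  obtain ⟨C3, C4, h3, h4, hrec⟩ := recur (n := n) hline hm hs h0 h1 hc0 hc1 hβ0 hβ1
  obtain ⟨Cs, hCs, hboot⟩ := Pool.Agent.Y686.PL.boot (s - 1) κ C3 C4 2 (by linarith)
    (by linarith) (by rw [hκ]; congr 1 <;> ring) h3 h4 (by norm_num)
  refine ⟨max Cs 2, by positivity, ?_⟩
  rintro a p β ha hp hb0 hb1 ⟨χ, hχ⟩
  set P := pm (prob (n := n) a p β s m) with hP
  have hfin := fin_of_tail (prob (n := n) a p β s m) (EdI m) hχ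
  set θ : ℕ → ℝ := fun N => P.real (Big (EdI m) N 0) with hθ
  set X : Set ℝ := {x | ∃ N : ℕ, 1 ≤ N ∧ x = (N : ℝ) ^ κ * θ N} with hX
  have hθ0 : ∀ N, 0 ≤ θ N := fun N => measureReal_nonneg
  have hθ1 : ∀ N, θ N ≤ 1 := fun N => measureReal_le_one
  have hne : X.Nonempty := ⟨_, 1, le_rfl, rfl⟩
  have hχ0 : 0 ≤ χ := by
    have := hχ 0 1 le_rfl
    rw [Nat.cast_one, div_one] at this
    exact measureReal_nonneg.trans this
  have hbdd : BddAbove X := by
    refine ⟨χ, ?_⟩
    rintro x ⟨N, hN, rfl⟩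
    have hN0 : (0 : ℝ) < N := by exact_mod_cast hN
    have g1 : (N : ℝ) ^ κ ≤ N := by
      calc (N : ℝ) ^ κ ≤ (N : ℝ) ^ (1 : ℝ) :=
            Real.rpow_le_rpow_of_exponent_le (by exact_mod_cast hN) (by linarith)
        _ = N := Real.rpow_one _
    calc (N : ℝ) ^ κ * θ N ≤ N * (χ / N) :=
          mul_le_mul g1 (hχ 0 N hN) (hθ0 N) hN0.le
      _ = χ := by field_simp
  set A : ℝ := sSup X with hA
  have hle : ∀ N : ℕ, 1 ≤ N → θ N ≤ A * (N : ℝ) ^ (-κ) := by
    intro N hN
    have hN0 : (0 : ℝ) < N := by exact_mod_cast hN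
    have g1 : (N : ℝ) ^ κ * θ N ≤ A := le_csSup hbdd ⟨N, hN, rfl⟩
    rw [Real.rpow_neg hN0.le, ← div_eq_mul_inv, le_div_iff₀ (by positivity)]
    linarith
  have hmain : A ≤ max Cs 2 := by
    by_contra hc
    push Not at hc
    have c1 : Cs < A := (le_max_left _ _).trans_lt hc
    have c2 : 2 < A := (le_max_right _ _).trans_lt hc
    have hb := hboot (fun N => if N < 2 then 0 else θ N) A c1.le (by
      intro N
      split_ifs
      · exact ⟨le_rfl, zero_le_one⟩
      · exact ⟨hθ0 N, hθ1 N⟩) (by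
      intro N l hN hl
      have hl' : 2 ≤ l := by exact_mod_cast hl
      split_ifs with hN2
      · have : 0 ≤ C4 * A ^ (2 / (1 + κ)) * (l : ℝ) ^ (-(2 * κ / (1 + κ))) +
            C3 * A * (l : ℝ) ^ ((s - 1) / 2) * (N : ℝ) ^ (-(1 / 2 + κ)) := by positivity
        simpa using this
      · exact hrec a p β ha hp hb0 hb1 hfin A (by linarith) hle N l (by omega) hl')
    have hA2 : A ≤ A / 2 := by
      refine csSup_le hne ?_
      rintro x ⟨N, hN, rfl⟩
      have hN0 : (0 : ℝ) < N := by exact_mod_cast hN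
      by_cases hN2 : N < 2
      · have hN1 : N = 1 := by omega
        subst hN1
        have := hθ1 1
        rw [Nat.cast_one, Real.one_rpow, one_mul]
        linarith
      · have g1 := hb N hN
        simp only [if_neg hN2] at g1
        rw [Real.rpow_neg hN0.le, ← div_eq_mul_inv, le_div_iff₀ (by positivity)] at g1
        linarith
    linarith
  intro N hN
  exact (hle N hN).trans (mul_le_mul_of_nonneg_right hmain (by positivity))

/-! ### Translation of one-step exits -/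

lemma Adj1_tau {m : ℕ} {z : V n} (hz : ∀ i, (m : ℤ) ∣ z.2 i) (S : Set (V n)) (x y : V n)
    (ω : Cfg n) : tau z ω ∈ Adj1 (EdI m) S x y ↔
      ω ∈ Adj1 (EdI m) {v | v - z ∈ S} (x + z) (y + z) := by
  have hE : ∀ x y : V n, s(x + z, y + z) ∈ EdI m ↔ s(x, y) ∈ EdI m := fun x y =>
    (Pool.Agent.W599.PC.Gr2.s_shift_E n m 0 z hz x y).2
  have hG : ∀ x y : V n, (G (EdI m) (tau z ω) S).Reachable x y ↔
      (G (EdI m) ω {v | v - z ∈ S}).Reachable (x + z) (y + z) := fun x y =>
    Pool.Agent.W599.PC.Gr2.s_shift_G n (EdI m) z hE ω S x y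
  constructor
  · rintro ⟨h1, u, hu, h2, h3, h4⟩
    refine ⟨h1, u + z, ?_, (hG x u).1 h2, (hE u y).2 h3, h4⟩
    show u + z - z ∈ S
    rwa [add_sub_cancel_right]
  · rintro ⟨h1, u, hu, h2, h3, h4⟩
    have hu' : u - z + z = u := sub_add_cancel u z
    refine ⟨h1, u - z, hu, (hG x (u - z)).2 (by rwa [hu']), (hE (u - z) y).1 (by rwa [hu']), ?_⟩
    show ω (Sum.inr s(u - z + z, y + z)) = true
    rwa [hu']

lemma meas_Adj1 (E : Set (Sym2 (V n))) (S : Set (V n)) (x y : V n) :
    MeasurableSet (Adj1 E S x y) := by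
  have : Adj1 E S x y = {ω : Cfg n | ω (Sum.inl x) = true} ∩
      ⋃ u : V n, ({ω | (G E ω S).Reachable x u} ∩
        ({ω | ω (Sum.inr s(u, y)) = true} ∩ {_ω : Cfg n | u ∈ S ∧ s(u, y) ∈ E})) := by
    ext ω
    simp only [Adj1, mem_inter_iff, mem_iUnion, mem_ofPred_eq]
    constructor
    · rintro ⟨h1, u, hu, h2, h3, h4⟩
      exact ⟨h1, u, h2, h4, hu, h3⟩
    · rintro ⟨h1, u, h2, h4, hu, h3⟩
      exact ⟨h1, u, hu, h2, h3, h4⟩
  rw [this]
  refine (meas_co _).inter (MeasurableSet.iUnion fun u => ?_)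
  exact (Pool.Agent.W975.PC.s_reach_meas n E S x u).inter ((meas_co _).inter (MeasurableSet.const _))

lemma Adj1_shift {a p : unitInterval} {β : NNReal} {s : ℝ} {m : ℕ} {z : V n}
    (hz : ∀ i, (m : ℤ) ∣ z.2 i) (S : Set (V n)) (x y : V n) :
    (pm (prob (n := n) a p β s m)).real (Adj1 (EdI m) {v | v - z ∈ S} (x + z) (y + z)) =
      (pm (prob (n := n) a p β s m)).real (Adj1 (EdI m) S x y) := by
  have h := Pool.Agent.W599.PC.Gr2.s_shift_pm Pool.Agent.W400.PC.s_equiv n m a p β s z hz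
    (Adj1 (EdI m) S x y) (meas_Adj1 _ _ _ _)
  have h2 : {ω : Cfg n | (fun c => ω (sh z c)) ∈ Adj1 (EdI m) S x y} =
      Adj1 (EdI m) {v | v - z ∈ S} (x + z) (y + z) := by
    ext ω
    exact Adj1_tau hz S x y ω
  rw [h2] at h
  rw [Measure.real, h]
  rfl

/-! ### Tail of the cluster size in the subcritical phase -/

lemma tail_R (r : Ix n → unitInterval) (E : Set (Sym2 (V n))) {k t : ℕ} (ht : 2 ≤ t) {x : V n}
    (hx : x ∈ Rg n k) {χ : ℝ}
    (h : ∑ z ∈ (Rg_fin (n := n) k).toFinset, (pm r).real {ω | ω (Sum.inl x) = true ∧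
      (G E ω (Rg n k)).Reachable x z} ≤ χ) :
    (pm r).real (BigR E k t x) ≤ χ / t := by
  classical
  set R := (Rg_fin (n := n) k).toFinset with hR
  have ht0 : (0 : ℝ) < t := by exact_mod_cast (by omega : 0 < t)
  have hm : ∀ z, MeasurableSet {ω : Cfg n | ω (Sum.inl x) = true ∧
      (G E ω (Rg n k)).Reachable x z} := fun z =>
    (meas_co _).inter (Pool.Agent.W975.PC.s_reach_meas n E (Rg n k) x z)
  have mB : MeasurableSet (BigR E k t x) :=
    Pool.Agent.W45.PC.s_depmeas _ (Cf n k) _ (BigR_dep E k t x)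
  have e1 : ∑ z ∈ R, (pm r).real {ω | ω (Sum.inl x) = true ∧ (G E ω (Rg n k)).Reachable x z} =
      ∫ ω, ∑ z ∈ R, ind (ω (Sum.inl x) = true ∧ (G E ω (Rg n k)).Reachable x z) ∂(pm r) := by
    rw [integral_finsetSum]
    · exact Finset.sum_congr rfl fun z _ => (int_ind r (hm z)).symm
    · exact fun z _ => int_bdd r (meas_ind (hm z)) 1 fun ω => by
        rw [abs_of_nonneg (ind_nonneg _)]; exact ind_le_one _
  have e2 : (pm r).real (BigR E k t x) = ∫ ω, ind (ω ∈ BigR E k t x) ∂(pm r) :=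
    (int_ind r mB).symm
  rw [le_div_iff₀ ht0, e2, mul_comm, ← integral_const_mul]
  rw [e1] at h
  refine le_trans (integral_mono ?_ ?_ ?_) h
  · exact (int_bdd r (meas_ind mB) 1 fun ω => by
      rw [abs_of_nonneg (ind_nonneg _)]; exact ind_le_one _).const_mul _
  · exact integrable_finsetSum _ fun z _ => int_bdd r (meas_ind (hm z)) 1 fun ω => by
      rw [abs_of_nonneg (ind_nonneg _)]; exact ind_le_one _
  · intro ω
    simp only
    by_cases hω : ω ∈ BigR E k t x
    · rw [ind_of hω, mul_one]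
      have hop : ω (Sum.inl x) = true :=
        open_of_Big (E := E) ht (by
          rw [Big_iUnion, mem_iUnion]; exact ⟨k, hω⟩)
      have h2 : cl E ω (Rg n k) x ⊆ Rg n k := fun y hy =>
        Pool.Agent.W230.PCBig.reach_mem hx hy
      have hfin : (cl E ω (Rg n k) x).Finite := (Rg_fin k).subset h2
      have h3 : (t : ℕ∞) ≤ (hfin.toFinset.card : ℕ∞) := by
        rw [← hfin.encard_eq_coe_toFinset_card]; exact hω
      have h4 : t ≤ hfin.toFinset.card := by exact_mod_cast h3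
      have h5 : hfin.toFinset ⊆ R := by
        intro y hy
        rw [hfin.mem_toFinset] at hy
        rw [hR, Set.Finite.mem_toFinset]
        exact h2 hy
      calc (t : ℝ) ≤ hfin.toFinset.card := by exact_mod_cast h4
        _ = ∑ z ∈ hfin.toFinset, (1 : ℝ) := by simp
        _ = ∑ z ∈ hfin.toFinset, ind (ω (Sum.inl x) = true ∧
              (G E ω (Rg n k)).Reachable x z) := by
            refine Finset.sum_congr rfl fun z hz => ?_
            rw [hfin.mem_toFinset] at hz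
            rw [ind_of ⟨hop, hz⟩]
        _ ≤ _ := Finset.sum_le_sum_of_subset_of_nonneg h5 fun z _ _ => ind_nonneg _
    · rw [ind_not_of hω, mul_zero]
      exact Finset.sum_nonneg fun z _ => ind_nonneg _

open scoped Classical in
/-- The finite-size criterion at the representatives gives the tail bound. -/
theorem tail {a p : unitInterval} {β : NNReal} {s : ℝ} {m : ℕ} (hm : 1 ≤ m)
    (h : ∀ x0 : V n, ∃ (S : Finset (V n)) (ρ : ℝ), x0 ∈ S ∧ 0 ≤ ρ ∧ ρ < 1 ∧ ∀ T : Finset (V n),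
      ∑ y ∈ T \ S, (pm (prob (n := n) a p β s m)).real
        (Adj1 (EdI m) (S : Set (V n)) x0 y) ≤ ρ) :
    ∃ χ : ℝ, ∀ (x : V n) (t : ℕ), 1 ≤ t →
      (pm (prob (n := n) a p β s m)).real (Big (EdI m) t x) ≤ χ / t := by
  set P := pm (prob (n := n) a p β s m) with hP
  have h1 : ∀ j : Fin n → Fin m, ∃ (S : Finset (V n)) (ρ : ℝ), rep j ∈ S ∧ 0 ≤ ρ ∧ ρ < 1 ∧
      ∀ T : Finset (V n), ∑ y ∈ T \ S, P.real (Adj1 (EdI m) (S : Set (V n)) (rep j) y) ≤ ρ :=
    fun j => h (rep j)
  choose f g hf hg0 hg1 hfg using h1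
  have hne : (Finset.univ : Finset (Fin n → Fin m)).Nonempty :=
    ⟨fun _ => ⟨0, by omega⟩, Finset.mem_univ _⟩
  set ρ := Finset.univ.sup' hne g with hρ
  have hρ0 : 0 ≤ ρ := by
    obtain ⟨j, hj⟩ := hne
    exact (hg0 j).trans (Finset.le_sup' g hj)
  have hρ1 : ρ < 1 := by
    rw [hρ, Finset.sup'_lt_iff]
    exact fun j _ => hg1 j
  set M := Finset.univ.sup (fun j => (f j).card) with hM
  -- the set at a general vertex
  have hdec : ∀ x : V n, ∃ (w : V n) (j : Fin n → Fin m), x = rep j + gam m w := by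
    intro x
    obtain ⟨⟨w, j⟩, rfl⟩ := (dec n m hm).surjective x
    exact ⟨w, j, rfl⟩
  choose w j hwj using hdec
  set S : V n → Finset (V n) := fun x => (f (j x)).image (fun v => v + gam m (w x)) with hS
  have hinj : ∀ z : V n, Function.Injective (fun v : V n => v + z) := fun z =>
    add_left_injective z
  have hscoe : ∀ x, (S x : Set (V n)) = {v | v - gam m (w x) ∈ (f (j x) : Set (V n))} := by
    intro x
    ext v
    rw [hS]
    simp only [Finset.coe_image, mem_image, Finset.mem_coe, mem_ofPred_eq]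
    constructor
    · rintro ⟨v', hv', rfl⟩
      rwa [add_sub_cancel_right]
    · intro hv
      exact ⟨_, hv, sub_add_cancel _ _⟩
  have hsus := Pool.Agent.Y122.PL.susc n (prob (n := n) a p β s m) (EdI m) S M ρ hρ0 hρ1 (by
    intro x
    refine ⟨?_, ?_⟩
    · rw [hS]
      simp only [Finset.mem_image]
      exact ⟨rep (j x), hf _, (hwj x).symm⟩
    · rw [hS]
      simp only
      rw [Finset.card_image_of_injective _ (hinj _)]
      exact Finset.le_sup (f := fun j => (f j).card) (Finset.mem_univ (j x))) (by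
    intro x T
    have e1 : ∀ y, P.real (Adj1 (EdI m) (S x : Set (V n)) x y) =
        P.real (Adj1 (EdI m) (f (j x) : Set (V n)) (rep (j x)) (y - gam m (w x))) := by
      intro y
      have := Adj1_shift (n := n) (a := a) (p := p) (β := β) (s := s) (gam_dvd m (w x))
        (f (j x) : Set (V n)) (rep (j x)) (y - gam m (w x))
      rw [sub_add_cancel, ← hwj x, ← hscoe x] at this
      exact this
    rw [Finset.sum_congr rfl fun y _ => e1 y]
    have hinj' : Set.InjOn (fun y : V n => y - gam m (w x)) (T \ S x : Finset (V n)) :=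
      fun y _ y' _ h => sub_left_injective h
    rw [← Finset.sum_image (f := fun y => P.real
      (Adj1 (EdI m) (f (j x) : Set (V n)) (rep (j x)) y)) hinj']
    have h3 : (T \ S x).image (fun y : V n => y - gam m (w x)) =
        (T.image (fun y : V n => y - gam m (w x))) \ f (j x) := by
      ext y
      simp only [Finset.mem_image, Finset.mem_sdiff]
      constructor
      · rintro ⟨y', ⟨h4, h5⟩, rfl⟩
        refine ⟨⟨y', h4, rfl⟩, fun h6 => h5 ?_⟩
        rw [hS]
        simp only [Finset.mem_image]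
        exact ⟨_, h6, sub_add_cancel _ _⟩
      · rintro ⟨⟨y', h4, rfl⟩, h5⟩
        refine ⟨y', ⟨h4, fun h6 => h5 ?_⟩, rfl⟩
        rw [hS] at h6
        simp only [Finset.mem_image] at h6
        obtain ⟨v, hv, rfl⟩ := h6
        rwa [add_sub_cancel_right]
    rw [h3]
    exact (hfg (j x) _).trans (Finset.le_sup' g (Finset.mem_univ _)))
  refine ⟨max (M / (1 - ρ)) 1, fun x t ht => ?_⟩
  have ht0 : (0 : ℝ) < t := by exact_mod_cast ht
  by_cases ht2 : t < 2
  · have : t = 1 := by omega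
    subst this
    rw [Nat.cast_one, div_one]
    exact measureReal_le_one.trans (le_max_right _ _)
  · obtain ⟨k0, hk0⟩ := Rg_mem x
    rw [Big_iUnion]
    refine le_of_tendsto (tendsto_pm _ (BigR_mono (EdI m) t x))
      ((eventually_ge_atTop k0).mono fun k hk => ?_)
    have hxk : x ∈ Rg n k := Rg_mono hk hk0
    have h5 := hsus (Rg_fin (n := n) k).toFinset x (by
      rw [Set.Finite.mem_toFinset]; exact hxk)
    rw [Set.Finite.coe_toFinset] at h5
    exact tail_R _ _ (by omega) hxk (h5.trans (le_max_left _ _))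

/-! ### Passage to the limit of the parameters -/

lemma lim_tail (r : Ix n → unitInterval) (E : Set (Sym2 (V n))) (N : ℕ) (x : V n) {b : ℝ}
    (h : ∀ δ : ℝ, 0 < δ → ∃ r' : Ix n → unitInterval, (∀ c, |(r c : ℝ) - r' c| ≤ δ) ∧
      (pm r').real (Big E N x) ≤ b) : (pm r).real (Big E N x) ≤ b := by
  rw [Big_iUnion]
  refine le_of_tendsto (tendsto_pm r (BigR_mono E N x)) (Eventually.of_forall fun k => ?_)
  refine le_of_forall_pos_le_add fun ε hε => ?_
  have hc : (0 : ℝ) < (Cf n k).card + 1 := by positivity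
  obtain ⟨r', h1, h2⟩ := h (ε / ((Cf n k).card + 1)) (div_pos hε hc)
  have h3 := Pool.Agent.W400.PC.s_tv _ r r' (Cf n k) _ (BigR_dep E k N x)
  have h4 : ∑ c ∈ Cf n k, |(r c : ℝ) - r' c| ≤ ε := by
    refine (Finset.sum_le_sum fun c _ => h1 c).trans ?_
    rw [Finset.sum_const, nsmul_eq_mul, ← mul_div_assoc, div_le_iff₀ hc]
    nlinarith
  have h5 : (pm r').real (BigR E k N x) ≤ b := by
    refine le_trans (measureReal_mono ?_ (measure_ne_top _ _)) h2
    rw [Big_iUnion]
    exact subset_iUnion (fun k => BigR E k N x) k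
  have h6 := le_abs_self ((pm r).real (BigR E k N x) - (pm r').real (BigR E k N x))
  linarith

end

end Pool.Agent.Y990.PL
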