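import Pool.Agent.Y990.PL.Near
import Pool.Agent.Y990.PL.FinS

set_option autoImplicit false

open MeasureTheory Set Filter
open scoped Topology

/-!
The near-critical window; Hoelder continuity of the percolation probability at the critical point.
-/

namespace Pool.Agent.Y990.PL

open Pool.Agent.W783.PC
open Pool.Agent.W424.PC (upd upd_self upd_ne upd_of measurable_upd Piv russo_pm EE I1 pm_eq_EE)
open H974 (ind ind_of ind_not_of ind_nonneg ind_le_one ind_congr Ok Ex)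

noncomputable section

variable {n : ℕ}

/-- The parameter `u`, cut off to the unit interval. -/
def cut (u : ℝ) : unitInterval := Set.projIcc (0 : ℝ) 1 zero_le_one u

lemma cut_val {u : ℝ} (h0 : 0 ≤ u) (h1 : u ≤ 1) : (cut u : ℝ) = u := by
  unfold cut
  rw [Set.projIcc_of_mem zero_le_one ⟨h0, h1⟩]

/-- The real parameters. -/
def rho (β : NNReal) (s : ℝ) (m : ℕ) (u : ℝ) : Ix n → ℝ
  | Sum.inl _ => u
  | Sum.inr e => (prob (n := n) 0 1 β s m (Sum.inr e) : ℝ)

lemma rho_eq {β : NNReal} {s : ℝ} {m : ℕ} {u : ℝ} (h0 : 0 ≤ u) (h1 : u ≤ 1) (c : Ix n) :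
    rho β s m u c = (prob (n := n) (cut u) 1 β s m c : ℝ) := by
  rcases c with v | e
  · exact (cut_val h0 h1).symm
  · rfl

/-- The derivative of the tail at an interior parameter. -/
lemma tail_deriv (hsec : S_secA) (β : NNReal) (s : ℝ) (m k t : ℕ) {u : ℝ} (h0 : 0 < u)
    (h1 : u < 1) : ∃ D : ℝ, HasDerivAt
      (fun u => (pm (prob (n := n) (cut u) 1 β s m)).real (BigO (EdI m) k t 0)) D u ∧
    u * (1 - u) * D ≤ √((pm (prob (n := n) (cut u) 1 β s m)).real (BigO (EdI m) k t 0)) *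
      √(∑ t' ∈ Finset.Icc 1 t,
        (pm (prob (n := n) (cut u) 1 β s m)).real (BigO (EdI m) k t' 0)) := by
  classical
  set A := BigO (n := n) (EdI m) k t 0 with hA
  have hz : (0 : V n) ∈ Rg n k := Pool.Agent.W230.PCBig.zero_mem_CB k k
  have hdep : DepOn A (Cf n k : Set (Ix n)) := BigO_dep (EdI m) k t hz
  set r := prob (n := n) (cut u) 1 β s m with hr
  set ρ' : Ix n → ℝ := fun c => match c with
    | Sum.inl _ => 1
    | Sum.inr _ => 0 with hρ'
  have hd := russo_pm Pool.Agent.W45.PC.s_indep Pool.Agent.W45.PC.s_depmeas r hdep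
    (BigO_inc _ _ _ _) (fun u => rho β s m u) ρ' u (by
      intro c
      rcases c with v | e
      · exact hasDerivAt_id' u
      · exact hasDerivAt_const u _) (fun c => rho_eq h0.le h1.le c)
  have hsum : ∑ c ∈ Cf n k, ρ' c * (pm r).real (Piv A c) =
      ∑ c ∈ Sites n k, (pm r).real (Piv A c) := by
    have hsub : Sites n k ⊆ Cf n k := by
      intro c hc
      unfold Sites at hc
      rw [Finset.mem_image] at hc
      obtain ⟨v, hv, rfl⟩ := hc
      rw [Set.Finite.mem_toFinset] at hv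
      unfold Cf
      rw [Set.Finite.mem_toFinset]
      exact Or.inl ⟨v, hv, rfl⟩
    rw [← Finset.sum_subset hsub]
    · refine Finset.sum_congr rfl fun c hc => ?_
      unfold Sites at hc
      rw [Finset.mem_image] at hc
      obtain ⟨v, _, rfl⟩ := hc
      exact one_mul _
    · intro c hc hnc
      rcases c with v | e
      · exfalso
        apply hnc
        rw [mem_Sites]
        unfold Cf at hc
        rw [Set.Finite.mem_toFinset] at hc
        rcases hc with ⟨x, hx, h⟩ | ⟨e, _, h⟩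
        · rw [Sum.inl.inj h]; exact hx
        · cases h
      · exact zero_mul _
  rw [hsum] at hd
  refine ⟨_, hd.congr_of_eventuallyEq ?_, ?_⟩
  · have hmem : Ioo (0 : ℝ) 1 ∈ 𝓝 u := Ioo_mem_nhds h0 h1
    filter_upwards [hmem] with w hw
    rw [pm_eq_EE Pool.Agent.W45.PC.s_indep Pool.Agent.W45.PC.s_depmeas _ hdep]
    congr 1
    funext c
    exact (rho_eq hw.1.le hw.2.le c).symm
  · have := deriv_site hsec (cut u) 1 β s m k t (n := n)
    rw [cut_val h0.le h1.le] at this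
    exact this

/-- The near-critical window. -/
theorem window (hsec : S_secA) (hgron : S_gron) {m : ℕ} {s : ℝ}
    (β : NNReal) {κ : ℝ} (h0 : 0 < κ) (h1 : κ < 1 / 2) {a b : ℝ} (ha : 0 < a)
    (hb : b < 1) : ∃ c : ℝ, 0 < c ∧ ∀ C0 : ℝ, 0 < C0 →
    (∀ N : ℕ, 1 ≤ N → (pm (prob (n := n) (cut a) 1 β s m)).real (Big (EdI m) N 0) ≤
      C0 * (N : ℝ) ^ (-κ)) →
    ∀ N : ℕ, 2 ≤ N → ∀ u : ℝ, a ≤ u → u ≤ b → u - a ≤ c * (N : ℝ) ^ (-(1 / 2 : ℝ)) →
    (pm (prob (n := n) (cut u) 1 β s m)).real (Big (EdI m) N 0) ≤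
      2 * C0 * (N : ℝ) ^ (-κ) := by
  obtain ⟨c, hc, hg⟩ := hgron κ (max (a * (1 - b))⁻¹ 1) h0 h1
    (lt_of_lt_of_le one_pos (le_max_right _ _))
  refine ⟨c, hc, fun C0 hC0 htail N hN u hau hub hu => ?_⟩
  rw [Big_iUnion]
  refine le_of_tendsto (tendsto_pm _ (BigR_mono (EdI m) N (0 : V n)))
    (Eventually.of_forall fun k => ?_)
  refine (measureReal_mono (BigR_sub (EdI m) k hN (0 : V n)) (measure_ne_top _ _)).trans ?_
  refine hg N (fun t w => (pm (prob (n := n) (cut w) 1 β s m)).real (BigO (EdI m) k t 0)) C0 a u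
    (by omega) hC0 hau hu (fun t w => measureReal_nonneg) ?_ ?_ N (by omega) le_rfl
  · intro t ht htN w hw
    have hw0 : 0 < w := lt_of_lt_of_le ha hw.1
    have hwb : w ≤ b := hw.2.trans hub
    have hw1 : w < 1 := lt_of_le_of_lt hwb hb
    obtain ⟨D, hD, hDb⟩ := tail_deriv (n := n) hsec β s m k t hw0 hw1
    refine ⟨D, hD, ?_⟩
    set X := √((pm (prob (n := n) (cut w) 1 β s m)).real (BigO (EdI m) k t 0)) with hX
    set Y := √(∑ t' ∈ Finset.Icc 1 t,
        (pm (prob (n := n) (cut w) 1 β s m)).real (BigO (EdI m) k t' 0)) with hY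
    have hXY : 0 ≤ X * Y := mul_nonneg (Real.sqrt_nonneg _) (Real.sqrt_nonneg _)
    have hww : 0 < w * (1 - w) := mul_pos hw0 (by linarith)
    have hab : 0 < a * (1 - b) := mul_pos ha (by linarith)
    have hle : a * (1 - b) ≤ w * (1 - w) :=
      mul_le_mul hw.1 (by linarith) (by linarith) hw0.le
    have h3 : D ≤ (w * (1 - w))⁻¹ * (X * Y) := by
      rw [le_inv_mul_iff₀ hww]; exact hDb
    have h4 : (w * (1 - w))⁻¹ ≤ max (a * (1 - b))⁻¹ 1 :=
      (inv_anti₀ hab hle).trans (le_max_left _ _)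
    calc D ≤ (w * (1 - w))⁻¹ * (X * Y) := h3
      _ ≤ max (a * (1 - b))⁻¹ 1 * (X * Y) := mul_le_mul_of_nonneg_right h4 hXY
      _ = _ := by rw [mul_assoc]
  · intro t ht _
    exact (measureReal_mono (BigO_sub (EdI m) k t (0 : V n)) (measure_ne_top _ _)).trans
      (htail t ht)

/-- From the window to the percolation probability, abstract form. -/
theorem hoelderA {κ : ℝ} (h0 : 0 < κ) (th : unitInterval → ℝ) (F : ℝ → ℕ → ℝ)
    (hPB : ∀ (q : unitInterval) (N : ℕ), th q ≤ F q N) (hth1 : ∀ q, th q ≤ 1)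
    {a c C0 : ℝ} (ha1 : a < 1) (hc : 0 < c) (hC0 : 0 < C0)
    (htail : ∀ N : ℕ, 1 ≤ N → F a N ≤ C0 * (N : ℝ) ^ (-κ))
    (hw : ∀ N : ℕ, 2 ≤ N → ∀ u : ℝ, a ≤ u → u ≤ (1 + a) / 2 →
      u - a ≤ c * (N : ℝ) ^ (-(1 / 2 : ℝ)) → F u N ≤ 2 * C0 * (N : ℝ) ^ (-κ)) :
    ∃ C : ℝ, 0 < C ∧ ∀ q : unitInterval, a ≤ (q : ℝ) → th q ≤ C * ((q : ℝ) - a) ^ (2 * κ) := by
  set d0 : ℝ := min (c / 2) ((1 - a) / 2) with hd0
  have hd0p : 0 < d0 := lt_min (by linarith) (by linarith)
  refine ⟨max (2 * C0 * (2 : ℝ) ^ κ * c ^ (-(2 * κ))) (d0 ^ (-(2 * κ))),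
    lt_of_lt_of_le (Real.rpow_pos_of_pos hd0p _) (le_max_right _ _), fun q hq => ?_⟩
  set d : ℝ := (q : ℝ) - a with hd
  have hd0' : 0 ≤ d := by linarith
  rcases hd0'.eq_or_lt with hz | hdp
  · -- at the critical point
    have hqa : (q : ℝ) = a := by linarith
    have hθ : th q ≤ 0 := by
      have h2 : Tendsto (fun N : ℕ => C0 * ((N : ℝ)) ^ (-κ)) atTop (𝓝 (C0 * 0)) :=
        ((tendsto_rpow_neg_atTop h0).comp tendsto_natCast_atTop_atTop).const_mul C0
      rw [mul_zero] at h2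
      refine ge_of_tendsto h2 ((eventually_ge_atTop 1).mono fun N hN => ?_)
      have h3 := htail N hN
      rw [← hqa] at h3
      exact (hPB q N).trans h3
    refine hθ.trans ?_
    positivity
  · by_cases hdd : d ≤ d0
    · have hdc : d ≤ c / 2 := hdd.trans (min_le_left _ _)
      have hda : d ≤ (1 - a) / 2 := hdd.trans (min_le_right _ _)
      set x : ℝ := (c / d) ^ 2 with hx
      have hcd : 2 ≤ c / d := by rw [le_div_iff₀ hdp]; linarith
      have hx4 : 4 ≤ x := by rw [hx]; nlinarith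
      set N := ⌊x⌋₊ with hN
      have hNx : (N : ℝ) ≤ x := Nat.floor_le (by linarith)
      have hNx1 : x < N + 1 := Nat.lt_floor_add_one x
      have hN2' : (2 : ℝ) ≤ N := by linarith
      have hN2 : 2 ≤ N := by exact_mod_cast hN2'
      have hN0 : (0 : ℝ) < N := by linarith
      have hNh : x / 2 ≤ N := by linarith
      have hwin : (q : ℝ) - a ≤ c * (N : ℝ) ^ (-(1 / 2 : ℝ)) := by
        have h3 : (N : ℝ) ^ (1 / 2 : ℝ) ≤ c / d := by
          rw [← Real.sqrt_eq_rpow]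
          calc √(N : ℝ) ≤ √x := Real.sqrt_le_sqrt hNx
            _ = c / d := Real.sqrt_sq (by positivity)
        rw [Real.rpow_neg hN0.le, ← div_eq_mul_inv, le_div_iff₀ (by positivity)]
        calc d * (N : ℝ) ^ (1 / 2 : ℝ) ≤ d * (c / d) := mul_le_mul_of_nonneg_left h3 hdp.le
          _ = c := by field_simp
      have h4 := hw N hN2 q hq (by linarith) hwin
      refine (hPB q N).trans (h4.trans ?_)
      have h5 : (N : ℝ) ^ (-κ) ≤ (2 : ℝ) ^ κ * c ^ (-(2 * κ)) * d ^ (2 * κ) := by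
        have h6 : (N : ℝ) ^ (-κ) ≤ (x / 2) ^ (-κ) :=
          Real.rpow_le_rpow_of_nonpos (by positivity) hNh (by linarith)
        refine h6.trans (le_of_eq ?_)
        rw [hx, Real.div_rpow (by positivity) (by norm_num), ← Real.rpow_natCast,
          ← Real.rpow_mul (by positivity), Real.div_rpow hc.le hdp.le,
          Real.rpow_neg (by norm_num : (0 : ℝ) ≤ 2), Real.rpow_neg hc.le]
        have h7 : ((2 : ℕ) : ℝ) * -κ = -(2 * κ) := by push_cast; ring
        rw [h7, Real.rpow_neg hc.le, Real.rpow_neg hdp.le]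
        field_simp
      calc 2 * C0 * (N : ℝ) ^ (-κ)
          ≤ 2 * C0 * ((2 : ℝ) ^ κ * c ^ (-(2 * κ)) * d ^ (2 * κ)) :=
            mul_le_mul_of_nonneg_left h5 (by linarith)
        _ = (2 * C0 * (2 : ℝ) ^ κ * c ^ (-(2 * κ))) * d ^ (2 * κ) := by ring
        _ ≤ _ := mul_le_mul_of_nonneg_right (le_max_left _ _) (by positivity)
    · push Not at hdd
      refine (hth1 q).trans ?_
      calc (1 : ℝ) = d0 ^ (-(2 * κ)) * d0 ^ (2 * κ) := by
            rw [← Real.rpow_add hd0p]; simp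
        _ ≤ d0 ^ (-(2 * κ)) * d ^ (2 * κ) := by
            refine mul_le_mul_of_nonneg_left ?_ (by positivity)
            exact Real.rpow_le_rpow hd0p.le hdd.le (by linarith)
        _ ≤ _ := mul_le_mul_of_nonneg_right (le_max_right _ _) (by positivity)

lemma theta_le_Big (a p : unitInterval) (β : NNReal) (s : ℝ) (m N : ℕ) :
    theta n a p β s m ≤ (pm (prob (n := n) a p β s m)).real (Big (EdI m) N 0) := by
  refine measureReal_mono ?_ (measure_ne_top _ _)
  intro ω hω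
  have hinf : (Kc (EdI m) ω 0).Infinite := hω
  show (N : ℕ∞) ≤ (Kc (EdI m) ω 0).encard
  rw [hinf.encard_eq]
  exact le_top

/-- From the window to the percolation probability. -/
theorem hoelder {m : ℕ} {s : ℝ} {β : NNReal} {κ : ℝ} (h0 : 0 < κ)
    {a c C0 : ℝ} (ha1 : a < 1) (hc : 0 < c) (hC0 : 0 < C0)
    (htail : ∀ N : ℕ, 1 ≤ N → (pm (prob (n := n) (cut a) 1 β s m)).real (Big (EdI m) N 0) ≤
      C0 * (N : ℝ) ^ (-κ))
    (hw : ∀ N : ℕ, 2 ≤ N → ∀ u : ℝ, a ≤ u → u ≤ (1 + a) / 2 →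
      u - a ≤ c * (N : ℝ) ^ (-(1 / 2 : ℝ)) →
      (pm (prob (n := n) (cut u) 1 β s m)).real (Big (EdI m) N 0) ≤ 2 * C0 * (N : ℝ) ^ (-κ)) :
    ∃ C : ℝ, 0 < C ∧ ∀ q : unitInterval, a ≤ (q : ℝ) →
      theta n q 1 β s m ≤ C * ((q : ℝ) - a) ^ (2 * κ) := by
  refine hoelderA h0 (fun q => theta n q 1 β s m)
    (fun u N => (pm (prob (n := n) (cut u) 1 β s m)).real (Big (EdI m) N 0)) (fun q N => ?_)
    (fun q => measureReal_le_one) ha1 hc hC0 htail hw
  have hqcut : cut (q : ℝ) = q := by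
    unfold cut
    exact Set.projIcc_val zero_le_one q
  rw [hqcut]
  exact theta_le_Big q 1 β s m N

end

end Pool.Agent.Y990.PL
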